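import Pool.Agent.H382R2.Gam
import Pool.Agent.TH806.LS.Defs

set_option autoImplicit false

/-!
SC project (helper74): the local law and the moments of zeta in every sector of directions.

The factor of the functional equation: bounds in the strip, values on the critical line.
-/

namespace Pool.Agent.Run7.h74.SC

open Complex Filter Topology MeasureTheory
open Pool.Agent.H306R2.SM (om cl)

noncomputable section

/-- the factor of the functional equation -/
def ch (s : ℂ) : ℂ := Gammaℝ (1 - s) / Gammaℝ s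

lemma ch_diff {s : ℂ} (hs : s.im ≠ 0) : DifferentiableAt ℂ ch s := by
  have h1 : DifferentiableAt ℂ Gammaℝ s := (SG.GamAux.GR_analytic hs).differentiableAt
  have h2 : DifferentiableAt ℂ Gammaℝ (1 - s) :=
    (SG.GamAux.GR_analytic (s := 1 - s) (by simpa using hs)).differentiableAt
  have h3 : DifferentiableAt ℂ (fun z : ℂ => Gammaℝ (1 - z)) s :=
    DifferentiableAt.comp s h2 (by fun_prop)
  exact h3.div h1 (SG.GamAux.GR_ne hs)

/-- decay of the factor -/
lemma ch_big : ∃ C : ℝ, 1 ≤ C ∧ ∀ s : ℂ, 10 ≤ |s.im| → 1 / 2 ≤ s.re → s.re ≤ 3 →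
    ‖ch s‖ * Real.exp ((s.re - 1 / 2) * Real.log |s.im|) ≤ C := by
  obtain ⟨C, hC, h⟩ := SG.GamAux.main
  refine ⟨Real.exp (5 * C), ?_, ?_⟩
  · exact Real.one_le_exp (by linarith)
  intro s h1 h2 h3
  have hne : Gammaℝ s ≠ 0 := by
    apply SG.GamAux.GR_ne
    intro h0
    rw [h0] at h1
    norm_num at h1
  have hn : 0 < ‖Gammaℝ s‖ := norm_pos_iff.mpr hne
  set d : ℝ := s.re - 1 / 2 with hd
  set w : ℂ := ⟨1 / 2, s.im⟩ with hw
  have hsw : s = w + d := by
    apply Complex.ext <;> simp [hw, hd]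
  have hsw' : 1 - s = (starRingEnd ℂ) w - d := by
    apply Complex.ext
    · simp [hw, hd]; ring
    · simp [hw]
  have hcw : ‖Gammaℝ ((starRingEnd ℂ) w)‖ = ‖Gammaℝ w‖ := by
    rw [SG.GamAux.GR_conj]; simp
  set T := |s.im| with hT
  have hlT : 0 ≤ Real.log T := Real.log_nonneg (by linarith)
  unfold ch
  rw [norm_div, div_mul_eq_mul_div, div_le_iff₀ hn]
  rcases eq_or_lt_of_le (show (0 : ℝ) ≤ d by linarith) with h0 | h0
  · have h5 : (1 : ℂ) - s = (starRingEnd ℂ) w := by rw [hsw', ← h0]; simp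
    have h6 : s = w := by rw [hsw, ← h0]; simp
    rw [h5, hcw, ← h6, ← h0]
    have : 1 ≤ Real.exp (5 * C) := Real.one_le_exp (by linarith)
    simp only [zero_mul, Real.exp_zero, mul_one]
    nlinarith
  · have hdC : (d : ℂ) ≠ 0 := by exact_mod_cast h0.ne'
    have hd2 : d ≤ 5 / 2 := by rw [hd]; linarith
    -- from `s` to `w`
    have k1 := (h s (-(d : ℂ)) T (by linarith) (by simpa using hdC) ?_).1
    · have k2 := (h ((starRingEnd ℂ) w) (-(d : ℂ)) T (by linarith) (by simpa using hdC) ?_).1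
      · have e1 : s + -(d : ℂ) = w := by rw [hsw]; ring
        have e2 : (starRingEnd ℂ) w + -(d : ℂ) = 1 - s := by rw [hsw']; ring
        have e3 : ‖-(d : ℂ)‖ = d := by simp [abs_of_pos h0]
        have e4 : ‖cexp (-(-(d : ℂ) * ↑(Real.log T / 2)))‖ = Real.exp (d * (Real.log T / 2)) := by
          rw [Complex.norm_exp]
          congr 1
          simp
        rw [e1, e3, norm_mul, e4] at k1
        rw [e2, e3, norm_mul, e4, hcw] at k2
        have h8 : Real.exp (C * d) ≤ Real.exp (5 / 2 * C) := by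
          apply Real.exp_le_exp.mpr
          nlinarith
        have e5 : Real.exp (d * Real.log T) = Real.exp (d * (Real.log T / 2)) * Real.exp (d * (Real.log T / 2)) := by
          rw [← Real.exp_add]; congr 1; ring
        have hp := Real.exp_pos (d * (Real.log T / 2))
        rw [e5]
        calc ‖Gammaℝ (1 - s)‖ * (Real.exp (d * (Real.log T / 2)) * Real.exp (d * (Real.log T / 2)))
            = (‖Gammaℝ (1 - s)‖ * Real.exp (d * (Real.log T / 2))) * Real.exp (d * (Real.log T / 2)) := by ring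
          _ ≤ (Real.exp (C * d) * ‖Gammaℝ w‖) * Real.exp (d * (Real.log T / 2)) := by gcongr
          _ = Real.exp (C * d) * (‖Gammaℝ w‖ * Real.exp (d * (Real.log T / 2))) := by ring
          _ ≤ Real.exp (C * d) * (Real.exp (C * d) * ‖Gammaℝ s‖) := by gcongr
          _ ≤ Real.exp (5 / 2 * C) * (Real.exp (5 / 2 * C) * ‖Gammaℝ s‖) := by gcongr
          _ = Real.exp (5 * C) * ‖Gammaℝ s‖ := by
            rw [← mul_assoc, ← Real.exp_add]
            ring_nf
      · intro x hx
        have him : ((starRingEnd ℂ) w + ↑x * -(d : ℂ)).im = -s.im := by simp [hw]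
        have hre : ((starRingEnd ℂ) w + ↑x * -(d : ℂ)).re = 1 / 2 - x * d := by
          simp [hw]; ring
        rw [him, hre, abs_neg, ← hT]
        refine ⟨by linarith, by linarith, by linarith, ?_⟩
        rw [abs_le]
        constructor <;> nlinarith [hx.1, hx.2]
    · intro x hx
      have him : (s + ↑x * -(d : ℂ)).im = s.im := by simp
      have hre : (s + ↑x * -(d : ℂ)).re = s.re - x * d := by
        simp; ring
      rw [him, hre, ← hT]
      refine ⟨by linarith, by linarith, by linarith, ?_⟩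
      rw [abs_le]
      constructor <;> nlinarith [hx.1, hx.2]

/-- the factor in the strip -/
lemma ch_bound : ∃ C : ℝ, 1 ≤ C ∧ ∀ s : ℂ, 1 / 2 ≤ s.re → s.re ≤ 3 → 1 ≤ s.im →
    ‖ch s‖ ≤ C ∧ (s.re = 3 → ‖ch s‖ ≤ C / s.im) := by
  obtain ⟨C₁, hC₁, h1⟩ := ch_big
  have hK : IsCompact (Set.Icc (1 / 2 : ℝ) 3 ×ℂ Set.Icc (1 : ℝ) 10) := isCompact_Icc.reProdIm isCompact_Icc
  have hcont : ContinuousOn ch (Set.Icc (1 / 2 : ℝ) 3 ×ℂ Set.Icc (1 : ℝ) 10) := by
    intro s hs
    rw [Complex.mem_reProdIm] at hs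
    refine (ch_diff ?_).continuousAt.continuousWithinAt
    have := hs.2.1
    intro h0
    rw [h0] at this
    norm_num at this
  obtain ⟨C₂, h2⟩ := hK.exists_bound_of_continuousOn hcont
  refine ⟨C₁ + 10 * |C₂|, by have := abs_nonneg C₂; linarith, fun s ha hb hc => ?_⟩
  have hC₂ := abs_nonneg C₂
  have him : 0 < s.im := by linarith
  rcases le_or_gt s.im 10 with h | h
  · have h3 := (h2 s (by rw [Complex.mem_reProdIm]; exact ⟨⟨ha, hb⟩, hc, h⟩)).trans (le_abs_self _)
    refine ⟨by linarith, fun _ => ?_⟩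
    rw [le_div_iff₀ him]
    calc ‖ch s‖ * s.im ≤ |C₂| * 10 := by gcongr
      _ ≤ _ := by linarith
  · have h3 : |s.im| = s.im := abs_of_pos him
    have h4 := h1 s (by rw [h3]; linarith) ha hb
    rw [h3] at h4
    have hl : 0 ≤ Real.log s.im := Real.log_nonneg hc
    have hn := norm_nonneg (ch s)
    refine ⟨?_, fun hre => ?_⟩
    · have h5 : 1 ≤ Real.exp ((s.re - 1 / 2) * Real.log s.im) := by
        refine Real.one_le_exp ?_
        exact mul_nonneg (by linarith) hl
      nlinarith
    · rw [le_div_iff₀ him]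
      have h5 : s.im ≤ Real.exp ((s.re - 1 / 2) * Real.log s.im) := by
        calc s.im = Real.exp (Real.log s.im) := (Real.exp_log him).symm
          _ ≤ _ := by
              apply Real.exp_le_exp.mpr
              rw [hre]; linarith
      nlinarith

/-- the factor on the critical line -/
def ph (t : ℝ) : ℂ := ch (cl t)

lemma one_sub_cl (t : ℝ) : 1 - cl t = starRingEnd ℂ (cl t) := by
  apply Complex.ext
  · simp [cl]; norm_num
  · simp [cl]

lemma Gcl_ne (t : ℝ) : Gammaℝ (cl t) ≠ 0 := Gammaℝ_ne_zero_of_re_pos (by simp [cl])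

lemma ph_eq (t : ℝ) : ph t = starRingEnd ℂ (Gammaℝ (cl t)) / Gammaℝ (cl t) := by
  unfold ph ch
  rw [one_sub_cl, SG.GamAux.GR_conj]

lemma ph_norm (t : ℝ) : ‖ph t‖ = 1 := by
  rw [ph_eq, norm_div, RCLike.norm_conj]
  exact div_self (norm_ne_zero_iff.mpr (Gcl_ne t))

lemma cl_cont : Continuous cl := by
  unfold cl
  fun_prop

lemma Gcl_cont : Continuous fun t : ℝ => Gammaℝ (cl t) := by
  have h1 : Continuous fun t : ℝ => (Gammaℝ (cl t))⁻¹ :=
    differentiable_Gammaℝ_inv.continuous.comp cl_cont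
  have h2 := h1.inv₀ fun t => inv_ne_zero (Gcl_ne t)
  refine h2.congr fun t => ?_
  exact inv_inv _

lemma ph_cont : Continuous ph := by
  have : ph = fun t => starRingEnd ℂ (Gammaℝ (cl t)) / Gammaℝ (cl t) := funext ph_eq
  rw [this]
  exact (Complex.continuous_conj.comp Gcl_cont).div Gcl_cont Gcl_ne

lemma zeta_ph (t : ℝ) : riemannZeta (cl t) = ph t * starRingEnd ℂ (riemannZeta (cl t)) := by
  have h0 : cl t ≠ 0 := by
    intro h
    have := congrArg Complex.re h
    simp [cl] at this
  have h1 : starRingEnd ℂ (cl t) ≠ 0 := by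
    intro h
    apply h0
    simpa using h
  have h2 : riemannZeta (starRingEnd ℂ (cl t)) = starRingEnd ℂ (riemannZeta (cl t)) := riemannZeta_conj _
  have h3 : riemannZeta (cl t) = completedRiemannZeta (cl t) / Gammaℝ (cl t) := riemannZeta_def_of_ne_zero h0
  have h4 : riemannZeta (starRingEnd ℂ (cl t)) =
      completedRiemannZeta (starRingEnd ℂ (cl t)) / Gammaℝ (starRingEnd ℂ (cl t)) :=
    riemannZeta_def_of_ne_zero h1
  have h5 : completedRiemannZeta (starRingEnd ℂ (cl t)) = completedRiemannZeta (cl t) := by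
    rw [← one_sub_cl, completedRiemannZeta_one_sub]
  have hG := Gcl_ne t
  have hG' : starRingEnd ℂ (Gammaℝ (cl t)) ≠ 0 := by simpa using hG
  rw [← h2, h4, h5, ph_eq, SG.GamAux.GR_conj]
  rw [h3]
  field_simp

end

end Pool.Agent.Run7.h74.SC
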