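import Mathlib

set_option autoImplicit false

/-!
SC project (helper74): trigonometric algebra. A sector function is split into its even and odd part, which are
approximated by polynomials in the cosine of the angle, and these are expanded into harmonics.
-/

namespace Pool.Agent.Run7.h74.SC

open Finset Filter Topology MeasureTheory

noncomputable section

/-! ### powers of the real part -/

/-- the distance of `2 m` and `n` -/
def dd (n m : ℕ) : ℕ := (2 * m - n) + (n - 2 * m)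

lemma mul_conj_one {v : ℂ} (hv : ‖v‖ = 1) : v * starRingEnd ℂ v = 1 := by
  rw [Complex.mul_conj', hv]; norm_num

lemma vw_pow {v : ℂ} (hv : ‖v‖ = 1) {n m : ℕ} (hm : m ≤ n) :
    v ^ m * starRingEnd ℂ v ^ (n - m) = if n ≤ 2 * m then v ^ (2 * m - n) else starRingEnd ℂ v ^ (n - 2 * m) := by
  have h1 := mul_conj_one hv
  split_ifs with h
  · have e1 : m = (2 * m - n) + (n - m) := by omega
    calc v ^ m * starRingEnd ℂ v ^ (n - m) = v ^ ((2 * m - n) + (n - m)) * starRingEnd ℂ v ^ (n - m) := by rw [← e1]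
      _ = v ^ (2 * m - n) * (v * starRingEnd ℂ v) ^ (n - m) := by rw [pow_add, mul_pow]; ring
      _ = _ := by rw [h1, one_pow, mul_one]
  · have e1 : n - m = m + (n - 2 * m) := by omega
    rw [e1, pow_add, ← mul_assoc, ← mul_pow, h1, one_pow, one_mul]

lemma re_vw {v : ℂ} (hv : ‖v‖ = 1) {n m : ℕ} (hm : m ≤ n) :
    (v ^ m * starRingEnd ℂ v ^ (n - m)).re = (v ^ dd n m).re := by
  rw [vw_pow hv hm]
  unfold dd
  split_ifs with h
  · have : n - 2 * m = 0 := by omega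
    rw [this, add_zero]
  · have : 2 * m - n = 0 := by omega
    rw [this, zero_add, ← map_pow, Complex.conj_re]

lemma cre_pow (v : ℂ) (n : ℕ) : ((v.re : ℝ) : ℂ) ^ n =
    ∑ m ∈ range (n + 1), (((n.choose m : ℝ) / 2 ^ n : ℝ) : ℂ) * (v ^ m * starRingEnd ℂ v ^ (n - m)) := by
  rw [Complex.re_eq_add_conj, div_pow, add_pow, sum_div]
  refine sum_congr rfl fun m _ => ?_
  push_cast
  ring

lemma re_pow {v : ℂ} (hv : ‖v‖ = 1) (n : ℕ) :
    v.re ^ n = ∑ m ∈ range (n + 1), (n.choose m : ℝ) / 2 ^ n * (v ^ dd n m).re := by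
  have h := congrArg Complex.re (cre_pow v n)
  rw [← Complex.ofReal_pow, Complex.ofReal_re, Complex.re_sum] at h
  rw [h]
  refine sum_congr rfl fun m hm => ?_
  rw [Complex.re_ofReal_mul, re_vw hv (by rw [mem_range] at hm; omega)]

/-! ### the sector function -/

/-- the sector function -/
def Ys (c : ℝ) (ω z : ℂ) : ℝ := max ((starRingEnd ℂ ω * z).re - c * ‖z‖) 0

/-- its even part -/
def Ye (c : ℝ) (ω z : ℂ) : ℝ := (Ys c ω z + Ys c (-ω) z) / 2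

/-- its odd part -/
def Yo (c : ℝ) (ω z : ℂ) : ℝ := (Ys c ω z - Ys c (-ω) z) / 2

lemma Ys_split (c : ℝ) (ω z : ℂ) : Ys c ω z = Ye c ω z + Yo c ω z := by
  unfold Ye Yo; ring

lemma Ys_nonneg (c : ℝ) (ω z : ℂ) : 0 ≤ Ys c ω z := le_max_right _ _

lemma Ye_nonneg (c : ℝ) (ω z : ℂ) : 0 ≤ Ye c ω z := by
  unfold Ye
  have := Ys_nonneg c ω z
  have := Ys_nonneg c (-ω) z
  linarith

lemma Ys_le {c : ℝ} (hc : 0 ≤ c) {ω : ℂ} (hω : ‖ω‖ = 1) (z : ℂ) : Ys c ω z ≤ ‖z‖ := by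
  unfold Ys
  refine max_le ?_ (norm_nonneg _)
  have h1 : (starRingEnd ℂ ω * z).re ≤ ‖z‖ := by
    refine (Complex.re_le_norm _).trans ?_
    rw [norm_mul, RCLike.norm_conj, hω, one_mul]
  have := mul_nonneg hc (norm_nonneg z)
  linarith

lemma Ye_le {c : ℝ} (hc : 0 ≤ c) {ω : ℂ} (hω : ‖ω‖ = 1) (z : ℂ) : Ye c ω z ≤ ‖z‖ := by
  unfold Ye
  have h1 := Ys_le hc hω z
  have h2 := Ys_le hc (by rw [norm_neg]; exact hω : ‖-ω‖ = 1) z
  linarith

lemma Yo_abs {c : ℝ} (hc : 0 ≤ c) {ω : ℂ} (hω : ‖ω‖ = 1) (z : ℂ) : |Yo c ω z| ≤ ‖z‖ := by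
  unfold Yo
  have h1 := Ys_le hc hω z
  have h2 := Ys_le hc (by rw [norm_neg]; exact hω : ‖-ω‖ = 1) z
  have h3 := Ys_nonneg c ω z
  have h4 := Ys_nonneg c (-ω) z
  rw [abs_le]
  constructor <;> linarith

/-- outside the sector the function vanishes -/
lemma Ys_zero {ρ : ℝ} (hρ : 0 < ρ) {ω : ℂ} (hω : ‖ω‖ = 1) {z : ℂ} (h : ¬ ‖z - ω * ‖z‖‖ < ρ * ‖z‖) :
    Ys (1 - ρ ^ 2 / 2) ω z = 0 := by
  unfold Ys
  refine max_eq_right ?_
  push Not at h
  have h1 : ‖z - ω * ‖z‖‖ ^ 2 = 2 * ‖z‖ ^ 2 - 2 * ‖z‖ * (starRingEnd ℂ ω * z).re := by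
    have e1 : ‖z - ω * ‖z‖‖ ^ 2 = ‖z‖ ^ 2 + ‖ω * (‖z‖ : ℂ)‖ ^ 2 - 2 * (z * starRingEnd ℂ (ω * (‖z‖ : ℂ))).re := by
      rw [← Complex.normSq_eq_norm_sq, ← Complex.normSq_eq_norm_sq, ← Complex.normSq_eq_norm_sq, Complex.normSq_sub]
    rw [e1, norm_mul, hω, one_mul, Complex.norm_real, norm_norm, map_mul, Complex.conj_ofReal]
    have e2 : (z * (starRingEnd ℂ ω * (‖z‖ : ℂ))).re = ‖z‖ * (starRingEnd ℂ ω * z).re := by
      rw [← Complex.re_ofReal_mul]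
      congr 1
      ring
    rw [e2]; ring
  have h2 : (ρ * ‖z‖) ^ 2 ≤ ‖z - ω * ‖z‖‖ ^ 2 := pow_le_pow_left₀ (by positivity) h 2
  rw [h1] at h2
  rcases eq_or_lt_of_le (norm_nonneg z) with h0 | h0
  · rw [← h0]
    have : z = 0 := norm_eq_zero.mp h0.symm
    rw [this]; simp
  · have h3 : ‖z‖ * (2 * (starRingEnd ℂ ω * z).re - (2 - ρ ^ 2) * ‖z‖) ≤ 0 := by nlinarith
    have h4 : 2 * (starRingEnd ℂ ω * z).re - (2 - ρ ^ 2) * ‖z‖ ≤ 0 := by
      by_contra hneg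
      push Not at hneg
      have := mul_pos h0 hneg
      linarith
    linarith

/-! ### the functions of the cosine -/

/-- the even function -/
def ge (c x : ℝ) : ℝ := (max (x - c) 0 + max (-x - c) 0) / 2

/-- the odd function -/
def go (c x : ℝ) : ℝ := (max (x - c) 0 - max (-x - c) 0) / 2

lemma ge_cont (c : ℝ) : Continuous (ge c) := by unfold ge; fun_prop

lemma go_cont (c : ℝ) : Continuous (go c) := by unfold go; fun_prop

lemma even_odd_sum (a : ℕ → ℝ) (x : ℝ) (N : ℕ) : ∑ i ∈ range (2 * N), a i * x ^ i =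
    (∑ i ∈ range N, a (2 * i) * x ^ (2 * i)) + ∑ i ∈ range N, a (2 * i + 1) * x ^ (2 * i + 1) := by
  induction N with
  | zero => simp
  | succ N ih =>
    rw [show 2 * (N + 1) = 2 * N + 1 + 1 by ring, sum_range_succ, sum_range_succ, ih, sum_range_succ, sum_range_succ]
    ring

lemma poly_split (P : Polynomial ℝ) : ∃ (N : ℕ) (a b : ℕ → ℝ), ∀ x : ℝ,
    (P.eval x + P.eval (-x)) / 2 = ∑ i ∈ range N, a i * x ^ (2 * i) ∧
    (P.eval x - P.eval (-x)) / 2 = ∑ i ∈ range N, b i * x ^ (2 * i + 1) := by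
  refine ⟨P.natDegree + 1, fun i => P.coeff (2 * i), fun i => P.coeff (2 * i + 1), fun x => ?_⟩
  have h1 : ∀ x : ℝ, P.eval x = ∑ i ∈ range (2 * (P.natDegree + 1)), P.coeff i * x ^ i := fun x =>
    Polynomial.eval_eq_sum_range' (by omega) x
  have e1 : ∀ i, (-x) ^ (2 * i) = x ^ (2 * i) := fun i => by rw [pow_mul, pow_mul, neg_sq]
  have e2 : ∀ i, (-x) ^ (2 * i + 1) = -(x ^ (2 * i + 1)) := fun i => by
    rw [pow_succ, pow_succ, e1]; ring
  rw [h1 x, h1 (-x), even_odd_sum, even_odd_sum]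
  simp_rw [e1, e2, mul_neg, sum_neg_distrib]
  constructor <;> ring

lemma even_approx (c : ℝ) {η : ℝ} (hη : 0 < η) : ∃ (N : ℕ) (a : ℕ → ℝ), ∀ x ∈ Set.Icc (-1 : ℝ) 1,
    |(∑ i ∈ range N, a i * x ^ (2 * i)) - ge c x| ≤ η := by
  obtain ⟨P, hP⟩ := exists_polynomial_near_of_continuousOn (-1) 1 (ge c) (ge_cont c).continuousOn η hη
  obtain ⟨N, a, b, hab⟩ := poly_split P
  refine ⟨N, a, fun x hx => ?_⟩
  rw [← (hab x).1]
  have h1 := (hP x hx).le
  have h2 := (hP (-x) ⟨by linarith [hx.2], by linarith [hx.1]⟩).le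
  have e : ge c (-x) = ge c x := by unfold ge; rw [neg_neg]; ring
  rw [e] at h2
  have e3 : (P.eval x + P.eval (-x)) / 2 - ge c x = (P.eval x - ge c x) / 2 + (P.eval (-x) - ge c x) / 2 := by ring
  rw [e3]
  refine (abs_add_le _ _).trans ?_
  rw [abs_div, abs_div, abs_of_pos (by norm_num : (0:ℝ) < 2)]
  linarith

lemma odd_approx (c : ℝ) {η : ℝ} (hη : 0 < η) : ∃ (N : ℕ) (a : ℕ → ℝ), ∀ x ∈ Set.Icc (-1 : ℝ) 1,
    |(∑ i ∈ range N, a i * x ^ (2 * i + 1)) - go c x| ≤ η := by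
  obtain ⟨P, hP⟩ := exists_polynomial_near_of_continuousOn (-1) 1 (go c) (go_cont c).continuousOn η hη
  obtain ⟨N, a, b, hab⟩ := poly_split P
  refine ⟨N, b, fun x hx => ?_⟩
  rw [← (hab x).2]
  have h1 := (hP x hx).le
  have h2 := (hP (-x) ⟨by linarith [hx.2], by linarith [hx.1]⟩).le
  have e : go c (-x) = -go c x := by unfold go; rw [neg_neg]; ring
  rw [e] at h2
  have e3 : (P.eval x - P.eval (-x)) / 2 - go c x = (P.eval x - go c x) / 2 + -((P.eval (-x) - -go c x) / 2) := by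
    ring
  rw [e3]
  refine (abs_add_le _ _).trans ?_
  rw [abs_neg, abs_div, abs_div, abs_of_pos (by norm_num : (0:ℝ) < 2)]
  linarith

/-- the mean of the even function over the circle -/
def mc (c : ℝ) : ℝ := (1 / Real.pi) * ∫ x in (0:ℝ)..Real.pi, ge c (Real.sin x)

lemma mc_pos {c : ℝ} (hc : c < 1) : 0 < mc c := by
  unfold mc
  have hpi := Real.pi_pos
  refine mul_pos (by positivity) ?_
  refine intervalIntegral.integral_pos hpi ((ge_cont c).comp Real.continuous_sin).continuousOn ?_ ?_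
  · intro x _
    unfold ge
    positivity
  · refine ⟨Real.pi / 2, ⟨by positivity, by linarith⟩, ?_⟩
    rw [Real.sin_pi_div_two]
    unfold ge
    have h1 : 0 < max (1 - c) 0 := lt_max_of_lt_left (by linarith)
    have h2 : 0 ≤ max (-1 - c) 0 := le_max_right _ _
    linarith

lemma sin_prod (n : ℕ) : ∏ i ∈ range n, (2 * (i:ℝ) + 1) / (2 * i + 2) = ((2 * n).choose n : ℝ) / 2 ^ (2 * n) := by
  induction n with
  | zero => simp
  | succ n ih =>
    rw [prod_range_succ, ih]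
    have h := Nat.succ_mul_centralBinom_succ n
    unfold Nat.centralBinom at h
    have h' : ((n:ℝ) + 1) * ((2 * (n + 1)).choose (n + 1) : ℝ) = 2 * (2 * n + 1) * ((2 * n).choose n : ℝ) := by
      exact_mod_cast h
    have h1 : ((n:ℝ) + 1) ≠ 0 := by positivity
    have h2 : (2 * (n:ℝ) + 2) ≠ 0 := by positivity
    rw [show 2 * (n + 1) = 2 * n + 2 by ring] at h' ⊢
    rw [pow_add, div_mul_div_comm, div_eq_div_iff (by positivity) (by positivity)]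
    linear_combination (-(2:ℝ) ^ (2 * n) * 2) * h'

/-- the constant coefficient is close to the mean -/
lemma coeff_zero {c η : ℝ} {N : ℕ} {a : ℕ → ℝ}
    (h : ∀ x ∈ Set.Icc (-1 : ℝ) 1, |(∑ i ∈ range N, a i * x ^ (2 * i)) - ge c x| ≤ η) :
    mc c - η ≤ ∑ i ∈ range N, a i * (((2 * i).choose i : ℝ) / 2 ^ (2 * i)) := by
  have hpi := Real.pi_pos
  have hc1 : Continuous fun x : ℝ => ∑ i ∈ range N, a i * Real.sin x ^ (2 * i) := by fun_prop
  have hc2 : Continuous fun x : ℝ => ge c (Real.sin x) := (ge_cont c).comp Real.continuous_sin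
  have h1 : ‖∫ x in (0:ℝ)..Real.pi, ((∑ i ∈ range N, a i * Real.sin x ^ (2 * i)) - ge c (Real.sin x))‖ ≤
      η * |Real.pi - 0| := by
    refine intervalIntegral.norm_integral_le_of_norm_le_const fun x _ => ?_
    exact h _ ⟨Real.neg_one_le_sin x, Real.sin_le_one x⟩
  rw [intervalIntegral.integral_sub (hc1.intervalIntegrable _ _) (hc2.intervalIntegrable _ _),
    sub_zero, abs_of_pos hpi] at h1
  have h2 : (∫ x in (0:ℝ)..Real.pi, ∑ i ∈ range N, a i * Real.sin x ^ (2 * i)) =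
      Real.pi * ∑ i ∈ range N, a i * (((2 * i).choose i : ℝ) / 2 ^ (2 * i)) := by
    have hi : ∀ i ∈ range N, IntervalIntegrable (fun x : ℝ => a i * Real.sin x ^ (2 * i)) volume 0 Real.pi :=
      fun i _ => Continuous.intervalIntegrable (by fun_prop) _ _
    rw [intervalIntegral.integral_finsetSum hi, mul_sum]
    refine sum_congr rfl fun i _ => ?_
    rw [intervalIntegral.integral_const_mul, integral_sin_pow_even, sin_prod]
    ring
  rw [h2, Real.norm_eq_abs] at h1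
  have h3 := (abs_le.mp h1).1
  have h4 : mc c * Real.pi = ∫ x in (0:ℝ)..Real.pi, ge c (Real.sin x) := by
    unfold mc; field_simp
  rw [← h4] at h3
  have h5 : 0 ≤ Real.pi * ((∑ i ∈ range N, a i * (((2 * i).choose i : ℝ) / 2 ^ (2 * i))) - (mc c - η)) := by
    linarith
  have h6 := nonneg_of_mul_nonneg_right h5 hpi
  linarith

/-! ### harmonics -/

section
variable {z p ω : ℂ}

lemma v_norm (hz : z ≠ 0) (hω : ‖ω‖ = 1) : ‖starRingEnd ℂ ω * z / (‖z‖ : ℂ)‖ = 1 := by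
  rw [norm_div, norm_mul, RCLike.norm_conj, hω, one_mul, Complex.norm_real, norm_norm]
  exact div_self (norm_ne_zero_iff.mpr hz)

lemma v_re (z ω : ℂ) : (starRingEnd ℂ ω * z / (‖z‖ : ℂ)).re = (starRingEnd ℂ ω * z).re / ‖z‖ := by
  rw [Complex.div_ofReal_re]

lemma v_sq (hz : z ≠ 0) (hp : z = p * starRingEnd ℂ z) :
    (starRingEnd ℂ ω * z / (‖z‖ : ℂ)) ^ 2 = starRingEnd ℂ ω ^ 2 * p := by
  have h0 : ((‖z‖ : ℝ) : ℂ) ≠ 0 := by exact_mod_cast norm_ne_zero_iff.mpr hz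
  have h1 : z * starRingEnd ℂ z = (‖z‖ : ℂ) ^ 2 := Complex.mul_conj' z
  have h2 : z ^ 2 = p * (‖z‖ : ℂ) ^ 2 := by
    calc z ^ 2 = z * (p * starRingEnd ℂ z) := by rw [← hp]; ring
      _ = p * (z * starRingEnd ℂ z) := by ring
      _ = _ := by rw [h1]
  rw [div_pow, mul_pow, h2]
  field_simp

lemma h_odd (hz : z ≠ 0) (hp : z = p * starRingEnd ℂ z) (j : ℕ) :
    (‖z‖ : ℂ) * (starRingEnd ℂ ω * z / (‖z‖ : ℂ)) ^ (2 * j + 1) = starRingEnd ℂ ω ^ (2 * j + 1) * (z * p ^ j) := by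
  have h0 : ((‖z‖ : ℝ) : ℂ) ≠ 0 := by exact_mod_cast norm_ne_zero_iff.mpr hz
  have e1 : (starRingEnd ℂ ω * z / (‖z‖ : ℂ)) ^ (2 * j + 1) =
      ((starRingEnd ℂ ω * z / (‖z‖ : ℂ)) ^ 2) ^ j * (starRingEnd ℂ ω * z / (‖z‖ : ℂ)) := by
    rw [← pow_mul, ← pow_succ]
  have e2 : starRingEnd ℂ ω ^ (2 * j + 1) = (starRingEnd ℂ ω ^ 2) ^ j * starRingEnd ℂ ω := by
    rw [← pow_mul, ← pow_succ]
  rw [e1, e2, v_sq hz hp, mul_pow]
  field_simp

/-- the harmonics of an odd power -/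
def Hod (n m : ℕ) (ω z p : ℂ) : ℂ := starRingEnd ℂ ω ^ dd n m * (z * p ^ ((dd n m - 1) / 2))

lemma odd_expand (hz : z ≠ 0) (hp : z = p * starRingEnd ℂ z) (hω : ‖ω‖ = 1) (i : ℕ) :
    ‖z‖ * ((starRingEnd ℂ ω * z).re / ‖z‖) ^ (2 * i + 1) =
      ∑ m ∈ range (2 * i + 1 + 1), ((2 * i + 1).choose m : ℝ) / 2 ^ (2 * i + 1) * (Hod (2 * i + 1) m ω z p).re := by
  rw [← v_re, re_pow (v_norm hz hω), mul_sum]
  refine sum_congr rfl fun m hm => ?_
  have hd : ∃ j, dd (2 * i + 1) m = 2 * j + 1 := by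
    unfold dd
    rcases le_or_gt (2 * i + 1) (2 * m) with h | h
    · exact ⟨m - i - 1, by omega⟩
    · exact ⟨i - m, by omega⟩
  obtain ⟨j, hj⟩ := hd
  have h1 := h_odd (ω := ω) hz hp j
  unfold Hod
  rw [hj, show (2 * j + 1 - 1) / 2 = j by omega, ← h1, Complex.re_ofReal_mul]
  ring

/-- the harmonics of an even power -/
def Hev (n m : ℕ) (ω z p : ℂ) : ℂ :=
  if n < 2 * m then starRingEnd ℂ ω ^ (2 * m - n) * (z * p ^ ((2 * m - n) / 2))
  else if 2 * m = n then z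
  else starRingEnd ℂ (starRingEnd ℂ ω ^ (n - 2 * m) * (z * p ^ ((n - 2 * m) / 2 - 1)))

lemma even_term (hz : z ≠ 0) (hp : z = p * starRingEnd ℂ z) (hp1 : ‖p‖ = 1) (hω : ‖ω‖ = 1) {i m : ℕ}
    (hm : m ≤ 2 * i) :
    z * ((starRingEnd ℂ ω * z / (‖z‖ : ℂ)) ^ m * starRingEnd ℂ (starRingEnd ℂ ω * z / (‖z‖ : ℂ)) ^ (2 * i - m)) =
      Hev (2 * i) m ω z p := by
  rw [vw_pow (v_norm hz hω) hm]
  unfold Hev
  rcases lt_trichotomy (2 * i) (2 * m) with h | h | h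
  · rw [if_pos h.le, if_pos h]
    obtain ⟨j, hj⟩ : ∃ j, 2 * m - 2 * i = 2 * j := ⟨m - i, by omega⟩
    rw [hj, show 2 * j / 2 = j by omega, pow_mul, v_sq hz hp, pow_mul, mul_pow]
    ring
  · rw [if_pos h.le, if_neg (by omega), if_pos (by omega), h, Nat.sub_self, pow_zero, mul_one]
  · rw [if_neg (by omega), if_neg (by omega), if_neg (by omega)]
    obtain ⟨j, hj⟩ : ∃ j, 2 * i - 2 * m = 2 * (j + 1) := ⟨i - m - 1, by omega⟩
    have h1 := mul_conj_one hp1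
    have h2 : z * starRingEnd ℂ p = starRingEnd ℂ z := by
      calc z * starRingEnd ℂ p = (p * starRingEnd ℂ z) * starRingEnd ℂ p := by rw [← hp]
        _ = (p * starRingEnd ℂ p) * starRingEnd ℂ z := by ring
        _ = _ := by rw [h1, one_mul]
    rw [hj, show 2 * (j + 1) / 2 - 1 = j by omega, pow_mul, ← map_pow, v_sq hz hp]
    simp only [map_mul, map_pow, Complex.conj_conj]
    rw [pow_succ, ← h2]
    ring

lemma even_expand (hz : z ≠ 0) (hp : z = p * starRingEnd ℂ z) (hp1 : ‖p‖ = 1) (hω : ‖ω‖ = 1) (i : ℕ) :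
    z * ((((starRingEnd ℂ ω * z).re / ‖z‖) ^ (2 * i) : ℝ) : ℂ) =
      ∑ m ∈ range (2 * i + 1), (((2 * i).choose m : ℝ) / 2 ^ (2 * i) : ℝ) * Hev (2 * i) m ω z p := by
  rw [Complex.ofReal_pow, ← v_re, cre_pow, mul_sum]
  refine sum_congr rfl fun m hm => ?_
  rw [← even_term hz hp hp1 hω (by rw [mem_range] at hm; omega)]
  ring

end

/-- the odd combination -/
def Qo (a : ℕ → ℝ) (N : ℕ) (ω z p : ℂ) : ℝ :=
  ∑ i ∈ range N, a i * ∑ m ∈ range (2 * i + 1 + 1), ((2 * i + 1).choose m : ℝ) / 2 ^ (2 * i + 1) *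
    (Hod (2 * i + 1) m ω z p).re

/-- the even combination -/
def Qe (a : ℕ → ℝ) (N : ℕ) (ω z p : ℂ) : ℂ :=
  ∑ i ∈ range N, (a i : ℂ) * ∑ m ∈ range (2 * i + 1), (((2 * i).choose m : ℝ) / 2 ^ (2 * i) : ℝ) * Hev (2 * i) m ω z p

lemma xr_mem {z ω : ℂ} (hz : z ≠ 0) (hω : ‖ω‖ = 1) : (starRingEnd ℂ ω * z).re / ‖z‖ ∈ Set.Icc (-1 : ℝ) 1 := by
  rw [← v_re]
  exact abs_le.mp ((Complex.abs_re_le_norm _).trans (v_norm hz hω).le)

lemma Ys_eq {c : ℝ} {z ω : ℂ} (hz : z ≠ 0) : Ys c ω z = ‖z‖ * max ((starRingEnd ℂ ω * z).re / ‖z‖ - c) 0 := by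
  have h0 : 0 < ‖z‖ := norm_pos_iff.mpr hz
  unfold Ys
  rw [mul_max_of_nonneg _ _ h0.le, mul_zero]
  congr 1
  field_simp

lemma Ys_neg_eq {c : ℝ} {z ω : ℂ} (hz : z ≠ 0) :
    Ys c (-ω) z = ‖z‖ * max (-((starRingEnd ℂ ω * z).re / ‖z‖) - c) 0 := by
  rw [Ys_eq hz]
  congr 3
  rw [map_neg, neg_mul, Complex.neg_re, neg_div]

lemma Qo_near {c η : ℝ} {N : ℕ} {a : ℕ → ℝ}
    (h : ∀ x ∈ Set.Icc (-1 : ℝ) 1, |(∑ i ∈ range N, a i * x ^ (2 * i + 1)) - go c x| ≤ η) {z p ω : ℂ}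
    (hp : z = p * starRingEnd ℂ z) (hω : ‖ω‖ = 1) : |Qo a N ω z p - Yo c ω z| ≤ η * ‖z‖ := by
  by_cases hz : z = 0
  · subst hz
    unfold Qo Hod Yo Ys
    simp
  · set x := (starRingEnd ℂ ω * z).re / ‖z‖ with hx
    have h1 : Qo a N ω z p = ‖z‖ * ∑ i ∈ range N, a i * x ^ (2 * i + 1) := by
      unfold Qo
      rw [mul_sum]
      refine sum_congr rfl fun i _ => ?_
      rw [← odd_expand hz hp hω]
      ring
    have h2 : Yo c ω z = ‖z‖ * go c x := by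
      unfold Yo go
      rw [Ys_eq hz, Ys_neg_eq hz, ← hx]
      ring
    rw [h1, h2, ← mul_sub, abs_mul, abs_of_nonneg (norm_nonneg z), mul_comm]
    exact mul_le_mul_of_nonneg_right (h x (xr_mem hz hω)) (norm_nonneg z)

lemma Qe_near {c η : ℝ} {N : ℕ} {a : ℕ → ℝ}
    (h : ∀ x ∈ Set.Icc (-1 : ℝ) 1, |(∑ i ∈ range N, a i * x ^ (2 * i)) - ge c x| ≤ η) {z p ω : ℂ}
    (hp : z = p * starRingEnd ℂ z) (hp1 : ‖p‖ = 1) (hω : ‖ω‖ = 1) : ‖Qe a N ω z p‖ ≤ Ye c ω z + η * ‖z‖ := by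
  by_cases hz : z = 0
  · subst hz
    unfold Qe Hev Ye Ys
    simp
  · set x := (starRingEnd ℂ ω * z).re / ‖z‖ with hx
    have h1 : Qe a N ω z p = z * ((∑ i ∈ range N, a i * x ^ (2 * i) : ℝ) : ℂ) := by
      unfold Qe
      rw [Complex.ofReal_sum, mul_sum]
      refine sum_congr rfl fun i _ => ?_
      rw [← even_expand hz hp hp1 hω, ← hx, Complex.ofReal_mul]
      ring
    have h2 : Ye c ω z = ‖z‖ * ge c x := by
      unfold Ye ge
      rw [Ys_eq hz, Ys_neg_eq hz, ← hx]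
      ring
    have hge : 0 ≤ ge c x := by unfold ge; positivity
    rw [h1, h2, norm_mul, Complex.norm_real, Real.norm_eq_abs]
    have h3 := h x (xr_mem hz hω)
    have h4 : |∑ i ∈ range N, a i * x ^ (2 * i)| ≤ ge c x + η := by
      have := abs_sub_abs_le_abs_sub (∑ i ∈ range N, a i * x ^ (2 * i)) (ge c x)
      rw [abs_of_nonneg hge] at this
      linarith
    calc ‖z‖ * |∑ i ∈ range N, a i * x ^ (2 * i)| ≤ ‖z‖ * (ge c x + η) := by gcongr
      _ = _ := by ring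

end

end Pool.Agent.Run7.h74.SC
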