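import Pool.Agent.Run7.h74.SC.Glue
import Pool.Agent.TH806.LS.Fin

set_option autoImplicit false

/-!
SC project (helper74): assembly.
-/

namespace Pool.Agent.Run7.h74.SC

open Pool.Agent.TH806.LK Pool.Agent.TH806.LM Pool.Agent.TH806.LS

theorem a_W2d {ρ : ℝ} (hρ : 0 < ρ) (hρ1 : ρ ≤ 1) : P_W2d ρ :=
  t_W2d t_SET2 Pool.Agent.TH126.LK_PT.t_PT a_U13.1 a_U13.2 a_U4 a_LB a_U13s.1 a_U2s a_U13s.2 a_U4s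
    Pool.Agent.TH364.LM_JEN.t_JEN Pool.Agent.TH921.LM_MP.t_MP Pool.Agent.TH148.LM_V.t_V1
    Pool.Agent.TH148.LM_V.t_V3 Pool.Agent.TH148.LM_V.t_V4 Pool.Agent.TH986.LM_DL.t_DL hρ hρ1

theorem a_FINd {ρ : ℝ} (hρ : 0 < ρ) (hρ1 : ρ ≤ 1) : P_FINd ρ :=
  t_FINd (t_PCd (a_W2d hρ hρ1) Pool.Agent.TH883.LM_SHM.t_SHM)

end Pool.Agent.Run7.h74.SC
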