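import Pool.Agent.Run7.h74.SC.Osc
import Pool.Agent.TH111.LS_LOC
import Pool.Agent.TH370.LS_PRD
import Pool.Agent.TH263.LK_AV1
import Pool.Agent.TH364.LK_LAW
import Pool.Agent.TH959.LK_ZM

set_option autoImplicit false

/-!
SC project (helper74): the mean of zeta against the weights is small compared with the mean of its absolute value.
-/

namespace Pool.Agent.Run7.h74.SC

open Finset Filter Topology MeasureTheory
open Pool.Agent.W184.NZ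
open Pool.Agent.TH806 Pool.Agent.TH806.LK Pool.Agent.TH806.LS
open Pool.Agent.TH811.LK_LOC (est intg exp_norm Ap_NC BF_ap)
open Pool.Agent.TH914.LS_OZ (Bz PB_Bz FZ FZ_cont FZ_bd DKz_sq len4_le Bz_cont')
open Pool.Agent.TH986.LK_B (len_le FF FF_cont FF_bd DK_sq BF_cont')
open Pool.Agent.H306R2.SM (om cl Yf)
open Pool.Agent.H262R4.TM (Rng Ck)

noncomputable section

/-- local estimate for a function close to an exponential -/
lemma loc_gen (n : ℕ) (c C : ℝ) : ∃ C' : ℝ, 0 < C' ∧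
    ∀ (w : ℕ × ℕ → ℝ) (κ₁ κ₂ : ℝ) (I : Finset ℕ) (ν : Measure (ℂ × ℂ)), 0 ≤ κ₁ → κ₁ ≤ 1 → 0 ≤ κ₂ → κ₂ ≤ 1 →
      LW w κ₁ κ₂ (8 * n + 8) C I ν → vI I ≤ c → uI I ≤ c → ∀ (R : ℕ) (α β : ℂ) (f : ℂ → ℂ),
        ‖α‖ ≤ n + 1 → ‖β‖ ≤ n + 1 → Continuous f →
        (∀ z, ‖f z - Complex.exp (α * z + β * starRingEnd ℂ z)‖ ≤
          16 * Real.exp (-(R:ℝ)) * Real.exp ((4 * n + 4) * ‖z‖)) →
        ‖(∫ q, q.2 * f q.1 ∂ν) - Complex.exp ((κ₁ * α + κ₂ * β + α * β) * vI I)‖ ≤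
          C' * (uI I + Real.exp (-(R:ℝ))) := by
  set D := |C| * Real.exp (|C| * (2 * c)) with hD
  set E := Real.exp ((2 * (n + 1) + (n + 1) ^ 2) * c) * (|C| * Real.exp (|C| * c)) with hE
  have hD0 : 0 ≤ D := by positivity
  have hE0 : 0 ≤ E := by positivity
  refine ⟨16 * D + E + 1, by positivity, ?_⟩
  intro w κ₁ κ₂ I ν hk1 hk1' hk2 hk2' h hv hu R α β f nα nβ hf hap
  have hv0 : 0 ≤ vI I := Finset.sum_nonneg fun p _ => by positivity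
  have hu0 : 0 ≤ uI I := Finset.sum_nonneg fun p _ => by positivity
  have hC : 0 ≤ C := by
    by_contra hneg
    have e1 := h.dsq
    have e2 : 0 ≤ ∫ q, ‖q.2‖ ^ 2 ∂ν := integral_nonneg fun q => by positivity
    have e3 := Real.exp_pos (C * (vI I + uI I))
    nlinarith
  have hCa : |C| = C := abs_of_nonneg hC
  rw [hCa] at hD hE
  have hDD : C * Real.exp (C * (vI I + uI I)) ≤ D := by
    rw [hD]
    gcongr
    linarith
  have hR0 := Real.exp_pos (-(R:ℝ))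
  have hn0 : (0:ℝ) ≤ n := Nat.cast_nonneg n
  obtain ⟨ε, hε, hexp⟩ := h.exq α β (by linarith) (by linarith)
  set X : ℂ := (κ₁ * α + κ₂ * β + α * β) with hX
  have nX : ‖X‖ ≤ 2 * (n + 1) + (n + 1) ^ 2 := by
    refine (norm_add_le _ _).trans ?_
    have e1 : ‖(κ₁:ℂ) * α + κ₂ * β‖ ≤ 1 * (n + 1) + 1 * (n + 1) := by
      refine (norm_add_le _ _).trans ?_
      rw [norm_mul, norm_mul, Complex.norm_real, Complex.norm_real, Real.norm_of_nonneg hk1,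
        Real.norm_of_nonneg hk2]
      gcongr
    have e2 : ‖α * β‖ ≤ (n + 1) * (n + 1) := by
      rw [norm_mul]; gcongr
    nlinarith
  have A1 : ‖(∫ q, q.2 * f q.1 ∂ν) - Complex.exp (X * vI I + ε)‖ ≤
      16 * D * Real.exp (-(R:ℝ)) := by
    rw [← hexp, ← integral_sub]
    · have e1 := est n h (fun z => f z -
        Complex.exp (α * z + β * starRingEnd ℂ z)) (16 * Real.exp (-(R:ℝ))) (by positivity) hap
      simp only [mul_sub] at e1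
      refine e1.trans ?_
      calc _ ≤ 16 * Real.exp (-(R:ℝ)) * D := by gcongr
        _ = _ := by ring
    · refine intg h _ ?_
      exact continuous_snd.mul (hf.comp continuous_fst)
    · refine intg h _ ?_
      fun_prop
  have A2 : ‖Complex.exp (X * vI I + ε) - Complex.exp (X * vI I)‖ ≤ E * uI I := by
    rw [Complex.exp_add]
    have e1 : Complex.exp (X * vI I) * Complex.exp ε - Complex.exp (X * vI I) =
      Complex.exp (X * vI I) * (Complex.exp ε - 1) := by ring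
    rw [e1, norm_mul]
    have e2 : ‖Complex.exp (X * vI I)‖ ≤ Real.exp ((2 * (n + 1) + (n + 1) ^ 2) * c) := by
      refine (exp_norm _ _).trans (Real.exp_le_exp.mpr ?_)
      rw [Complex.norm_real, Real.norm_of_nonneg hv0]
      gcongr
    have e3 : ‖Complex.exp ε - 1‖ ≤ ‖ε‖ * Real.exp ‖ε‖ := by
      have := Complex.norm_exp_sub_sum_le_norm_mul_exp ε 1
      simpa using this
    have e4 : ‖ε‖ * Real.exp ‖ε‖ ≤ (C * uI I) * Real.exp (C * c) := by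
      gcongr
      exact hε.trans (by gcongr)
    calc _ ≤ Real.exp ((2 * (n + 1) + (n + 1) ^ 2) * c) * ((C * uI I) * Real.exp (C * c)) := by
          gcongr
          exact e3.trans e4
      _ = _ := by rw [hE]; ring
  have e5 : (∫ q, q.2 * f q.1 ∂ν) - Complex.exp (X * vI I) =
      ((∫ q, q.2 * f q.1 ∂ν) - Complex.exp (X * vI I + ε)) +
      (Complex.exp (X * vI I + ε) - Complex.exp (X * vI I)) := by ring
  rw [e5]
  refine (norm_add_le _ _).trans ((add_le_add A1 A2).trans ?_)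
  nlinarith [mul_nonneg hD0 hu0, mul_nonneg hE0 hR0.le, mul_nonneg hD0 hR0.le, mul_nonneg hE0 hu0]

/-- products of local means -/
lemma prd_gen (n : ℕ) (c C : ℝ) : ∃ C₃ : ℝ, 0 < C₃ ∧
    ∀ (J Rs : ℕ) (I : ℕ → Finset ℕ) (b : ℕ → ℝ) (ν : ℕ → Measure (ℂ × ℂ)), Rg c J I b →
      (∀ i < J, LW wF 0 1 (8 * n + 8) C (I i) (ν i)) → ∀ (α β : ℂ) (f : ℕ → ℂ → ℂ),
        ‖α‖ ≤ n + 1 → ‖β‖ ≤ n + 1 → (∀ i, Continuous (f i)) →
        (∀ i, ∀ z, ‖f i z - Complex.exp (α * z + β * starRingEnd ℂ z)‖ ≤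
          16 * Real.exp (-(RR Rs i:ℝ)) * Real.exp ((4 * n + 4) * ‖z‖)) →
        ∏ i ∈ range J, ‖∫ q, q.2 * f i q.1 ∂(ν i)‖ ≤ C₃ * Real.exp ((β + α * β).re * VV I J) := by
  obtain ⟨C', hC', H⟩ := loc_gen n c C
  set M : ℝ := (n + 1) + (n + 1) ^ 2 with hM
  have hM0 : 0 ≤ M := by positivity
  set D := C' * Real.exp (M * c) with hD
  have hD0 : 0 < D := by positivity
  refine ⟨Real.exp (D * (c + 2)), by positivity, ?_⟩
  intro J Rs I b ν hRg hLW α β f nα nβ hf hap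
  have hv : ∀ i < J, vI (I i) ≤ c := fun i hi => hRg.v i hi
  have hu : ∀ i < J, uI (I i) ≤ c := fun i hi => hRg.u hi
  set s : ℝ := (β + α * β).re with hs
  have hsM : |s| ≤ M := by
    refine (Complex.abs_re_le_norm _).trans ((norm_add_le _ _).trans ?_)
    rw [norm_mul, hM, sq]
    gcongr
  have hL1 : ∀ i < J, ‖∫ q, q.2 * f i q.1 ∂(ν i)‖ ≤
      Real.exp (s * vI (I i) + D * (uI (I i) + Real.exp (-(RR Rs i : ℝ)))) := by
    intro i hi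
    have h3 := H wF 0 1 (I i) (ν i) le_rfl zero_le_one zero_le_one le_rfl (hLW i hi) (hv i hi) (hu i hi) (RR Rs i)
      α β (f i) nα nβ (hf i) (hap i)
    have v0 := vI_nonneg (I i)
    have u0 := uI_nonneg (I i)
    have e0 : (((0:ℝ):ℂ) * α + ((1:ℝ):ℂ) * β + α * β) = β + α * β := by push_cast; ring
    rw [e0] at h3
    have h4 : ‖∫ q, q.2 * f i q.1 ∂(ν i)‖ ≤ Real.exp (s * vI (I i)) + C' * (uI (I i) + Real.exp (-(RR Rs i : ℝ))) := by
      have h5 : ‖Complex.exp ((β + α * β) * vI (I i))‖ = Real.exp (s * vI (I i)) := by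
        rw [Complex.norm_exp]
        congr 1
        rw [Complex.re_mul_ofReal]
      calc ‖∫ q, q.2 * f i q.1 ∂(ν i)‖ = ‖((∫ q, q.2 * f i q.1 ∂(ν i)) -
            Complex.exp ((β + α * β) * vI (I i))) + Complex.exp ((β + α * β) * vI (I i))‖ := by
              rw [sub_add_cancel]
        _ ≤ C' * (uI (I i) + Real.exp (-(RR Rs i : ℝ))) + Real.exp (s * vI (I i)) := by
            refine (norm_add_le _ _).trans (add_le_add h3 h5.le)
        _ = _ := by ring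
    have h6 : 1 ≤ Real.exp (M * c) * Real.exp (s * vI (I i)) := by
      rw [← Real.exp_add]
      refine Real.one_le_exp ?_
      have h7 : |s * vI (I i)| ≤ M * c := by
        rw [abs_mul, abs_of_nonneg v0]
        exact mul_le_mul hsM (hv i hi) v0 hM0
      have := neg_abs_le (s * vI (I i))
      linarith
    set t := uI (I i) + Real.exp (-(RR Rs i : ℝ)) with ht
    have ht0 : 0 ≤ t := by positivity
    calc ‖∫ q, q.2 * f i q.1 ∂(ν i)‖ ≤ Real.exp (s * vI (I i)) + C' * t := h4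
      _ ≤ Real.exp (s * vI (I i)) + C' * t * (Real.exp (M * c) * Real.exp (s * vI (I i))) := by
          have : C' * t * 1 ≤ C' * t * (Real.exp (M * c) * Real.exp (s * vI (I i))) :=
            mul_le_mul_of_nonneg_left h6 (by positivity)
          linarith
      _ = Real.exp (s * vI (I i)) * (D * t + 1) := by rw [hD]; ring
      _ ≤ Real.exp (s * vI (I i)) * Real.exp (D * t) :=
          mul_le_mul_of_nonneg_left (Real.add_one_le_exp _) (Real.exp_pos _).le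
      _ = _ := by rw [← Real.exp_add]
  have hsum : ∑ i ∈ range J, (uI (I i) + Real.exp (-(RR Rs i : ℝ))) ≤ c + 2 := by
    rw [sum_add_distrib]
    have h1 := sum_exp_le J Rs (RR_ge Rs)
    have h8 : Real.exp (-(Rs:ℝ)) ≤ 1 := Real.exp_le_one_iff.mpr (by simp)
    have := hRg.U
    linarith
  refine (prod_le_prod (fun i _ => norm_nonneg _) (fun i hi => hL1 i (mem_range.mp hi))).trans ?_
  rw [← Real.exp_sum, sum_add_distrib, ← mul_sum, ← mul_sum, ← Real.exp_add]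
  refine Real.exp_le_exp.mpr ?_
  have h9 := mul_le_mul_of_nonneg_left hsum hD0.le
  unfold VV
  linarith

/-- the local factor of the real weight and the exponential -/
lemma Bz_ap (n R : ℕ) (hn : 1 ≤ n) (hR : 1 ≤ R) (a b θ₁ θ₂ : ℝ) (ha : |a| ≤ n) (hb : |b| ≤ n)
    (h1 : |θ₁| ≤ 1) (h2 : |θ₂| ≤ 1) (z : ℂ) :
    ‖Bz (20 * n * R) a b θ₁ θ₂ z - Complex.exp ((((a + b) / 2 : ℝ) + ((θ₁ + θ₂ : ℝ) : ℂ) / 2 * Complex.I) * z +
      (((a + b) / 2 : ℝ) + ((θ₁ + θ₂ : ℝ) : ℂ) / 2 * Complex.I) * starRingEnd ℂ z)‖ ≤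
      16 * Real.exp (-(R:ℝ)) * Real.exp ((2 * n + 3) * ‖z‖) := by
  have hnR : (1:ℝ) ≤ n := by exact_mod_cast hn
  have nt1 : ‖(θ₁:ℂ) / 2 * Complex.I‖ = |θ₁| / 2 := by simp
  have nt2 : ‖(θ₂:ℂ) / 2 * Complex.I‖ = |θ₂| / 2 := by simp
  have na : ‖(a:ℂ) / 2‖ = |a| / 2 := by
    rw [norm_div, Complex.norm_real, Real.norm_eq_abs]
    norm_num
  have nb : ‖(b:ℂ) / 2‖ = |b| / 2 := by
    rw [norm_div, Complex.norm_real, Real.norm_eq_abs]
    norm_num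
  have a0 := abs_nonneg a
  have b0 := abs_nonneg b
  have A1 := Ap_NC n R hn hR ((a:ℂ) / 2) z (by rw [na]; linarith)
  have A1' := Ap_NC n R hn hR ((a:ℂ) / 2) (starRingEnd ℂ z) (by rw [na]; linarith)
  have A2 := Ap_NC n R hn hR ((b:ℂ) / 2) z (by rw [nb]; linarith)
  have A2' := Ap_NC n R hn hR ((b:ℂ) / 2) (starRingEnd ℂ z) (by rw [nb]; linarith)
  have A3 := Ap_NC n R hn hR ((θ₁:ℂ) / 2 * Complex.I) z (by rw [nt1]; linarith)
  have A4 := Ap_NC n R hn hR ((θ₁:ℂ) / 2 * Complex.I) (starRingEnd ℂ z) (by rw [nt1]; linarith)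
  have A5 := Ap_NC n R hn hR ((θ₂:ℂ) / 2 * Complex.I) z (by rw [nt2]; linarith)
  have A6 := Ap_NC n R hn hR ((θ₂:ℂ) / 2 * Complex.I) (starRingEnd ℂ z) (by rw [nt2]; linarith)
  have A := ((A1.mul A1').mul (A2.mul A2')).mul ((A3.mul A4).mul (A5.mul A6))
  rw [RCLike.norm_conj] at A
  rw [nt1, nt2, na, nb] at A
  have e1 : Complex.exp ((a:ℂ) / 2 * z) * Complex.exp ((a:ℂ) / 2 * starRingEnd ℂ z) *
      (Complex.exp ((b:ℂ) / 2 * z) * Complex.exp ((b:ℂ) / 2 * starRingEnd ℂ z)) *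
      (Complex.exp ((θ₁:ℂ) / 2 * Complex.I * z) * Complex.exp ((θ₁:ℂ) / 2 * Complex.I * starRingEnd ℂ z) *
      (Complex.exp ((θ₂:ℂ) / 2 * Complex.I * z) * Complex.exp ((θ₂:ℂ) / 2 * Complex.I * starRingEnd ℂ z))) =
      Complex.exp ((((a + b) / 2 : ℝ) + ((θ₁ + θ₂ : ℝ) : ℂ) / 2 * Complex.I) * z +
      (((a + b) / 2 : ℝ) + ((θ₁ + θ₂ : ℝ) : ℂ) / 2 * Complex.I) * starRingEnd ℂ z) := by
    simp only [← Complex.exp_add]
    congr 1
    push_cast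
    ring
  rw [e1] at A
  have e2 : Bz (20 * n * R) a b θ₁ θ₂ z = NC (20 * n * R) ((a:ℂ) / 2) z *
      NC (20 * n * R) ((a:ℂ) / 2) (starRingEnd ℂ z) *
      (NC (20 * n * R) ((b:ℂ) / 2) z * NC (20 * n * R) ((b:ℂ) / 2) (starRingEnd ℂ z)) *
      (NC (20 * n * R) ((θ₁:ℂ) / 2 * Complex.I) z * NC (20 * n * R) ((θ₁:ℂ) / 2 * Complex.I) (starRingEnd ℂ z) *
      (NC (20 * n * R) ((θ₂:ℂ) / 2 * Complex.I) z *
        NC (20 * n * R) ((θ₂:ℂ) / 2 * Complex.I) (starRingEnd ℂ z))) := rfl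
  rw [← e2] at A
  have e3 : Real.exp (|a| / 2 * ‖z‖) * Real.exp (|a| / 2 * ‖z‖) *
      (Real.exp (|b| / 2 * ‖z‖) * Real.exp (|b| / 2 * ‖z‖)) *
      (Real.exp (|θ₁| / 2 * ‖z‖) * Real.exp (|θ₁| / 2 * ‖z‖) *
      (Real.exp (|θ₂| / 2 * ‖z‖) * Real.exp (|θ₂| / 2 * ‖z‖))) ≤ Real.exp ((2 * n + 2) * ‖z‖) := by
    simp only [← Real.exp_add]
    apply Real.exp_le_exp.mpr
    have : |a| / 2 * ‖z‖ + |a| / 2 * ‖z‖ + (|b| / 2 * ‖z‖ + |b| / 2 * ‖z‖) +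
      (|θ₁| / 2 * ‖z‖ + |θ₁| / 2 * ‖z‖ + (|θ₂| / 2 * ‖z‖ + |θ₂| / 2 * ‖z‖)) =
      (|a| + |b| + |θ₁| + |θ₂|) * ‖z‖ := by ring
    rw [this]
    refine mul_le_mul_of_nonneg_right ?_ (norm_nonneg _)
    linarith
  obtain ⟨-, -, B3⟩ := A
  refine B3.trans ?_
  calc _ ≤ (2 * (Real.exp (-(R:ℝ)) * Real.exp ‖z‖) + 2 * (Real.exp (-(R:ℝ)) * Real.exp ‖z‖) +
        (2 * (Real.exp (-(R:ℝ)) * Real.exp ‖z‖) + 2 * (Real.exp (-(R:ℝ)) * Real.exp ‖z‖)) +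
        (2 * (Real.exp (-(R:ℝ)) * Real.exp ‖z‖) + 2 * (Real.exp (-(R:ℝ)) * Real.exp ‖z‖) +
        (2 * (Real.exp (-(R:ℝ)) * Real.exp ‖z‖) + 2 * (Real.exp (-(R:ℝ)) * Real.exp ‖z‖)))) *
        Real.exp ((2 * n + 2) * ‖z‖) := by gcongr
    _ = 16 * Real.exp (-(R:ℝ)) * (Real.exp ‖z‖ * Real.exp ((2 * n + 2) * ‖z‖)) := by ring
    _ = _ := by rw [← Real.exp_add]; ring_nf

lemma re_exp1 (k ϑ : ℝ) : ((((k - 1 : ℝ) : ℂ) + (ϑ : ℂ) / 2 * Complex.I) +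
    ((k : ℂ) + (ϑ : ℂ) / 2 * Complex.I) * (((k - 1 : ℝ) : ℂ) + (ϑ : ℂ) / 2 * Complex.I)).re ≤ k ^ 2 - 1 := by
  have : (((k - 1 : ℝ) : ℂ) + (ϑ : ℂ) / 2 * Complex.I) +
    ((k : ℂ) + (ϑ : ℂ) / 2 * Complex.I) * (((k - 1 : ℝ) : ℂ) + (ϑ : ℂ) / 2 * Complex.I) =
    ((k ^ 2 - 1 - ϑ ^ 2 / 4 : ℝ) : ℂ) + ((k * ϑ : ℝ) : ℂ) * Complex.I := by
    push_cast
    have hI := Complex.I_sq
    linear_combination (ϑ ^ 2 / 4 : ℂ) * hI
  rw [this, Complex.add_re, Complex.ofReal_re, Complex.mul_I_re, Complex.ofReal_im, neg_zero, add_zero]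
  nlinarith [sq_nonneg ϑ]

lemma re_exp2 (k ϑ : ℝ) : ((((k + (k - 1)) / 2 : ℝ) + (ϑ : ℂ) / 2 * Complex.I) +
    (((k + (k - 1)) / 2 : ℝ) + (ϑ : ℂ) / 2 * Complex.I) *
      (((k + (k - 1)) / 2 : ℝ) + (ϑ : ℂ) / 2 * Complex.I)).re ≤ k ^ 2 - 1 / 4 := by
  have : (((k + (k - 1)) / 2 : ℝ) + (ϑ : ℂ) / 2 * Complex.I) +
    (((k + (k - 1)) / 2 : ℝ) + (ϑ : ℂ) / 2 * Complex.I) *
      (((k + (k - 1)) / 2 : ℝ) + (ϑ : ℂ) / 2 * Complex.I) =
    ((k ^ 2 - 1 / 4 - ϑ ^ 2 / 4 : ℝ) : ℂ) + ((k * ϑ : ℝ) : ℂ) * Complex.I := by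
    push_cast
    have hI := Complex.I_sq
    linear_combination (ϑ ^ 2 / 4 : ℂ) * hI
  rw [this, Complex.add_re, Complex.ofReal_re, Complex.mul_I_re, Complex.ofReal_im, neg_zero, add_zero]
  nlinarith [sq_nonneg ϑ]

theorem a_AV1' : P_AV1 :=
  Pool.Agent.TH263.LK_AV1.t_AV1 Pool.Agent.TH959.LK_ZM.t_ZM Pool.Agent.TH328.LK_ALG.t_WF

theorem a_LAW' : P_LAW := Pool.Agent.TH364.LK_LAW.t_LAW Pool.Agent.TH328.LK_ALG.t_WF

lemma Zj_zero (t : ℝ) : Zj 0 t = riemannZeta (cl t) := by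
  unfold Zj
  rw [pow_zero, mul_one]

/-- the mean of zeta against the weights -/
theorem t_H0 (n : ℕ) (c : ℝ) (hn : 1 ≤ n) : ∃ (P₀ : ℕ) (C : ℝ), 0 < C ∧
    ∀ Rs : ℕ, 1 ≤ Rs → ∀ᶠ T : ℝ in atTop, ∀ κ : ℕ, Rng T κ → ∀ (y : ℝ) (J : ℕ) (I : ℕ → Finset ℕ),
      Cfg c 1 P₀ y J I → n * ((Rs:ℝ) + 1) * Real.log y ≤ 1 / 96000 * Real.log T → ∀ k u : ℝ, |k| + 1 ≤ n →
        ‖∫ t in Set.Ioi (0:ℝ), ((om κ (κ / T) t : ℝ) : ℂ) * (Zj 0 t * ((WQ n Rs J I k (k - 1) u t : ℝ) : ℂ))‖ ≤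
          C * Real.exp ((k ^ 2 - 1 / 4) * VV I J) + 4 * T ^ (-(1 / 2) : ℝ) ∧
        ‖∫ t in Set.Ioi (0:ℝ), ((om κ (κ / T) t : ℝ) : ℂ) * (Zj 0 t * WD n Rs J I k (k - 1) u t)‖ ≤
          C * Real.exp ((k ^ 2 - 1) * VV I J) + 4 * T ^ (-(1 / 2) : ℝ) := by
  have hn0 : (1:ℝ) ≤ n := by exact_mod_cast hn
  obtain ⟨P₀, C, hP144, hC1, hLaw⟩ := a_LAW' (8 * n + 8) (by linarith)
  obtain ⟨C₃, hC3, hprd⟩ := prd_gen n c C
  refine ⟨P₀, 4 * C₃, by positivity, fun Rs hRs => ?_⟩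
  filter_upwards [a_AV1', eventually_gt_atTop (3:ℝ)] with T hT hT3 κ hκ y J I hCfg hlen k u hk
  have hI : ∀ i, ∀ p ∈ I i, p.Prime := fun i p hp => (hCfg.rg.pr i p hp).1
  have hIP : ∀ i, ∀ p ∈ I i, p.Prime ∧ P₀ ≤ p := fun i p hp => ⟨hI i p hp, hCfg.P i p hp⟩
  choose ν hν using fun i => (hLaw (I i) (hIP i)).2.2
  have hT0 : 0 < T := by linarith
  have hT1 : 1 < T := by linarith
  have hlogT : 0 < Real.log T := Real.log_pos hT1
  have hk0 : (0:ℝ) < κ := lt_of_lt_of_le (by positivity) hκ.1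
  have hδ : 0 < (κ:ℝ) / T := by positivity
  have hWc := z_int (Zj_cont 0) (Zj_norm 0) κ hδ
  have hV0 : 0 ≤ VV I J := sum_nonneg fun i _ => vI_nonneg _
  have hkn : |k| ≤ n := by linarith
  have hkn1 : |k - 1| ≤ n := by
    have := abs_sub k 1
    rw [abs_one] at this
    linarith
  have hRR : ∀ i, 1 ≤ RR Rs i := fun i => by unfold RR; omega
  have hKn : ∀ i, n + 1 ≤ KK n Rs i := by
    intro i
    unfold KK RR
    nlinarith [Nat.zero_le i, Nat.zero_le (n * i), Nat.mul_le_mul hn hRs]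
  have nth : ∀ θ₁ θ₂ : ℝ, |θ₁| ≤ 1 → |θ₂| ≤ 1 → ‖((θ₁ + θ₂ : ℝ) : ℂ) / 2 * Complex.I‖ ≤ 1 := by
    intro θ₁ θ₂ h1 h2
    rw [norm_mul, norm_div, Complex.norm_real, Complex.norm_I, Real.norm_eq_abs]
    have := abs_add_le θ₁ θ₂
    simp only [Complex.norm_ofNat]
    linarith
  have nab : ∀ a θ₁ θ₂ : ℝ, |a| ≤ n → |θ₁| ≤ 1 → |θ₂| ≤ 1 →
      ‖(a : ℂ) + ((θ₁ + θ₂ : ℝ) : ℂ) / 2 * Complex.I‖ ≤ n + 1 := by
    intro a θ₁ θ₂ ha h1 h2
    refine (norm_add_le _ _).trans (add_le_add ?_ (nth θ₁ θ₂ h1 h2))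
    rw [Complex.norm_real, Real.norm_eq_abs]; exact ha
  constructor
  · have hlen2 : ∑ i ∈ range J, ((4 * KK n Rs i : ℕ) : ℝ) * Real.log (bb y i) ≤ 1 / 100 * Real.log T := by
      refine (len4_le (by linarith [hCfg.y1]) n Rs J).trans ?_
      linarith
    obtain ⟨B, hB⟩ := FZ_bd n Rs J hI k (k - 1) u
    have h := four_bd (W := fun t => ((om κ (κ / T) t : ℝ) : ℂ) * Zj 0 t) hWc
      (G := fun t θ₁ θ₂ => ∏ i ∈ range J, Bz (KK n Rs i) k (k - 1) θ₁ θ₂ (zz I t i)) (u := u) (B := B)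
      (M := C₃ * Real.exp ((k ^ 2 - 1 / 4) * VV I J) + T ^ (-(1 / 2) : ℝ)) (FZ_cont n Rs J hI k (k - 1) u) hB
      (fun θ₁ θ₂ h1 h2 => by
        have h3 := hT κ hκ c (8 * n + 8) C J I (bb y) (fun i => 4 * KK n Rs i)
          (fun i => Bz (KK n Rs i) k (k - 1) θ₁ θ₂) ν hCfg.rg (fun i _ => hν i) (fun i _ => by
            have := hKn i
            exact ⟨by omega, PB_Bz (hKn i) hkn hkn1 h1 h2⟩) hlen2
        have h4 := hprd J Rs I (bb y) ν hCfg.rg (fun i _ => hν i)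
          (((k + (k - 1)) / 2 : ℝ) + ((θ₁ + θ₂ : ℝ) : ℂ) / 2 * Complex.I)
          (((k + (k - 1)) / 2 : ℝ) + ((θ₁ + θ₂ : ℝ) : ℂ) / 2 * Complex.I)
          (fun i => Bz (KK n Rs i) k (k - 1) θ₁ θ₂) (nab _ _ _ (by
            rw [abs_div, abs_of_pos (by norm_num : (0:ℝ) < 2)]
            have := abs_add_le k (k - 1)
            linarith) h1 h2) (nab _ _ _ (by
            rw [abs_div, abs_of_pos (by norm_num : (0:ℝ) < 2)]
            have := abs_add_le k (k - 1)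
            linarith) h1 h2)
          (fun i => Bz_cont' (KK n Rs i) k (k - 1) continuous_const continuous_const continuous_id) (fun i z => by
            refine (Bz_ap n (RR Rs i) hn (hRR i) k (k - 1) θ₁ θ₂ hkn hkn1 h1 h2 z).trans ?_
            gcongr
            · linarith
            · norm_num)
        have h5 := re_exp2 k (θ₁ + θ₂)
        have h6 : ‖∏ i ∈ range J, ∫ q, q.2 * Bz (KK n Rs i) k (k - 1) θ₁ θ₂ q.1 ∂(ν i)‖ ≤
            C₃ * Real.exp ((k ^ 2 - 1 / 4) * VV I J) := by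
          rw [norm_prod]
          refine h4.trans ?_
          gcongr
        have e1 : (∫ t in Set.Ioi (0:ℝ), ((om κ (κ / T) t : ℝ) : ℂ) * Zj 0 t *
            ∏ i ∈ range J, Bz (KK n Rs i) k (k - 1) θ₁ θ₂ (zz I t i)) =
            ∫ t in Set.Ioi (0:ℝ), ((om κ (κ / T) t : ℝ) : ℂ) *
            (riemannZeta (cl t) * ∏ i ∈ range J, Bz (KK n Rs i) k (k - 1) θ₁ θ₂ (zz I t i)) := by
          congr 1
          funext t
          rw [Zj_zero]; ring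
        rw [e1]
        calc _ = ‖((∫ t in Set.Ioi (0:ℝ), ((om κ (κ / T) t : ℝ) : ℂ) *
            (riemannZeta (cl t) * ∏ i ∈ range J, Bz (KK n Rs i) k (k - 1) θ₁ θ₂ (zz I t i))) -
            ∏ i ∈ range J, ∫ q, q.2 * Bz (KK n Rs i) k (k - 1) θ₁ θ₂ q.1 ∂(ν i)) +
            ∏ i ∈ range J, ∫ q, q.2 * Bz (KK n Rs i) k (k - 1) θ₁ θ₂ q.1 ∂(ν i)‖ := by rw [sub_add_cancel]
          _ ≤ T ^ (-(1 / 2) : ℝ) + C₃ * Real.exp ((k ^ 2 - 1 / 4) * VV I J) :=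
              (norm_add_le _ _).trans (add_le_add h3 h6)
          _ = _ := by ring) (A := fun t => ((WQ n Rs J I k (k - 1) u t : ℝ) : ℂ)) (fun t => by
        unfold WQ
        exact DKz_sq n Rs J k (k - 1) u (zz I t))
    have e2 : (∫ t in Set.Ioi (0:ℝ), ((om κ (κ / T) t : ℝ) : ℂ) * (Zj 0 t * ((WQ n Rs J I k (k - 1) u t : ℝ) : ℂ))) =
        ∫ t in Set.Ioi (0:ℝ), ((om κ (κ / T) t : ℝ) : ℂ) * Zj 0 t * ((WQ n Rs J I k (k - 1) u t : ℝ) : ℂ) := by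
      congr 1
      funext t
      ring
    rw [e2]
    refine h.trans (le_of_eq ?_)
    ring
  · have hlen3 : ∑ i ∈ range J, ((3 * KK n Rs i : ℕ) : ℝ) * Real.log (bb y i) ≤ 1 / 100 * Real.log T := by
      refine (len_le (by linarith [hCfg.y1]) n Rs J).trans ?_
      linarith
    obtain ⟨B, hB⟩ := FF_bd n Rs J hI k (k - 1) u
    have h := four_bd (W := fun t => ((om κ (κ / T) t : ℝ) : ℂ) * Zj 0 t) hWc
      (G := fun t θ₁ θ₂ => ∏ i ∈ range J, BF (KK n Rs i) k (k - 1) θ₁ θ₂ (zz I t i)) (u := u) (B := B)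
      (M := C₃ * Real.exp ((k ^ 2 - 1) * VV I J) + T ^ (-(1 / 2) : ℝ)) (FF_cont n Rs J hI k (k - 1) u) hB
      (fun θ₁ θ₂ h1 h2 => by
        have h3 := hT κ hκ c (8 * n + 8) C J I (bb y) (fun i => 3 * KK n Rs i)
          (fun i => BF (KK n Rs i) k (k - 1) θ₁ θ₂) ν hCfg.rg (fun i _ => hν i) (fun i _ => by
            have h0 := hKn i
            obtain ⟨q1, _, _, _, _, _⟩ := Pool.Agent.TH328.LK_ALG.t_ALG.2.2.2 n (KK n Rs i) 1 k (k - 1) θ₁ θ₂ hn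
              (hKn i) le_rfl hkn hkn1 h1 h2
            refine ⟨by omega, Pool.Agent.TH328.LK_ALG.t_ALG.1 _ _ _ (by positivity) ?_ q1⟩
            have : ((n + 1 : ℕ) : ℝ) ≤ KK n Rs i := by exact_mod_cast hKn i
            push_cast at this ⊢
            linarith) hlen3
        have h4 := hprd J Rs I (bb y) ν hCfg.rg (fun i _ => hν i)
          ((k : ℂ) + ((θ₁ + θ₂ : ℝ) : ℂ) / 2 * Complex.I)
          (((k - 1 : ℝ) : ℂ) + ((θ₁ + θ₂ : ℝ) : ℂ) / 2 * Complex.I)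
          (fun i => BF (KK n Rs i) k (k - 1) θ₁ θ₂) (nab _ _ _ hkn h1 h2) (nab _ _ _ hkn1 h1 h2)
          (fun i => BF_cont' (KK n Rs i) k (k - 1) continuous_const continuous_const continuous_id) (fun i z => by
            refine ((BF_ap n (RR Rs i) hn (hRR i) k (k - 1) θ₁ θ₂ hkn hkn1 h1 h2 z).2).trans ?_
            gcongr
            · norm_num
            · linarith
            · norm_num)
        have h5 := re_exp1 k (θ₁ + θ₂)
        have h6 : ‖∏ i ∈ range J, ∫ q, q.2 * BF (KK n Rs i) k (k - 1) θ₁ θ₂ q.1 ∂(ν i)‖ ≤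
            C₃ * Real.exp ((k ^ 2 - 1) * VV I J) := by
          rw [norm_prod]
          refine h4.trans ?_
          gcongr
        have e1 : (∫ t in Set.Ioi (0:ℝ), ((om κ (κ / T) t : ℝ) : ℂ) * Zj 0 t *
            ∏ i ∈ range J, BF (KK n Rs i) k (k - 1) θ₁ θ₂ (zz I t i)) =
            ∫ t in Set.Ioi (0:ℝ), ((om κ (κ / T) t : ℝ) : ℂ) *
            (riemannZeta (cl t) * ∏ i ∈ range J, BF (KK n Rs i) k (k - 1) θ₁ θ₂ (zz I t i)) := by
          congr 1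
          funext t
          rw [Zj_zero]; ring
        rw [e1]
        calc _ = ‖((∫ t in Set.Ioi (0:ℝ), ((om κ (κ / T) t : ℝ) : ℂ) *
            (riemannZeta (cl t) * ∏ i ∈ range J, BF (KK n Rs i) k (k - 1) θ₁ θ₂ (zz I t i))) -
            ∏ i ∈ range J, ∫ q, q.2 * BF (KK n Rs i) k (k - 1) θ₁ θ₂ q.1 ∂(ν i)) +
            ∏ i ∈ range J, ∫ q, q.2 * BF (KK n Rs i) k (k - 1) θ₁ θ₂ q.1 ∂(ν i)‖ := by rw [sub_add_cancel]
          _ ≤ T ^ (-(1 / 2) : ℝ) + C₃ * Real.exp ((k ^ 2 - 1) * VV I J) :=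
              (norm_add_le _ _).trans (add_le_add h3 h6)
          _ = _ := by ring) (A := fun t => WD n Rs J I k (k - 1) u t) (fun t => by
        unfold WD
        exact DK_sq n Rs J k (k - 1) u (zz I t))
    have e2 : (∫ t in Set.Ioi (0:ℝ), ((om κ (κ / T) t : ℝ) : ℂ) * (Zj 0 t * WD n Rs J I k (k - 1) u t)) =
        ∫ t in Set.Ioi (0:ℝ), ((om κ (κ / T) t : ℝ) : ℂ) * Zj 0 t * WD n Rs J I k (k - 1) u t := by
      congr 1
      funext t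
      ring
    rw [e2]
    refine h.trans (le_of_eq ?_)
    ring

end

end Pool.Agent.Run7.h74.SC
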