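import Pool.Agent.Run7.h74.SC.First
import Pool.Agent.TH806.LS.WL

set_option autoImplicit false

/-!
SC project (helper74): all the harmonics are negligible compared with the main order.
-/

namespace Pool.Agent.Run7.h74.SC

open Finset Filter Topology MeasureTheory
open Pool.Agent.W184.NZ
open Pool.Agent.TH806 Pool.Agent.TH806.LK Pool.Agent.TH806.LS
open Pool.Agent.H306R2.SM (om cl Yf)
open Pool.Agent.H262R4.TM (Rng Ck)

noncomputable section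

lemma ev_half : ∀ᶠ T : ℝ in atTop, 4 * T ^ (-(1 / 2) : ℝ) ≤ T ^ (-(1 / 16) : ℝ) := by
  filter_upwards [(tendsto_rpow_atTop (by norm_num : (0:ℝ) < 7 / 16)).eventually_ge_atTop 4,
    eventually_gt_atTop (0:ℝ)] with T hT hT0
  have e : T ^ (-(1 / 16) : ℝ) = T ^ (7 / 16 : ℝ) * T ^ (-(1 / 2) : ℝ) := by
    rw [← Real.rpow_add hT0]; norm_num
  rw [e]
  gcongr

lemma exp_small {C ε : ℝ} (hC : 0 < C) (hε : 0 < ε) : ∃ V₀ : ℝ, 0 ≤ V₀ ∧ ∀ V : ℝ, V₀ ≤ V → ∀ k : ℝ,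
    C * Real.exp ((k ^ 2 - 1 / 4) * V) ≤ ε * WW (k ^ 2) V := by
  refine ⟨128 * C / ε, by positivity, fun V hV k => ?_⟩
  have hV0 : 0 ≤ V := le_trans (by positivity) hV
  have hV1 : (0:ℝ) < 1 + V := by linarith
  unfold WW
  have h1 : Real.exp ((k ^ 2 - 1 / 4) * V) = Real.exp (-(V / 4)) * Real.exp (k ^ 2 * V) := by
    rw [← Real.exp_add]; congr 1; ring
  rw [h1]
  have h2 : C * Real.exp (-(V / 4)) ≤ ε * (1 + V) ^ (-(1 / 2) : ℝ) := by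
    have h3 : (1 + V)⁻¹ ≤ (1 + V) ^ (-(1 / 2) : ℝ) := by
      rw [← Real.rpow_neg_one]
      exact Real.rpow_le_rpow_of_exponent_le (by linarith) (by norm_num)
    have h4 : C * Real.exp (-(V / 4)) ≤ ε * (1 + V)⁻¹ := by
      rw [Real.exp_neg, ← div_eq_mul_inv, ← div_eq_mul_inv, div_le_div_iff₀ (Real.exp_pos _) hV1]
      have hq := mul_le_mul_of_nonneg_left (Real.quadratic_le_exp_of_nonneg (show 0 ≤ V / 4 by positivity)) hε.le
      rw [div_le_iff₀ hε] at hV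
      have h7 := mul_le_mul_of_nonneg_right hV hV0
      have e1 : ε * (1 + V / 4 + (V / 4) ^ 2 / 2) = ε + V * ε / 4 + V * ε * V / 32 := by ring
      rw [e1] at hq
      have h8 : 0 ≤ C * V := by positivity
      linarith
    exact h4.trans (mul_le_mul_of_nonneg_left h3 hε.le)
  calc C * (Real.exp (-(V / 4)) * Real.exp (k ^ 2 * V)) = (C * Real.exp (-(V / 4))) * Real.exp (k ^ 2 * V) := by ring
    _ ≤ (ε * (1 + V) ^ (-(1 / 2) : ℝ)) * Real.exp (k ^ 2 * V) := by gcongr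
    _ = _ := by ring

/-- all the harmonics -/
theorem t_HARM (n : ℕ) (c : ℝ) (hn : 1 ≤ n) : ∃ P₀ : ℕ, ∀ Rs : ℕ, 1 ≤ Rs → ∀ (N : ℕ) (ε : ℝ), 0 < ε →
    ∃ V₀ : ℝ, ∀ᶠ T : ℝ in atTop, ∀ κ : ℕ, Rng T κ → ∀ (y : ℝ) (J : ℕ) (I : ℕ → Finset ℕ),
      Cfg c 1 P₀ y J I → n * ((Rs:ℝ) + 1) * Real.log y ≤ 1 / 96000 * Real.log T → V₀ ≤ VV I J →
      ∀ k u : ℝ, |k| + 1 ≤ n →
        (∀ j < N, ‖∫ t in Set.Ioi (0:ℝ), ((om κ (κ / T) t : ℝ) : ℂ) *
          (Zj j t * ((WQ n Rs J I k (k - 1) u t : ℝ) : ℂ))‖ ≤ ε * WW (k ^ 2) (VV I J)) ∧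
        (∀ j < N, ‖∫ t in Set.Ioi (0:ℝ), ((om κ (κ / T) t : ℝ) : ℂ) *
          (Zj j t * WD n Rs J I k (k - 1) u t)‖ ≤ ε * WW (k ^ 2) (VV I J)) ∧
        (∀ j < N, 1 ≤ j → ‖∫ t in Set.Ioi (0:ℝ), ((om κ (κ / T) t : ℝ) : ℂ) *
          (Zj j t * WD n Rs J I (k - 1) k u t)‖ ≤ ε * WW (k ^ 2) (VV I J)) := by
  have hn0 : (1:ℝ) ≤ n := by exact_mod_cast hn
  obtain ⟨P₀, C, hC, H0⟩ := t_H0 n c hn
  refine ⟨P₀, fun Rs hRs N ε hε => ?_⟩
  have hRs1 : (1:ℝ) ≤ Rs := by exact_mod_cast hRs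
  obtain ⟨V₀, hV₀, hexp⟩ := exp_small hC (half_pos hε)
  refine ⟨V₀, ?_⟩
  have hJ : ∀ᶠ T : ℝ in atTop, ∀ j ∈ range N, 1 ≤ j → ∀ κ : ℕ, Rng T κ → ∀ (c e : ℝ) (P₀ : ℕ) (y : ℝ) (J : ℕ)
      (I : ℕ → Finset ℕ), Cfg c e P₀ y J I →
      n * ((Rs:ℝ) + 1) * Real.log y ≤ 1 / 96000 * Real.log T → ∀ a b u : ℝ, |a| ≤ n → |b| ≤ n →
        ‖∫ t in Set.Ioi (0:ℝ), ((om κ (κ / T) t : ℝ) : ℂ) * (Zj j t * ((WQ n Rs J I a b u t : ℝ) : ℂ))‖ ≤
          T ^ (-(1 / 16) : ℝ) ∧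
        ‖∫ t in Set.Ioi (0:ℝ), ((om κ (κ / T) t : ℝ) : ℂ) * (Zj j t * WD n Rs J I a b u t)‖ ≤
          T ^ (-(1 / 16) : ℝ) := by
    rw [Filter.eventually_all_finset]
    intro j _
    by_cases h1 : 1 ≤ j
    · filter_upwards [t_HJ j h1 n hn Rs hRs] with T hT _
      exact hT
    · exact Eventually.of_forall fun T h => absurd h h1
  filter_upwards [H0 Rs hRs, hJ, ev_half, ev_small (c := ε / 2) (c₀ := c) (half_pos hε), eventually_gt_atTop (1:ℝ)]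
    with T h0T hJT hhT hsT hT1 κ hκ y J I hcfg hlen hV k u hk
  have hT0 : 0 < T := by linarith
  have hL0 : 0 < Real.log T := Real.log_pos hT1
  have hkn : |k| ≤ n := by linarith
  have hkn1 : |k - 1| ≤ n := by
    have := abs_sub k 1
    rw [abs_one] at this
    linarith
  have hV0 : 0 ≤ VV I J := sum_nonneg fun i _ => vI_nonneg _
  have hly : 0 < Real.log y := Real.log_pos (by linarith [hcfg.y1])
  have hyL : Real.log y ≤ Real.log T := by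
    have hnR1 : (1:ℝ) ≤ n * ((Rs:ℝ) + 1) := one_le_mul_of_one_le_of_one_le hn0 (by linarith)
    exact nyl hnR1 hly hL0 (by norm_num) hlen
  have hVup : VV I J ≤ Real.log (Real.log T) + c := by
    have h6 := hcfg.vv
    have h7 : Real.log (Real.log y) ≤ Real.log (Real.log T) := Real.log_le_log hly hyL
    linarith
  have hsm := hsT (VV I J) hV0 hVup k
  have hW0 : 0 ≤ WW (k ^ 2) (VV I J) := by unfold WW; positivity
  have hex := hexp (VV I J) hV k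
  obtain ⟨z1, z2⟩ := h0T κ hκ y J I hcfg hlen k u hk
  have hex2 : C * Real.exp ((k ^ 2 - 1) * VV I J) ≤ ε / 2 * WW (k ^ 2) (VV I J) := by
    refine le_trans ?_ hex
    gcongr
    norm_num
  refine ⟨fun j hj => ?_, fun j hj => ?_, fun j hj h1 => ?_⟩
  · rcases Nat.eq_zero_or_pos j with rfl | h1
    · linarith
    · have := (hJT j (mem_range.mpr hj) h1 κ hκ c 1 P₀ y J I hcfg hlen k (k - 1) u hkn hkn1).1
      nlinarith
  · rcases Nat.eq_zero_or_pos j with rfl | h1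
    · linarith
    · have := (hJT j (mem_range.mpr hj) h1 κ hκ c 1 P₀ y J I hcfg hlen k (k - 1) u hkn hkn1).2
      nlinarith
  · have := (hJT j (mem_range.mpr hj) h1 κ hκ c 1 P₀ y J I hcfg hlen (k - 1) k u hkn1 hkn).2
    nlinarith

end

end Pool.Agent.Run7.h74.SC
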