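import Pool.Agent.Run7.h74.SC.Harm
import Pool.Agent.Run7.h74.SC.Alg

set_option autoImplicit false

/-!
SC project (helper74): the sector functions against the weights.
-/

namespace Pool.Agent.Run7.h74.SC

open Finset Filter Topology MeasureTheory
open Pool.Agent.W184.NZ
open Pool.Agent.TH806 Pool.Agent.TH806.LK Pool.Agent.TH806.LS
open Pool.Agent.H306R2.SM (om cl Yf)
open Pool.Agent.H262R4.TM (Rng Ck)

noncomputable section

/-- zeta on the critical line -/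
def Zt (t : ℝ) : ℂ := riemannZeta (cl t)

lemma Zt_norm (t : ℝ) : ‖Zt t‖ = Xz t := rfl

lemma Zt_cont : Continuous Zt := zcl_cont

lemma Zt_ph (t : ℝ) : Zt t = ph t * starRingEnd ℂ (Zt t) := zeta_ph t

lemma Zt_zero (t : ℝ) : Zj 0 t = Zt t := Zj_zero t

/-! ### the weights -/

lemma WQ_cont (hPT : P_PT) {n Rs J : ℕ} {I : ℕ → Finset ℕ} (hI : ∀ i, ∀ p ∈ I i, p.Prime) (a b u : ℝ) :
    Continuous (WQ n Rs J I a b u) ∧ ∃ B : ℝ, ∀ t, |WQ n Rs J I a b u t| ≤ B := by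
  have hhc : Continuous hh := by unfold hh; fun_prop
  obtain ⟨_, cD, cz, Bz, hBz⟩ := hPT.1 n Rs J I a u hh hI hhc
  obtain ⟨cA, Bk, hBk⟩ := AQ_cont hPT (n := n) (Rs := Rs) (J := J) hI a
  obtain ⟨cA', Bm, hBm⟩ := AQ_cont hPT (n := n) (Rs := Rs) (J := J) hI b
  refine ⟨by unfold WQ; exact (cA.mul cA').mul (cD.norm.pow 2), Bk * Bm * Bz ^ 2, fun t => ?_⟩
  have h1 := hBk t
  have h2 := hBm t
  have h3 := (hBz t).2.1
  have h4 : 0 ≤ Bk := (norm_nonneg _).trans h1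
  have h5 : 0 ≤ Bm := (norm_nonneg _).trans h2
  unfold WQ
  rw [abs_of_nonneg (by positivity)]
  gcongr

lemma WQ_nonneg (n Rs J : ℕ) (I : ℕ → Finset ℕ) (a b u t : ℝ) : 0 ≤ WQ n Rs J I a b u t := by
  unfold WQ; positivity

lemma WD_cont (hPT : P_PT) {n Rs J : ℕ} {I : ℕ → Finset ℕ} (hI : ∀ i, ∀ p ∈ I i, p.Prime) (a b u : ℝ) :
    Continuous (WD n Rs J I a b u) ∧ ∃ B : ℝ, ∀ t, ‖WD n Rs J I a b u t‖ ≤ B := by
  have hhc : Continuous hh := by unfold hh; fun_prop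
  obtain ⟨cA, cD, _, Bz, hBz⟩ := hPT.1 n Rs J I a u hh hI hhc
  obtain ⟨cA', _, _, By, hBy⟩ := hPT.1 n Rs J I b u hh hI hhc
  refine ⟨?_, Bz * By * Bz ^ 2, fun t => ?_⟩
  · unfold WD
    exact (cA.mul (Complex.continuous_conj.comp cA')).mul (Complex.continuous_ofReal.comp (cD.norm.pow 2))
  · have h1 := (hBz t).1
    have h2 := (hBy t).1
    have h3 := (hBz t).2.1
    have h4 : 0 ≤ Bz := (norm_nonneg _).trans h1
    have h5 : 0 ≤ By := (norm_nonneg _).trans h2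
    unfold WD
    rw [norm_mul, norm_mul, RCLike.norm_conj, Complex.norm_real, Real.norm_of_nonneg (by positivity)]
    gcongr

lemma WD_conj (n Rs J : ℕ) (I : ℕ → Finset ℕ) (a b u t : ℝ) :
    starRingEnd ℂ (WD n Rs J I a b u t) = WD n Rs J I b a u t := by
  unfold WD
  rw [map_mul, map_mul, Complex.conj_conj, Complex.conj_ofReal]
  ring

lemma sum_choose (n : ℕ) : ∑ m ∈ range (n + 1), ((n.choose m : ℝ) / 2 ^ n) = 1 := by
  rw [← sum_div, ← Nat.cast_sum, Nat.sum_range_choose]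
  push_cast
  exact div_self (by positivity)

/-! ### the odd part -/

theorem odd_small (hPT : P_PT) {n Rs J : ℕ} {I : ℕ → Finset ℕ} (hI : ∀ i, ∀ p ∈ I i, p.Prime) {κ : ℕ} {T : ℝ}
    (hδ : 0 < (κ:ℝ) / T) {a b u : ℝ} {N : ℕ} (A : ℕ → ℝ) {ω : ℂ} (hω : ‖ω‖ = 1) {E : ℝ}
    (h : ∀ j < N, ‖∫ t in Set.Ioi (0:ℝ), ((om κ (κ / T) t : ℝ) : ℂ) *
          (Zj j t * ((WQ n Rs J I a b u t : ℝ) : ℂ))‖ ≤ E) :
    |∫ t in Set.Ioi (0:ℝ), om κ (κ / T) t * (Qo A N ω (Zt t) (ph t) * WQ n Rs J I a b u t)| ≤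
      (∑ i ∈ range N, |A i|) * E := by
  obtain ⟨cW, B, hB⟩ := WQ_cont hPT (n := n) (Rs := Rs) (J := J) hI a b u
  have cWc : Continuous fun t => ((WQ n Rs J I a b u t : ℝ) : ℂ) := Complex.continuous_ofReal.comp cW
  have hBc : ∀ t, ‖((WQ n Rs J I a b u t : ℝ) : ℂ)‖ ≤ B := fun t => by
    rw [Complex.norm_real, Real.norm_eq_abs]; exact hB t
  have hij : ∀ j, IntegrableOn (fun t : ℝ => ((om κ (κ / T) t : ℝ) : ℂ) * (Zj j t * ((WQ n Rs J I a b u t : ℝ) : ℂ)))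
      (Set.Ioi 0) := fun j => int_z (Zj_cont j) (Zj_norm j) κ hδ cWc hBc
  set f : ℝ → ℂ := fun t => ∑ i ∈ range N, (A i : ℂ) * ∑ m ∈ range (2 * i + 1 + 1),
    (((2 * i + 1).choose m : ℝ) / 2 ^ (2 * i + 1) : ℝ) * (starRingEnd ℂ ω ^ dd (2 * i + 1) m *
      (((om κ (κ / T) t : ℝ) : ℂ) * (Zj ((dd (2 * i + 1) m - 1) / 2) t * ((WQ n Rs J I a b u t : ℝ) : ℂ)))) with hf
  have i1 : ∀ i m : ℕ, IntegrableOn (fun t : ℝ => (((2 * i + 1).choose m : ℝ) / 2 ^ (2 * i + 1) : ℝ) *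
      (starRingEnd ℂ ω ^ dd (2 * i + 1) m * (((om κ (κ / T) t : ℝ) : ℂ) *
        (Zj ((dd (2 * i + 1) m - 1) / 2) t * ((WQ n Rs J I a b u t : ℝ) : ℂ))))) (Set.Ioi 0) := fun i m =>
    ((hij _).const_mul _).const_mul _
  have i2 : ∀ i : ℕ, IntegrableOn (fun t : ℝ => (A i : ℂ) * ∑ m ∈ range (2 * i + 1 + 1),
      (((2 * i + 1).choose m : ℝ) / 2 ^ (2 * i + 1) : ℝ) * (starRingEnd ℂ ω ^ dd (2 * i + 1) m *
      (((om κ (κ / T) t : ℝ) : ℂ) * (Zj ((dd (2 * i + 1) m - 1) / 2) t * ((WQ n Rs J I a b u t : ℝ) : ℂ)))))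
      (Set.Ioi 0) := fun i => (integrable_finsetSum _ fun m _ => i1 i m).const_mul _
  have hfi : IntegrableOn f (Set.Ioi 0) := integrable_finsetSum _ fun i _ => i2 i
  have e1 : ∀ t, om κ (κ / T) t * (Qo A N ω (Zt t) (ph t) * WQ n Rs J I a b u t) = (f t).re := by
    intro t
    simp only [hf]
    rw [Complex.re_sum]
    unfold Qo
    rw [sum_mul, mul_sum]
    refine sum_congr rfl fun i _ => ?_
    rw [Complex.re_ofReal_mul, Complex.re_sum]
    have e2 : om κ (κ / T) t * (A i * (∑ m ∈ range (2 * i + 1 + 1), ((2 * i + 1).choose m : ℝ) / 2 ^ (2 * i + 1) *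
        (Hod (2 * i + 1) m ω (Zt t) (ph t)).re) * WQ n Rs J I a b u t) =
        A i * ∑ m ∈ range (2 * i + 1 + 1), ((2 * i + 1).choose m : ℝ) / 2 ^ (2 * i + 1) *
          (om κ (κ / T) t * ((Hod (2 * i + 1) m ω (Zt t) (ph t)).re * WQ n Rs J I a b u t)) := by
      rw [mul_assoc, sum_mul, mul_left_comm, mul_sum]
      congr 1
      refine sum_congr rfl fun m _ => ?_
      ring
    rw [e2]
    congr 1
    refine sum_congr rfl fun m _ => ?_
    rw [Complex.re_ofReal_mul]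
    congr 1
    have e3 : starRingEnd ℂ ω ^ dd (2 * i + 1) m * (((om κ (κ / T) t : ℝ) : ℂ) *
        (Zj ((dd (2 * i + 1) m - 1) / 2) t * ((WQ n Rs J I a b u t : ℝ) : ℂ))) =
        ((om κ (κ / T) t * WQ n Rs J I a b u t : ℝ) : ℂ) * Hod (2 * i + 1) m ω (Zt t) (ph t) := by
      unfold Hod Zj Zt
      push_cast
      ring
    rw [e3, Complex.re_ofReal_mul]
    ring
  have e4 : (∫ t in Set.Ioi (0:ℝ), om κ (κ / T) t * (Qo A N ω (Zt t) (ph t) * WQ n Rs J I a b u t)) =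
      (∫ t in Set.Ioi (0:ℝ), f t).re := by
    simp_rw [e1]
    exact Complex.reCLM.integral_comp_comm hfi
  rw [e4]
  refine (Complex.abs_re_le_norm _).trans ?_
  have e5 : (∫ t in Set.Ioi (0:ℝ), f t) = ∑ i ∈ range N, (A i : ℂ) * ∑ m ∈ range (2 * i + 1 + 1),
    (((2 * i + 1).choose m : ℝ) / 2 ^ (2 * i + 1) : ℝ) * (starRingEnd ℂ ω ^ dd (2 * i + 1) m *
      ∫ t in Set.Ioi (0:ℝ), (((om κ (κ / T) t : ℝ) : ℂ) *
        (Zj ((dd (2 * i + 1) m - 1) / 2) t * ((WQ n Rs J I a b u t : ℝ) : ℂ)))) := by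
    simp only [hf]
    rw [integral_finsetSum _ fun i _ => i2 i]
    refine sum_congr rfl fun i _ => ?_
    rw [integral_const_mul, integral_finsetSum _ fun m _ => i1 i m]
    congr 1
    refine sum_congr rfl fun m _ => ?_
    rw [integral_const_mul, integral_const_mul]
  rw [e5, sum_mul]
  refine (norm_sum_le _ _).trans (sum_le_sum fun i hi => ?_)
  rw [mem_range] at hi
  rw [norm_mul, Complex.norm_real, Real.norm_eq_abs]
  refine mul_le_mul_of_nonneg_left ?_ (abs_nonneg _)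
  calc _ ≤ ∑ m ∈ range (2 * i + 1 + 1), ((2 * i + 1).choose m : ℝ) / 2 ^ (2 * i + 1) * E := by
        refine (norm_sum_le _ _).trans (sum_le_sum fun m hm => ?_)
        rw [mem_range] at hm
        rw [norm_mul, norm_mul, norm_pow, RCLike.norm_conj, hω, one_pow, one_mul, Complex.norm_real,
          Real.norm_of_nonneg (by positivity)]
        refine mul_le_mul_of_nonneg_left (h _ ?_) (by positivity)
        unfold dd
        omega
    _ = E := by rw [← sum_mul, sum_choose, one_mul]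

/-! ### the even part -/

lemma Hev_cont (n m : ℕ) (ω : ℂ) : Continuous fun t => Hev n m ω (Zt t) (ph t) := by
  unfold Hev
  split_ifs
  · exact continuous_const.mul (Zt_cont.mul (ph_cont.pow _))
  · exact Zt_cont
  · exact Complex.continuous_conj.comp (continuous_const.mul (Zt_cont.mul (ph_cont.pow _)))

lemma Hev_norm (n m : ℕ) {ω : ℂ} (hω : ‖ω‖ = 1) (t : ℝ) :
    ‖Hev n m ω (Zt t) (ph t)‖ = ‖riemannZeta (cl t)‖ := by
  unfold Hev Zt
  split_ifs
  · rw [norm_mul, norm_mul, norm_pow, norm_pow, RCLike.norm_conj, hω, ph_norm, one_pow, one_pow, one_mul, mul_one]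
  · rfl
  · rw [RCLike.norm_conj, norm_mul, norm_mul, norm_pow, norm_pow, RCLike.norm_conj, hω, ph_norm, one_pow, one_pow,
      one_mul, mul_one]

/-- the harmonics of the even part against the complex weight -/
theorem Hev_small {n Rs J : ℕ} {I : ℕ → Finset ℕ} {κ : ℕ} {T : ℝ} {a b u : ℝ} {N : ℕ} {ω : ℂ} (hω : ‖ω‖ = 1) {E : ℝ}
    (h1 : ∀ j < N, ‖∫ t in Set.Ioi (0:ℝ), ((om κ (κ / T) t : ℝ) : ℂ) * (Zj j t * WD n Rs J I b a u t)‖ ≤ E)
    (h2 : ∀ j < N, 1 ≤ j → ‖∫ t in Set.Ioi (0:ℝ), ((om κ (κ / T) t : ℝ) : ℂ) * (Zj j t * WD n Rs J I a b u t)‖ ≤ E)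
    {i m : ℕ} (hi : i < N) (hm : m < 2 * i + 1) (hmi : m ≠ i) :
    ‖∫ t in Set.Ioi (0:ℝ), ((om κ (κ / T) t : ℝ) : ℂ) * (Hev (2 * i) m ω (Zt t) (ph t) * WD n Rs J I a b u t)‖ ≤
      E := by
  unfold Hev
  rcases lt_trichotomy (2 * i) (2 * m) with h | h | h
  · simp only [if_pos h]
    have e : ∀ t : ℝ, ((om κ (κ / T) t : ℝ) : ℂ) * (starRingEnd ℂ ω ^ (2 * m - 2 * i) *
        (Zt t * ph t ^ ((2 * m - 2 * i) / 2)) * WD n Rs J I a b u t) = starRingEnd ℂ ω ^ (2 * m - 2 * i) *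
        (((om κ (κ / T) t : ℝ) : ℂ) * (Zj ((2 * m - 2 * i) / 2) t * WD n Rs J I a b u t)) := by
      intro t; unfold Zj Zt; ring
    simp_rw [e]
    rw [integral_const_mul, norm_mul, norm_pow, RCLike.norm_conj, hω, one_pow, one_mul]
    exact h2 _ (by omega) (by omega)
  · omega
  · simp only [if_neg (by omega : ¬ 2 * i < 2 * m), if_neg (by omega : ¬ 2 * m = 2 * i)]
    have e : ∀ t : ℝ, ((om κ (κ / T) t : ℝ) : ℂ) * (starRingEnd ℂ (starRingEnd ℂ ω ^ (2 * i - 2 * m) *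
        (Zt t * ph t ^ ((2 * i - 2 * m) / 2 - 1))) * WD n Rs J I a b u t) =
        starRingEnd ℂ (starRingEnd ℂ ω ^ (2 * i - 2 * m) *
        (((om κ (κ / T) t : ℝ) : ℂ) * (Zj ((2 * i - 2 * m) / 2 - 1) t * WD n Rs J I b a u t))) := by
      intro t
      rw [← WD_conj n Rs J I b a u t]
      unfold Zj Zt
      simp only [map_mul, Complex.conj_ofReal]
      ring
    simp_rw [e]
    rw [integral_conj, RCLike.norm_conj, integral_const_mul, norm_mul, norm_pow, RCLike.norm_conj, hω, one_pow,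
      one_mul]
    exact h1 _ (by omega)

theorem even_main (hPT : P_PT) {n Rs J : ℕ} {I : ℕ → Finset ℕ} (hI : ∀ i, ∀ p ∈ I i, p.Prime) {κ : ℕ} {T : ℝ}
    (hδ : 0 < (κ:ℝ) / T) {a b u : ℝ} {N : ℕ} (A : ℕ → ℝ) {ω : ℂ} (hω : ‖ω‖ = 1) {E : ℝ} (hE : 0 ≤ E)
    (h1 : ∀ j < N, ‖∫ t in Set.Ioi (0:ℝ), ((om κ (κ / T) t : ℝ) : ℂ) * (Zj j t * WD n Rs J I b a u t)‖ ≤ E)
    (h2 : ∀ j < N, 1 ≤ j → ‖∫ t in Set.Ioi (0:ℝ), ((om κ (κ / T) t : ℝ) : ℂ) * (Zj j t * WD n Rs J I a b u t)‖ ≤ E) :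
    ‖(∫ t in Set.Ioi (0:ℝ), ((om κ (κ / T) t : ℝ) : ℂ) * (Qe A N ω (Zt t) (ph t) * WD n Rs J I a b u t)) -
      ((∑ i ∈ range N, A i * (((2 * i).choose i : ℝ) / 2 ^ (2 * i)) : ℝ) : ℂ) *
        ∫ t in Set.Ioi (0:ℝ), ((om κ (κ / T) t : ℝ) : ℂ) * (Zt t * WD n Rs J I a b u t)‖ ≤
      (∑ i ∈ range N, |A i|) * E := by
  obtain ⟨cW, B, hB⟩ := WD_cont hPT (n := n) (Rs := Rs) (J := J) hI a b u
  have hij : ∀ i m, IntegrableOn (fun t : ℝ => ((om κ (κ / T) t : ℝ) : ℂ) *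
      (Hev i m ω (Zt t) (ph t) * WD n Rs J I a b u t)) (Set.Ioi 0) := fun i m =>
    int_z (Hev_cont i m ω) (Hev_norm i m hω) κ hδ cW hB
  set M := ∫ t in Set.Ioi (0:ℝ), ((om κ (κ / T) t : ℝ) : ℂ) * (Zt t * WD n Rs J I a b u t) with hM
  have e1 : ∀ t, ((om κ (κ / T) t : ℝ) : ℂ) * (Qe A N ω (Zt t) (ph t) * WD n Rs J I a b u t) =
      ∑ i ∈ range N, (A i : ℂ) * ∑ m ∈ range (2 * i + 1), (((2 * i).choose m : ℝ) / 2 ^ (2 * i) : ℝ) *
        (((om κ (κ / T) t : ℝ) : ℂ) * (Hev (2 * i) m ω (Zt t) (ph t) * WD n Rs J I a b u t)) := by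
    intro t
    unfold Qe
    rw [sum_mul, mul_sum]
    refine sum_congr rfl fun i _ => ?_
    rw [mul_assoc, sum_mul, mul_left_comm, mul_sum]
    congr 1
    refine sum_congr rfl fun m _ => ?_
    ring
  have i1 : ∀ i m : ℕ, IntegrableOn (fun t : ℝ => ((((2 * i).choose m : ℝ) / 2 ^ (2 * i) : ℝ) : ℂ) *
        (((om κ (κ / T) t : ℝ) : ℂ) * (Hev (2 * i) m ω (Zt t) (ph t) * WD n Rs J I a b u t))) (Set.Ioi 0) :=
    fun i m => (hij _ _).const_mul _
  have i2 : ∀ i : ℕ, IntegrableOn (fun t : ℝ => (A i : ℂ) * ∑ m ∈ range (2 * i + 1),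
      ((((2 * i).choose m : ℝ) / 2 ^ (2 * i) : ℝ) : ℂ) *
        (((om κ (κ / T) t : ℝ) : ℂ) * (Hev (2 * i) m ω (Zt t) (ph t) * WD n Rs J I a b u t))) (Set.Ioi 0) :=
    fun i => (integrable_finsetSum _ fun m _ => i1 i m).const_mul _
  have e2 : (∫ t in Set.Ioi (0:ℝ), ((om κ (κ / T) t : ℝ) : ℂ) * (Qe A N ω (Zt t) (ph t) * WD n Rs J I a b u t)) =
      ∑ i ∈ range N, (A i : ℂ) * ∑ m ∈ range (2 * i + 1), ((((2 * i).choose m : ℝ) / 2 ^ (2 * i) : ℝ) : ℂ) *
        ∫ t in Set.Ioi (0:ℝ), (((om κ (κ / T) t : ℝ) : ℂ) *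
          (Hev (2 * i) m ω (Zt t) (ph t) * WD n Rs J I a b u t)) := by
    simp_rw [e1]
    rw [integral_finsetSum _ fun i _ => i2 i]
    refine sum_congr rfl fun i _ => ?_
    rw [integral_const_mul, integral_finsetSum _ fun m _ => i1 i m]
    congr 1
    refine sum_congr rfl fun m _ => ?_
    rw [integral_const_mul]
  have e3 : ((∑ i ∈ range N, A i * (((2 * i).choose i : ℝ) / 2 ^ (2 * i)) : ℝ) : ℂ) * M =
      ∑ i ∈ range N, (A i : ℂ) * ∑ m ∈ range (2 * i + 1), ((((2 * i).choose m : ℝ) / 2 ^ (2 * i) : ℝ) : ℂ) *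
        (if m = i then M else 0) := by
    rw [Complex.ofReal_sum, sum_mul]
    refine sum_congr rfl fun i _ => ?_
    rw [sum_eq_single i]
    · rw [if_pos rfl]; push_cast; ring
    · intro m _ hm
      rw [if_neg hm, mul_zero]
    · intro hi
      exact absurd (mem_range.mpr (by omega)) hi
  rw [e2, e3, ← sum_sub_distrib, sum_mul]
  refine (norm_sum_le _ _).trans (sum_le_sum fun i hi => ?_)
  rw [mem_range] at hi
  rw [← mul_sub, ← sum_sub_distrib, norm_mul, Complex.norm_real, Real.norm_eq_abs]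
  refine mul_le_mul_of_nonneg_left ?_ (abs_nonneg _)
  calc _ ≤ ∑ m ∈ range (2 * i + 1), ((2 * i).choose m : ℝ) / 2 ^ (2 * i) * E := by
        refine (norm_sum_le _ _).trans (sum_le_sum fun m hm => ?_)
        rw [mem_range] at hm
        rw [← mul_sub, norm_mul, Complex.norm_real, Real.norm_of_nonneg (by positivity)]
        refine mul_le_mul_of_nonneg_left ?_ (by positivity)
        by_cases hmi : m = i
        · subst hmi
          rw [if_pos rfl]
          have : (∫ t in Set.Ioi (0:ℝ), (((om κ (κ / T) t : ℝ) : ℂ) *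
              (Hev (2 * m) m ω (Zt t) (ph t) * WD n Rs J I a b u t))) = M := by
            rw [hM]
            congr 1
            funext t
            unfold Hev
            rw [if_neg (by omega), if_pos rfl]
          rw [this, sub_self, norm_zero]
          exact hE
        · rw [if_neg hmi, sub_zero]
          exact Hev_small hω h1 h2 hi hm hmi
    _ = E := by rw [← sum_mul, sum_choose, one_mul]

/-! ### comparison of the weights -/

/-- the absolute value against the complex weight and the real weight -/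
theorem low_G (hPT : P_PT) {n Rs J : ℕ} {I : ℕ → Finset ℕ}
    (hI : ∀ i, ∀ p ∈ I i, p.Prime) (hn : 1 ≤ n)
    (hRs : 1 ≤ Rs) {κ : ℕ} {T : ℝ} (hδ : 0 < (κ:ℝ) / T) {u k lam ηp : ℝ} (hk : |k| + 1 ≤ n) (hlam : 0 < lam)
    (hη : 0 ≤ ηp) {Q : ℝ → ℂ} {G : ℝ → ℝ} (hGc : Continuous G) (hG0 : ∀ t, 0 ≤ G t)
    (hGX : ∀ t, G t ≤ Xz t) (hQ : ∀ t, ‖Q t‖ ≤ G t + ηp * Xz t) :
    ‖∫ t in Set.Ioi (0:ℝ), ((om κ (κ / T) t : ℝ) : ℂ) * (Q t * WD n Rs J I (k - 1) k u t)‖ ≤
      64 * (∫ t in Set.Ioi (0:ℝ), om κ (κ / T) t * (G t * WQ n Rs J I k (k - 1) u t)) +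
      (lam / 2 + ηp / 2) * (∫ t in Set.Ioi (0:ℝ), wz κ T t * AD n Rs J I (k - 1) u t) +
      ηp / 2 * (∫ t in Set.Ioi (0:ℝ), om κ (κ / T) t * AD n Rs J I k u t) +
      1 / (2 * lam) * (∑ i ∈ range J, ∫ t in Set.Ioi (0:ℝ), om κ (κ / T) t *
        ((‖zz I t i‖ / RR Rs i) ^ (2 * RR Rs i) * AD n Rs J I k u t)) := by
  have hhc : Continuous hh := by unfold hh; fun_prop
  obtain ⟨cZ, cD, cz, Bz, hBz⟩ := hPT.1 n Rs J I k u hh hI hhc
  obtain ⟨cZ', _, _, By, hBy⟩ := hPT.1 n Rs J I (k - 1) u hh hI hhc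
  obtain ⟨cW, BW, hBW⟩ := WQ_cont hPT (n := n) (Rs := Rs) (J := J) hI k (k - 1) u
  have cAD : Continuous (AD n Rs J I k u) := by
    unfold AD; exact (cZ.norm.pow 2).mul (cD.norm.pow 2)
  have cAD' : Continuous (AD n Rs J I (k - 1) u) := by
    unfold AD; exact (cZ'.norm.pow 2).mul (cD.norm.pow 2)
  have AD0 : ∀ a t, 0 ≤ AD n Rs J I a u t := fun a t => by unfold AD; positivity
  have bAD : ∀ t, AD n Rs J I k u t ≤ Bz ^ 2 * Bz ^ 2 := fun t => by
    unfold AD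
    have h1 := (hBz t).1
    have h2 := (hBz t).2.1
    gcongr
  have bAD' : ∀ t, AD n Rs J I (k - 1) u t ≤ By ^ 2 * By ^ 2 := fun t => by
    unfold AD
    have h1 := (hBy t).1
    have h2 := (hBy t).2.1
    gcongr
  have hz0 : ∀ t, ∀ i < J, ‖zz I t i‖ ≤ |Bz| := fun t i hi => ((hBz t).2.2 i hi).trans (le_abs_self _)
  have iom : IntegrableOn (fun t => om κ (κ / T) t) (Set.Ioi 0) := om_int0 _ hδ
  have iF : ∀ {F : ℝ → ℝ} {C : ℝ}, Continuous F → (∀ t, |F t| ≤ C) →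
      IntegrableOn (fun t => om κ (κ / T) t * F t) (Set.Ioi 0) := by
    intro F C hF hC
    refine iom.mul_bdd (c := C) hF.aestronglyMeasurable (Eventually.of_forall fun t => ?_)
    rw [Real.norm_eq_abs]; exact hC t
  have j1 : IntegrableOn (fun t => wz κ T t * AD n Rs J I (k - 1) u t) (Set.Ioi 0) :=
    wz_int κ hδ cAD' (C := By ^ 2 * By ^ 2) fun t => by rw [abs_of_nonneg (AD0 _ _)]; exact bAD' t
  have j4 : IntegrableOn (fun t => om κ (κ / T) t * AD n Rs J I k u t) (Set.Ioi 0) :=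
    iF cAD (C := Bz ^ 2 * Bz ^ 2) fun t => by rw [abs_of_nonneg (AD0 _ _)]; exact bAD t
  have j2 : ∀ i ∈ range J, IntegrableOn (fun t => om κ (κ / T) t *
      ((‖zz I t i‖ / RR Rs i) ^ (2 * RR Rs i) * AD n Rs J I k u t)) (Set.Ioi 0) := by
    intro i hi
    refine iF ((((cz i).norm.div_const _).pow _).mul cAD)
      (C := (|Bz| / RR Rs i) ^ (2 * RR Rs i) * (Bz ^ 2 * Bz ^ 2)) fun t => ?_
    rw [abs_of_nonneg (mul_nonneg (by positivity) (AD0 _ _))]
    have h1 := hz0 t i (mem_range.mp hi)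
    exact mul_le_mul (by gcongr) (bAD t) (AD0 _ _) (by positivity)
  have j0 : IntegrableOn (fun t => om κ (κ / T) t * (G t * WQ n Rs J I k (k - 1) u t)) (Set.Ioi 0) :=
    iX hδ hGc (fun t => by rw [abs_of_nonneg (hG0 t)]; exact hGX t) cW hBW
  have hpt : ∀ t ∈ Set.Ioi (0:ℝ), ‖((om κ (κ / T) t : ℝ) : ℂ) * (Q t * WD n Rs J I (k - 1) k u t)‖ ≤
      64 * (om κ (κ / T) t * (G t * WQ n Rs J I k (k - 1) u t)) +
      (lam / 2 + ηp / 2) * (wz κ T t * AD n Rs J I (k - 1) u t) +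
      ηp / 2 * (om κ (κ / T) t * AD n Rs J I k u t) +
      1 / (2 * lam) * (∑ i ∈ range J, om κ (κ / T) t *
        ((‖zz I t i‖ / RR Rs i) ^ (2 * RR Rs i) * AD n Rs J I k u t)) := by
    intro t ht
    have hom : 0 ≤ om κ (κ / T) t := om_nn κ hδ (le_of_lt ht)
    have habs : |k| ≤ n := by linarith
    have habs' : |k - 1| ≤ n := (abs_sub _ _).trans (by simpa using hk)
    have hX := Xz_nonneg t
    have hG := hG0 t
    have hGX' := hGX t
    set A := ‖AZ n Rs J k (zz I t)‖ with hA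
    set A' := ‖AZ n Rs J (k - 1) (zz I t)‖ with hA'
    set D := ‖DK n Rs J hh u (zz I t)‖ ^ 2 with hD
    have hA0 : 0 ≤ A := norm_nonneg _
    have hA'0 : 0 ≤ A' := norm_nonneg _
    have hD0 : 0 ≤ D := by positivity
    have e1 : ‖((om κ (κ / T) t : ℝ) : ℂ) * (Q t * WD n Rs J I (k - 1) k u t)‖ =
        om κ (κ / T) t * (‖Q t‖ * (A * A') * D) := by
      unfold WD
      rw [norm_mul, norm_mul, norm_mul, norm_mul, RCLike.norm_conj, Complex.norm_real, Complex.norm_real,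
        Real.norm_of_nonneg hom, Real.norm_of_nonneg (by positivity)]
      ring
    have e3 : wz κ T t = om κ (κ / T) t * Xz t ^ 2 := rfl
    have e4 : ∑ i ∈ range J, om κ (κ / T) t * ((‖zz I t i‖ / RR Rs i) ^ (2 * RR Rs i) * AD n Rs J I k u t) =
        om κ (κ / T) t * (bd Rs J I t * AD n Rs J I k u t) := by
      unfold bd
      rw [sum_mul, mul_sum]
    have e5 : AD n Rs J I k u t = A ^ 2 * D := rfl
    have e6 : AD n Rs J I (k - 1) u t = A' ^ 2 * D := rfl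
    rw [e1, e3, e4, e5, e6]
    have hbad := bd_nonneg Rs J I t
    have hAM1 := mul_le_mul_of_nonneg_right (amgm (X := Xz t) (A := A) (A' := A') one_pos) hD0
    have hAM2 := mul_le_mul_of_nonneg_right (amgm (X := Xz t) (A := A) (A' := A') hlam) hD0
    -- the main inequality without the density
    have hcore : ‖Q t‖ * (A * A') * D ≤ 64 * (G t * WQ n Rs J I k (k - 1) u t) +
        (lam / 2 + ηp / 2) * (Xz t ^ 2 * (A' ^ 2 * D)) + ηp / 2 * (A ^ 2 * D) +
        1 / (2 * lam) * (bd Rs J I t * (A ^ 2 * D)) := by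
      have h1 : ‖Q t‖ * (A * A') * D ≤ (G t + ηp * Xz t) * (A * A') * D := by
        have := hQ t
        gcongr
      have h2 : ηp * Xz t * (A * A') * D ≤ ηp / 2 * (Xz t ^ 2 * (A' ^ 2 * D)) + ηp / 2 * (A ^ 2 * D) := by
        have := mul_le_mul_of_nonneg_left hAM1 hη
        calc ηp * Xz t * (A * A') * D = ηp * (Xz t * (A * A') * D) := by ring
          _ ≤ _ := this
          _ = _ := by ring
      have h3 : G t * (A * A') * D ≤ 64 * (G t * WQ n Rs J I k (k - 1) u t) +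
          lam / 2 * (Xz t ^ 2 * (A' ^ 2 * D)) + 1 / (2 * lam) * (bd Rs J I t * (A ^ 2 * D)) := by
        have n1 : 0 ≤ 64 * (G t * WQ n Rs J I k (k - 1) u t) := by
          have := WQ_nonneg n Rs J I k (k - 1) u t
          positivity
        have n2 : 0 ≤ lam / 2 * (Xz t ^ 2 * (A' ^ 2 * D)) := by positivity
        have n3 : 0 ≤ 1 / (2 * lam) * (bd Rs J I t * (A ^ 2 * D)) := by positivity
        by_cases hg : gd Rs J I t
        · have a1 := (AQ_pt hPT hn hRs hg habs).1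
          have a2 := (AQ_pt hPT hn hRs hg habs').1
          have a3 := ((hPT.2 n Rs J (zz I t) hn hRs hg).1 k habs).2
          have a4 := ((hPT.2 n Rs J (zz I t) hn hRs hg).1 (k - 1) habs').2
          have h4 : A * A' ≤ 64 * (‖AQ n Rs J k (zz I t)‖ * ‖AQ n Rs J (k - 1) (zz I t)‖) := by
            calc A * A' ≤ (2 * Real.exp (k * ∑ i ∈ range J, (zz I t i).re)) *
                  (2 * Real.exp ((k - 1) * ∑ i ∈ range J, (zz I t i).re)) := by gcongr
              _ = 64 * ((Real.exp (k * ∑ i ∈ range J, (zz I t i).re) / 4) *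
                  (Real.exp ((k - 1) * ∑ i ∈ range J, (zz I t i).re) / 4)) := by ring
              _ ≤ _ := by gcongr
          have h5 : G t * (A * A') * D ≤ 64 * (G t * WQ n Rs J I k (k - 1) u t) := by
            calc G t * (A * A') * D ≤
                G t * (64 * (‖AQ n Rs J k (zz I t)‖ * ‖AQ n Rs J (k - 1) (zz I t)‖)) * D := by gcongr
              _ = 64 * (G t * WQ n Rs J I k (k - 1) u t) := by unfold WQ; ring
          linarith
        · have h5 := bd_one hRs hg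
          have h6 : G t * (A * A') * D ≤ Xz t * (A * A') * D := by gcongr
          have h7 : 1 / (2 * lam) * (A ^ 2 * D) ≤ 1 / (2 * lam) * (bd Rs J I t * (A ^ 2 * D)) := by
            refine mul_le_mul_of_nonneg_left ?_ (by positivity)
            have : 0 ≤ A ^ 2 * D := by positivity
            nlinarith
          have e7 : (lam / 2 * (Xz t ^ 2 * A' ^ 2) + 1 / (2 * lam) * A ^ 2) * D =
              lam / 2 * (Xz t ^ 2 * (A' ^ 2 * D)) + 1 / (2 * lam) * (A ^ 2 * D) := by ring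
          rw [e7] at hAM2
          linarith
      calc ‖Q t‖ * (A * A') * D ≤ (G t + ηp * Xz t) * (A * A') * D := h1
        _ = G t * (A * A') * D + ηp * Xz t * (A * A') * D := by ring
        _ ≤ _ := add_le_add h3 h2
        _ = _ := by ring
    have h8 := mul_le_mul_of_nonneg_left hcore hom
    refine h8.trans (le_of_eq ?_)
    ring
  refine (norm_integral_le_integral_norm _).trans ?_
  have i1 := j0.const_mul 64
  have i2 := j1.const_mul (lam / 2 + ηp / 2)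
  have i4 := j4.const_mul (ηp / 2)
  have i3 := (integrable_finsetSum _ j2).const_mul (1 / (2 * lam))
  have hle := integral_mono_of_nonneg (μ := volume.restrict (Set.Ioi (0:ℝ)))
    (Eventually.of_forall fun t => norm_nonneg _) (((i1.add i2).add i4).add i3)
    ((ae_restrict_iff' measurableSet_Ioi).mpr (Eventually.of_forall fun t ht => by
      simpa only [Pi.add_apply] using hpt t ht))
  refine hle.trans (le_of_eq ?_)
  rw [integral_add' ((i1.add i2).add i4) i3, integral_add' (i1.add i2) i4, integral_add' i1 i2,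
    integral_const_mul, integral_const_mul, integral_const_mul, integral_const_mul,
    integral_finsetSum _ j2]

/-- the absolute value against the real weight -/
theorem up_X (hPT : P_PT) {n Rs J : ℕ} {I : ℕ → Finset ℕ}
    (hI : ∀ i, ∀ p ∈ I i, p.Prime) {κ : ℕ} {T : ℝ} (hδ : 0 < (κ:ℝ) / T) {u k : ℝ} :
    (∫ t in Set.Ioi (0:ℝ), om κ (κ / T) t * (Xz t * WQ n Rs J I k (k - 1) u t)) ≤
      1 / 2 * (∫ t in Set.Ioi (0:ℝ), wz κ T t * AQD n Rs J I (k - 1) u t) +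
      1 / 2 * (∫ t in Set.Ioi (0:ℝ), om κ (κ / T) t * AQD n Rs J I k u t) := by
  have hhc : Continuous hh := by unfold hh; fun_prop
  obtain ⟨_, cD, cz, Bz, hBz⟩ := hPT.1 n Rs J I k u hh hI hhc
  obtain ⟨cA, Bk, hBk⟩ := AQ_cont hPT (n := n) (Rs := Rs) (J := J) hI k
  obtain ⟨cA', Bm, hBm⟩ := AQ_cont hPT (n := n) (Rs := Rs) (J := J) hI (k - 1)
  obtain ⟨cW, BW, hBW⟩ := WQ_cont hPT (n := n) (Rs := Rs) (J := J) hI k (k - 1) u
  have cAD : Continuous (AQD n Rs J I k u) := by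
    unfold AQD; exact (cA.pow 2).mul (cD.norm.pow 2)
  have cAD' : Continuous (AQD n Rs J I (k - 1) u) := by
    unfold AQD; exact (cA'.pow 2).mul (cD.norm.pow 2)
  have AD0 : ∀ a t, 0 ≤ AQD n Rs J I a u t := fun a t => by unfold AQD; positivity
  have bAD : ∀ t, AQD n Rs J I k u t ≤ Bk ^ 2 * Bz ^ 2 := fun t => by
    unfold AQD
    have h1 := hBk t
    have h2 := (hBz t).2.1
    gcongr
  have bAD' : ∀ t, AQD n Rs J I (k - 1) u t ≤ Bm ^ 2 * Bz ^ 2 := fun t => by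
    unfold AQD
    have h1 := hBm t
    have h2 := (hBz t).2.1
    gcongr
  have j1 : IntegrableOn (fun t => wz κ T t * AQD n Rs J I (k - 1) u t) (Set.Ioi 0) :=
    wz_int κ hδ cAD' (C := Bm ^ 2 * Bz ^ 2) fun t => by rw [abs_of_nonneg (AD0 _ _)]; exact bAD' t
  have j4 : IntegrableOn (fun t => om κ (κ / T) t * AQD n Rs J I k u t) (Set.Ioi 0) := by
    refine (om_int0 _ hδ).mul_bdd (c := Bk ^ 2 * Bz ^ 2) cAD.aestronglyMeasurable
      (Eventually.of_forall fun t => ?_)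
    rw [Real.norm_eq_abs, abs_of_nonneg (AD0 _ _)]; exact bAD t
  have hpt : ∀ t ∈ Set.Ioi (0:ℝ), om κ (κ / T) t * (Xz t * WQ n Rs J I k (k - 1) u t) ≤
      1 / 2 * (wz κ T t * AQD n Rs J I (k - 1) u t) + 1 / 2 * (om κ (κ / T) t * AQD n Rs J I k u t) := by
    intro t ht
    have hom : 0 ≤ om κ (κ / T) t := om_nn κ hδ (le_of_lt ht)
    have hAM := mul_le_mul_of_nonneg_right (amgm (X := Xz t) (A := ‖AQ n Rs J k (zz I t)‖)
      (A' := ‖AQ n Rs J (k - 1) (zz I t)‖) one_pos) (sq_nonneg ‖DK n Rs J hh u (zz I t)‖)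
    have h8 := mul_le_mul_of_nonneg_left hAM hom
    have e3 : wz κ T t = om κ (κ / T) t * Xz t ^ 2 := rfl
    rw [e3]
    unfold WQ AQD
    refine (le_of_eq ?_).trans (h8.trans (le_of_eq ?_))
    · ring
    · ring
  have i1 := j1.const_mul (1 / 2)
  have i2 := j4.const_mul (1 / 2)
  have hle := integral_mono_of_nonneg (μ := volume.restrict (Set.Ioi (0:ℝ)))
    (f := fun t => om κ (κ / T) t * (Xz t * WQ n Rs J I k (k - 1) u t))
    ((ae_restrict_iff' measurableSet_Ioi).mpr (Eventually.of_forall fun t ht => by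
      have hom : 0 ≤ om κ (κ / T) t := om_nn κ hδ (le_of_lt ht)
      have := WQ_nonneg n Rs J I k (k - 1) u t
      have := Xz_nonneg t
      simp only [Pi.zero_apply]
      positivity)) (i1.add i2)
    ((ae_restrict_iff' measurableSet_Ioi).mpr (Eventually.of_forall fun t ht => by
      simpa only [Pi.add_apply] using hpt t ht))
  refine hle.trans (le_of_eq ?_)
  rw [integral_add' i1 i2, integral_const_mul, integral_const_mul]

end

end Pool.Agent.Run7.h74.SC
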