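import Pool.Agent.Run7.h74.SC.Tw
import Pool.Agent.TH914.LS_OZ

set_option autoImplicit false

/-!
SC project (helper74): zeta times a positive power of the factor of the functional equation against the weights.
Port of `Pool.Agent.TH914.LS_OZ`.
-/

namespace Pool.Agent.Run7.h74.SC

open Finset Filter Topology MeasureTheory MonoidAlgebra
open Pool.Agent.W184.NZ
open Pool.Agent.TH806 Pool.Agent.TH806.LK Pool.Agent.TH806.LS
open Pool.Agent.TH263.LK_AV1 (ev_cont ev_le)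
open Pool.Agent.TH986.LK_B (swap2 dbl_le hh_bd norm_e len_le FF FF_cont FF_bd DK_sq)
open Pool.Agent.TH914.LS_OZ (Bz PB_Bz FZ FZ_cont FZ_bd DKz_sq Ex ex_prod prod_bd' len4_le)
open Pool.Agent.H306R2.SM (om cl Yf)
open Pool.Agent.H262R4.TM (Rng Ck)

noncomputable section

/-- the density times a function of the size of zeta is integrable -/
theorem z_int {Z : ℝ → ℂ} (hZ : Continuous Z) (hn : ∀ t, ‖Z t‖ = ‖riemannZeta (cl t)‖) (κ : ℕ) {δ : ℝ}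
    (hδ : 0 < δ) :
    Integrable (fun t : ℝ => ((om κ δ t : ℝ) : ℂ) * Z t) (volume.restrict (Set.Ioi 0)) := by
  have h2 := Pool.Agent.H262R4.TM.TTW.int2 κ hδ
  have h0 := om_int0 κ hδ
  refine Integrable.mono' (h0.add h2) ?_ ?_
  · exact ((Complex.continuous_ofReal.comp (Pool.Agent.H262R4.TM.TTW.om_cont κ δ)).mul hZ).aestronglyMeasurable
  · refine (ae_restrict_iff' measurableSet_Ioi).mpr (Eventually.of_forall fun t ht => ?_)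
    have ht0 : (0:ℝ) ≤ t := le_of_lt ht
    have h1 := om_nn κ hδ ht0
    have h4 : ‖riemannZeta (cl t)‖ ≤ 1 + ‖riemannZeta (cl t)‖ ^ 2 := by
      nlinarith [norm_nonneg (riemannZeta (cl t)), sq_nonneg (‖riemannZeta (cl t)‖ - 1)]
    rw [norm_mul, hn, Complex.norm_real, Real.norm_of_nonneg h1]
    simp only [Pi.add_apply]
    calc om κ δ t * ‖riemannZeta (cl t)‖ ≤ om κ δ t * (1 + ‖riemannZeta (cl t)‖ ^ 2) :=
          mul_le_mul_of_nonneg_left h4 h1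
      _ = _ := by ring

theorem int_z {Z : ℝ → ℂ} (hZ : Continuous Z) (hn : ∀ t, ‖Z t‖ = ‖riemannZeta (cl t)‖) (κ : ℕ) {δ : ℝ}
    (hδ : 0 < δ) {g : ℝ → ℂ} {B : ℝ} (hg : Continuous g) (hB : ∀ t, ‖g t‖ ≤ B) :
    IntegrableOn (fun t : ℝ => ((om κ δ t : ℝ) : ℂ) * (Z t * g t)) (Set.Ioi 0) := by
  have h := (z_int hZ hn κ hδ).mul_bdd (c := B) hg.aestronglyMeasurable (Eventually.of_forall hB)
  refine h.congr (Eventually.of_forall fun t => ?_)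
  simp only
  ring

/-- one element of the algebra -/
theorem one_eltz {T : ℝ} {κ : ℕ} (hδ : 0 < (κ : ℝ) / T) {Z : ℝ → ℂ} (hZ : Continuous Z)
    (hn : ∀ t, ‖Z t‖ = ‖riemannZeta (cl t)‖)
    (hO : ∀ h l : ℕ, 1 ≤ h → 1 ≤ l →
      (h : ℝ) ≤ T ^ (1 / 100 : ℝ) → (l : ℝ) ≤ T ^ (1 / 100 : ℝ) →
      ‖∫ t in Set.Ioi (0 : ℝ), ((om κ (κ / T) t : ℝ) : ℂ) * (Z t * mh t (h, l))‖ ≤
        T ^ (-(1 / 8) : ℝ))
    {N : ℝ} (hN : N ≤ T ^ (1 / 100 : ℝ)) {M : DA} (hM : Bd N M) :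
    ‖∫ t in Set.Ioi (0 : ℝ), ((om κ (κ / T) t : ℝ) : ℂ) * (Z t * ev t M)‖ ≤
      T ^ (-(1 / 8) : ℝ) * l1 M := by
  have e1 : ∀ t : ℝ, ((om κ (κ / T) t : ℝ) : ℂ) * (Z t * ev t M) =
      ∑ x ∈ M.coeff.support, (M.coeff x : ℂ) *
        (((om κ (κ / T) t : ℝ) : ℂ) * (Z t * mh t x)) := by
    intro t
    rw [ev_apply, mul_sum, mul_sum]
    refine sum_congr rfl fun x _ => ?_
    ring
  have hi : ∀ x ∈ M.coeff.support, Integrable (fun t : ℝ => (M.coeff x : ℂ) *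
        (((om κ (κ / T) t : ℝ) : ℂ) * (Z t * mh t x)))
        (volume.restrict (Set.Ioi 0)) := by
    intro x hx
    refine Integrable.const_mul ?_ _
    exact int_z hZ hn κ hδ (mh_cont (hM x hx).1.1 (hM x hx).1.2) (B := 1)
      fun t => mh_norm_le (hM x hx).1.1 (hM x hx).1.2
  rw [integral_congr_ae (Eventually.of_forall e1), integral_finsetSum _ hi, l1, mul_sum]
  refine (norm_sum_le _ _).trans (sum_le_sum fun x hx => ?_)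
  rw [integral_const_mul, norm_mul, Complex.norm_real, Real.norm_eq_abs,
    mul_comm (T ^ (-(1 / 8) : ℝ))]
  refine mul_le_mul_of_nonneg_left ?_ (abs_nonneg _)
  have h := hM x hx
  exact hO x.1 x.2 (Nat.pos_of_ne_zero h.1.1) (Nat.pos_of_ne_zero h.1.2) (h.2.1.trans hN)
    (h.2.2.trans hN)

/-- a product of polynomials -/
theorem ex_eltz {T : ℝ} {κ : ℕ} (hδ : 0 < (κ : ℝ) / T) (hT : 0 < T) {Z : ℝ → ℂ} (hZ : Continuous Z)
    (hn : ∀ t, ‖Z t‖ = ‖riemannZeta (cl t)‖)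
    (hO : ∀ h l : ℕ, 1 ≤ h → 1 ≤ l →
      (h : ℝ) ≤ T ^ (1 / 100 : ℝ) → (l : ℝ) ≤ T ^ (1 / 100 : ℝ) →
      ‖∫ t in Set.Ioi (0 : ℝ), ((om κ (κ / T) t : ℝ) : ℂ) * (Z t * mh t (h, l))‖ ≤
        T ^ (-(1 / 8) : ℝ))
    {N L : ℝ} (hN : N ≤ T ^ (1 / 100 : ℝ)) {F : ℝ → ℂ} (hF : Ex N L F) :
    ‖∫ t in Set.Ioi (0 : ℝ), ((om κ (κ / T) t : ℝ) : ℂ) * (Z t * F t)‖ ≤
      T ^ (-(1 / 8) : ℝ) * L := by
  obtain ⟨ι, s, a, M, h1, h2, h4⟩ := hF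
  have e1 : ∀ t : ℝ, ((om κ (κ / T) t : ℝ) : ℂ) * (Z t * F t) =
      ∑ x ∈ s, a x * (((om κ (κ / T) t : ℝ) : ℂ) * (Z t * ev t (M x))) := by
    intro t
    rw [h2 t, mul_sum, mul_sum]
    refine sum_congr rfl fun x _ => ?_
    ring
  have hi : ∀ x ∈ s, Integrable (fun t : ℝ => a x *
        (((om κ (κ / T) t : ℝ) : ℂ) * (Z t * ev t (M x))))
        (volume.restrict (Set.Ioi 0)) := by
    intro x hx
    refine Integrable.const_mul ?_ _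
    exact int_z hZ hn κ hδ (ev_cont (h1 x hx)) (B := l1 (M x)) fun t => ev_le (h1 x hx) t
  rw [integral_congr_ae (Eventually.of_forall e1), integral_finsetSum _ hi]
  calc ‖∑ x ∈ s, ∫ t in Set.Ioi (0:ℝ), a x *
        (((om κ (κ / T) t : ℝ) : ℂ) * (Z t * ev t (M x)))‖
      ≤ ∑ x ∈ s, ‖a x‖ * (T ^ (-(1 / 8) : ℝ) * l1 (M x)) := by
        refine (norm_sum_le _ _).trans (sum_le_sum fun x hx => ?_)
        rw [integral_const_mul, norm_mul]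
        exact mul_le_mul_of_nonneg_left (one_eltz hδ hZ hn hO hN (h1 x hx)) (norm_nonneg _)
    _ = T ^ (-(1 / 8) : ℝ) * ∑ x ∈ s, ‖a x‖ * l1 (M x) := by
        rw [mul_sum]
        refine sum_congr rfl fun x _ => ?_
        ring
    _ ≤ T ^ (-(1 / 8) : ℝ) * L := mul_le_mul_of_nonneg_left h4 (by positivity)

/-- products of block polynomials -/
theorem z_prod {T : ℝ} {κ : ℕ} (hδ : 0 < (κ : ℝ) / T) (hT1 : 1 < T) {Z : ℝ → ℂ} (hZ : Continuous Z)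
    (hn : ∀ t, ‖Z t‖ = ‖riemannZeta (cl t)‖)
    (hO : ∀ h l : ℕ, 1 ≤ h → 1 ≤ l →
      (h : ℝ) ≤ T ^ (1 / 100 : ℝ) → (l : ℝ) ≤ T ^ (1 / 100 : ℝ) →
      ‖∫ t in Set.Ioi (0 : ℝ), ((om κ (κ / T) t : ℝ) : ℂ) * (Z t * mh t (h, l))‖ ≤
        T ^ (-(1 / 8) : ℝ))
    {c : ℝ} {J : ℕ} {I : ℕ → Finset ℕ} {b : ℕ → ℝ} {K : ℕ → ℕ} {f : ℕ → ℂ → ℂ} (hR : Rg c J I b)
    (hf : ∀ i < J, 1 ≤ K i ∧ PB (K i) (f i))
    (hlen : ∑ i ∈ range J, (K i : ℝ) * Real.log (b i) ≤ 1 / 300 * Real.log T) :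
    ‖∫ t in Set.Ioi (0:ℝ), ((om κ (κ / T) t : ℝ) : ℂ) * (Z t * ∏ i ∈ range J, f i (zz I t i))‖ ≤
      T ^ (-(1 / 8) : ℝ) * T ^ (1 / 100 : ℝ) := by
  have hT0 : 0 < T := by linarith
  have hex := ex_prod hR hf J le_rfl
  have hN := prod_bd' hR.b10 K 2 hT1 hlen
  have hL := prod_bd' hR.b10 K 3 hT1 hlen
  have e2 : T ^ (((2:ℕ):ℝ) * (1 / 300)) ≤ T ^ (1 / 100 : ℝ) :=
    Real.rpow_le_rpow_of_exponent_le hT1.le (by norm_num)
  have e3 : T ^ (((3:ℕ):ℝ) * (1 / 300)) = T ^ (1 / 100 : ℝ) := by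
    congr 1; norm_num
  rw [e3] at hL
  refine (ex_eltz hδ hT0 hZ hn hO (hN.trans e2) hex).trans ?_
  exact mul_le_mul_of_nonneg_left hL (by positivity)

/-- Fubini for the double Fourier integral with a bound for the inner means -/
theorem four_bd {W : ℝ → ℂ} (hW : Integrable W (volume.restrict (Set.Ioi (0:ℝ)))) {G : ℝ → ℝ → ℝ → ℂ} {u B M : ℝ}
    (hG : Continuous fun x : ℝ × ℝ × ℝ => ((hh x.2.1 * hh x.2.2 : ℝ) : ℂ) *
      (Complex.exp (-(((x.2.1 + x.2.2) * u : ℝ) : ℂ) * Complex.I) * G x.1 x.2.1 x.2.2))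
    (hB : ∀ t, ∀ θ₁ ∈ Set.Icc (-1:ℝ) 1, ∀ θ₂ ∈ Set.Icc (-1:ℝ) 1, ‖((hh θ₁ * hh θ₂ : ℝ) : ℂ) *
      (Complex.exp (-(((θ₁ + θ₂) * u : ℝ) : ℂ) * Complex.I) * G t θ₁ θ₂)‖ ≤ B)
    (hin : ∀ θ₁ θ₂ : ℝ, |θ₁| ≤ 1 → |θ₂| ≤ 1 → ‖∫ t in Set.Ioi (0:ℝ), W t * G t θ₁ θ₂‖ ≤ M)
    {A : ℝ → ℂ} (hA : ∀ t, A t = ∫ θ₁ in (-1:ℝ)..1, ∫ θ₂ in (-1:ℝ)..1, ((hh θ₁ * hh θ₂ : ℝ) : ℂ) *
      (Complex.exp (-(((θ₁ + θ₂) * u : ℝ) : ℂ) * Complex.I) * G t θ₁ θ₂)) :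
    ‖∫ t in Set.Ioi (0:ℝ), W t * A t‖ ≤ 4 * M := by
  have hsw := swap2 (F := fun t θ₁ θ₂ => ((hh θ₁ * hh θ₂ : ℝ) : ℂ) *
      (Complex.exp (-(((θ₁ + θ₂) * u : ℝ) : ℂ) * Complex.I) * G t θ₁ θ₂)) hW hG hB
  simp_rw [hA]
  rw [hsw.1]
  refine (dbl_le (G := fun _ _ => M) (by fun_prop) fun θ₁ h1 θ₂ h2 => ?_).trans ?_
  · have e1 : ∀ t : ℝ, W t * (((hh θ₁ * hh θ₂ : ℝ) : ℂ) *
        (Complex.exp (-(((θ₁ + θ₂) * u : ℝ) : ℂ) * Complex.I) * G t θ₁ θ₂)) =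
        (((hh θ₁ * hh θ₂ : ℝ) : ℂ) * Complex.exp (-(((θ₁ + θ₂) * u : ℝ) : ℂ) * Complex.I)) *
        (W t * G t θ₁ θ₂) := by
      intro t; ring
    simp_rw [e1]
    rw [integral_const_mul, norm_mul, norm_mul, norm_e, mul_one, Complex.norm_real, Real.norm_eq_abs, abs_mul,
      abs_of_nonneg (hh_bd h1).1, abs_of_nonneg (hh_bd h2).1]
    have h3 := hin θ₁ θ₂ (abs_le.mpr h1) (abs_le.mpr h2)
    have h4 : hh θ₁ * hh θ₂ ≤ 1 := mul_le_one₀ (hh_bd h1).2 (hh_bd h2).1 (hh_bd h2).2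
    calc _ ≤ 1 * ‖∫ t in Set.Ioi (0:ℝ), W t * G t θ₁ θ₂‖ :=
            mul_le_mul_of_nonneg_right h4 (norm_nonneg _)
      _ = _ := one_mul _
      _ ≤ _ := h3
  · refine le_of_eq ?_
    simp only [intervalIntegral.integral_const, smul_eq_mul]
    ring

/-- the two kinds of weights -/
def WQ (n Rs J : ℕ) (I : ℕ → Finset ℕ) (a b u t : ℝ) : ℝ :=
  ‖AQ n Rs J a (zz I t)‖ * ‖AQ n Rs J b (zz I t)‖ * ‖DK n Rs J hh u (zz I t)‖ ^ 2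

/-- the complex weight -/
def WD (n Rs J : ℕ) (I : ℕ → Finset ℕ) (a b u t : ℝ) : ℂ :=
  AZ n Rs J a (zz I t) * starRingEnd ℂ (AZ n Rs J b (zz I t)) * ((‖DK n Rs J hh u (zz I t)‖ ^ 2 : ℝ) : ℂ)

/-- the harmonics of positive order against the weights -/
theorem t_HJ (j : ℕ) (hj : 1 ≤ j) (n : ℕ) (hn : 1 ≤ n) (Rs : ℕ) (hRs : 1 ≤ Rs) : ∀ᶠ T : ℝ in atTop,
    ∀ κ : ℕ, Rng T κ → ∀ (c e : ℝ) (P₀ : ℕ) (y : ℝ) (J : ℕ) (I : ℕ → Finset ℕ), Cfg c e P₀ y J I →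
      n * ((Rs:ℝ) + 1) * Real.log y ≤ 1 / 96000 * Real.log T → ∀ a b u : ℝ, |a| ≤ n → |b| ≤ n →
        ‖∫ t in Set.Ioi (0:ℝ), ((om κ (κ / T) t : ℝ) : ℂ) * (Zj j t * ((WQ n Rs J I a b u t : ℝ) : ℂ))‖ ≤
          T ^ (-(1 / 16) : ℝ) ∧
        ‖∫ t in Set.Ioi (0:ℝ), ((om κ (κ / T) t : ℝ) : ℂ) * (Zj j t * WD n Rs J I a b u t)‖ ≤
          T ^ (-(1 / 16) : ℝ) := by
  have hn0 : (1:ℝ) ≤ n := by exact_mod_cast hn
  have hbig : ∀ᶠ T : ℝ in atTop, 4 ≤ T ^ (1 / 100 : ℝ) :=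
    (tendsto_rpow_atTop (by norm_num : (0:ℝ) < 1 / 100)).eventually_ge_atTop _
  filter_upwards [t_TW j hj, hbig, eventually_gt_atTop (3:ℝ)]
    with T hT hbT hT3 κ hκ c e P₀ y J I hCfg hlen a b u ha hb
  have hI : ∀ i, ∀ p ∈ I i, p.Prime := fun i p hp => (hCfg.rg.pr i p hp).1
  have hT0 : 0 < T := by linarith
  have hT1 : 1 < T := by linarith
  have hlogT : 0 < Real.log T := Real.log_pos hT1
  have hk0 : (0:ℝ) < κ := lt_of_lt_of_le (by positivity) hκ.1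
  have hδ : 0 < (κ:ℝ) / T := by positivity
  have hO' := hT κ hκ
  have hWc := z_int (Zj_cont j) (Zj_norm j) κ hδ
  have hfin : 4 * (T ^ (-(1 / 8) : ℝ) * T ^ (1 / 100 : ℝ)) ≤ T ^ (-(1 / 16) : ℝ) := by
    calc 4 * (T ^ (-(1 / 8) : ℝ) * T ^ (1 / 100 : ℝ)) ≤
        T ^ (1 / 100 : ℝ) * (T ^ (-(1 / 8) : ℝ) * T ^ (1 / 100 : ℝ)) := by gcongr
      _ = T ^ ((1 / 100 : ℝ) + (-(1 / 8) + 1 / 100)) := by
          rw [Real.rpow_add hT0, Real.rpow_add hT0]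
      _ ≤ T ^ (-(1 / 16) : ℝ) := Real.rpow_le_rpow_of_exponent_le hT1.le (by norm_num)
  have hKn : ∀ i, n + 1 ≤ KK n Rs i := by
    intro i
    unfold KK RR
    nlinarith [Nat.zero_le i, Nat.zero_le (n * i), Nat.mul_le_mul hn hRs]
  constructor
  · have hlen2 : ∑ i ∈ range J, ((4 * KK n Rs i : ℕ) : ℝ) * Real.log (bb y i) ≤ 1 / 300 * Real.log T := by
      refine (len4_le (by linarith [hCfg.y1]) n Rs J).trans ?_
      linarith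
    obtain ⟨B, hB⟩ := FZ_bd n Rs J hI a b u
    have h := four_bd (W := fun t => ((om κ (κ / T) t : ℝ) : ℂ) * Zj j t) hWc
      (G := fun t θ₁ θ₂ => ∏ i ∈ range J, Bz (KK n Rs i) a b θ₁ θ₂ (zz I t i)) (u := u) (B := B)
      (M := T ^ (-(1 / 8) : ℝ) * T ^ (1 / 100 : ℝ)) (FZ_cont n Rs J hI a b u) hB (fun θ₁ θ₂ h1 h2 => by
        have := z_prod hδ hT1 (Zj_cont j) (Zj_norm j) hO' (K := fun i => 4 * KK n Rs i)
          (f := fun i => Bz (KK n Rs i) a b θ₁ θ₂) hCfg.rg (fun i _ => by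
            have := hKn i
            exact ⟨by omega, PB_Bz (hKn i) ha hb h1 h2⟩) hlen2
        refine (le_of_eq ?_).trans this
        congr 2
        funext t
        ring) (A := fun t => ((WQ n Rs J I a b u t : ℝ) : ℂ)) (fun t => by
        unfold WQ
        exact DKz_sq n Rs J a b u (zz I t))
    refine (le_of_eq ?_).trans (h.trans hfin)
    congr 2
    funext t
    ring
  · have hlen3 : ∑ i ∈ range J, ((3 * KK n Rs i : ℕ) : ℝ) * Real.log (bb y i) ≤ 1 / 300 * Real.log T := by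
      refine (len_le (by linarith [hCfg.y1]) n Rs J).trans ?_
      have : 0 ≤ 1 / 96000 * Real.log T := by positivity
      linarith
    obtain ⟨B, hB⟩ := FF_bd n Rs J hI a b u
    have h := four_bd (W := fun t => ((om κ (κ / T) t : ℝ) : ℂ) * Zj j t) hWc
      (G := fun t θ₁ θ₂ => ∏ i ∈ range J, BF (KK n Rs i) a b θ₁ θ₂ (zz I t i)) (u := u) (B := B)
      (M := T ^ (-(1 / 8) : ℝ) * T ^ (1 / 100 : ℝ)) (FF_cont n Rs J hI a b u) hB (fun θ₁ θ₂ h1 h2 => by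
        have := z_prod hδ hT1 (Zj_cont j) (Zj_norm j) hO' (K := fun i => 3 * KK n Rs i)
          (f := fun i => BF (KK n Rs i) a b θ₁ θ₂) hCfg.rg (fun i _ => by
            have h0 := hKn i
            obtain ⟨q1, _, _, _, _, _⟩ := Pool.Agent.TH328.LK_ALG.t_ALG.2.2.2 n (KK n Rs i) 1 a b θ₁ θ₂ hn
              (hKn i) le_rfl ha hb h1 h2
            refine ⟨by omega, Pool.Agent.TH328.LK_ALG.t_ALG.1 _ _ _ (by positivity) ?_ q1⟩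
            have : ((n + 1 : ℕ) : ℝ) ≤ KK n Rs i := by exact_mod_cast hKn i
            push_cast at this ⊢
            linarith) hlen3
        refine (le_of_eq ?_).trans this
        congr 2
        funext t
        ring) (A := fun t => WD n Rs J I a b u t) (fun t => by
        unfold WD
        exact DK_sq n Rs J a b u (zz I t))
    refine (le_of_eq ?_).trans (h.trans hfin)
    congr 2
    funext t
    ring

end

end Pool.Agent.Run7.h74.SC
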