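import Pool.Agent.Run7.h74.SC.Low

set_option autoImplicit false

/-!
SC project (helper74): the even and the odd part of the sector function, and the pointwise inequality.
-/

namespace Pool.Agent.Run7.h74.SC

open Finset Filter Topology MeasureTheory
open Pool.Agent.W184.NZ
open Pool.Agent.TH806 Pool.Agent.TH806.LK Pool.Agent.TH806.LS
open Pool.Agent.H306R2.SM (om cl Yf)
open Pool.Agent.H262R4.TM (Rng Ck)

noncomputable section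

lemma Ysc (c : ℝ) (ω : ℂ) : Continuous fun t => Ys c ω (Zt t) := by
  unfold Ys
  have h := Zt_cont
  fun_prop

lemma Yec (c : ℝ) (ω : ℂ) : Continuous fun t => Ye c ω (Zt t) := by
  unfold Ye
  exact ((Ysc c ω).add (Ysc c (-ω))).div_const 2

lemma Yoc (c : ℝ) (ω : ℂ) : Continuous fun t => Yo c ω (Zt t) := by
  unfold Yo
  exact ((Ysc c ω).sub (Ysc c (-ω))).div_const 2

lemma Qoc (A : ℕ → ℝ) (N : ℕ) (ω : ℂ) : Continuous fun t => Qo A N ω (Zt t) (ph t) := by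
  unfold Qo Hod
  have h := Zt_cont
  have h' := ph_cont
  fun_prop

lemma iXc {κ : ℕ} {T : ℝ} (hδ : 0 < (κ:ℝ) / T) {F G : ℝ → ℝ} {C C' : ℝ} (hC' : 0 < C') (hG : Continuous G)
    (hGX : ∀ t, |G t| ≤ C' * Xz t) (hF : Continuous F) (hC : ∀ t, |F t| ≤ C) :
    IntegrableOn (fun t => om κ (κ / T) t * (G t * F t)) (Set.Ioi 0) := by
  have h := iX hδ (G := fun t => G t / C') (F := fun t => C' * F t) (C := C' * C) (hG.div_const _) (fun t => by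
    rw [abs_div, abs_of_pos hC', div_le_iff₀ hC']
    have := hGX t
    linarith) (continuous_const.mul hF) (fun t => by
    rw [abs_mul, abs_of_pos hC']
    exact mul_le_mul_of_nonneg_left (hC t) hC'.le)
  refine h.congr_fun (fun t _ => ?_) measurableSet_Ioi
  simp only
  field_simp

/-- the odd part is small -/
theorem odd_part (hPT : P_PT) {n Rs J : ℕ} {I : ℕ → Finset ℕ} (hI : ∀ i, ∀ p ∈ I i, p.Prime) {κ : ℕ} {T : ℝ}
    (hδ : 0 < (κ:ℝ) / T) {k u c ηp : ℝ} (hc : 0 ≤ c) (hη : 0 < ηp) {N : ℕ} (A : ℕ → ℝ)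
    (hA : ∀ x ∈ Set.Icc (-1 : ℝ) 1, |(∑ i ∈ range N, A i * x ^ (2 * i + 1)) - go c x| ≤ ηp)
    {ω : ℂ} (hω : ‖ω‖ = 1) {E : ℝ}
    (h : ∀ j < N, ‖∫ t in Set.Ioi (0:ℝ), ((om κ (κ / T) t : ℝ) : ℂ) *
          (Zj j t * ((WQ n Rs J I k (k - 1) u t : ℝ) : ℂ))‖ ≤ E) :
    |∫ t in Set.Ioi (0:ℝ), om κ (κ / T) t * (Yo c ω (Zt t) * WQ n Rs J I k (k - 1) u t)| ≤
      (∑ i ∈ range N, |A i|) * E +
      ηp * (1 / 2 * (∫ t in Set.Ioi (0:ℝ), wz κ T t * AQD n Rs J I (k - 1) u t) +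
        1 / 2 * (∫ t in Set.Ioi (0:ℝ), om κ (κ / T) t * AQD n Rs J I k u t)) := by
  obtain ⟨cW, BW, hBW⟩ := WQ_cont hPT (n := n) (Rs := Rs) (J := J) hI k (k - 1) u
  have hnear : ∀ t, |Qo A N ω (Zt t) (ph t) - Yo c ω (Zt t)| ≤ ηp * Xz t := fun t => by
    rw [← Zt_norm]
    exact Qo_near hA (Zt_ph t) hω
  have hYo : ∀ t, |Yo c ω (Zt t)| ≤ Xz t := fun t => by
    rw [← Zt_norm]
    exact Yo_abs hc hω (Zt t)
  have i1 : IntegrableOn (fun t => om κ (κ / T) t * (Yo c ω (Zt t) * WQ n Rs J I k (k - 1) u t)) (Set.Ioi 0) :=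
    iX hδ (Yoc c ω) hYo cW hBW
  have i2 : IntegrableOn (fun t => om κ (κ / T) t * (Qo A N ω (Zt t) (ph t) * WQ n Rs J I k (k - 1) u t))
      (Set.Ioi 0) := by
    refine iXc hδ (C' := 1 + ηp) (by positivity) (Qoc A N ω) (fun t => ?_) cW hBW
    have h1 := hnear t
    have h2 := hYo t
    have h3 : Qo A N ω (Zt t) (ph t) = (Qo A N ω (Zt t) (ph t) - Yo c ω (Zt t)) + Yo c ω (Zt t) := by ring
    rw [h3]
    refine (abs_add_le _ _).trans ?_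
    linarith
  have i3 : IntegrableOn (fun t => om κ (κ / T) t * (Xz t * WQ n Rs J I k (k - 1) u t)) (Set.Ioi 0) :=
    iX hδ Xz_cont (fun t => by rw [abs_of_nonneg (Xz_nonneg t)]) cW hBW
  have hsm := odd_small hPT hI hδ A hω h
  have hX := up_X hPT (n := n) (Rs := Rs) (J := J) hI hδ (u := u) (k := k)
  have e1 : (∫ t in Set.Ioi (0:ℝ), om κ (κ / T) t * (Yo c ω (Zt t) * WQ n Rs J I k (k - 1) u t)) =
      (∫ t in Set.Ioi (0:ℝ), om κ (κ / T) t * (Qo A N ω (Zt t) (ph t) * WQ n Rs J I k (k - 1) u t)) -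
      ∫ t in Set.Ioi (0:ℝ), (om κ (κ / T) t * (Qo A N ω (Zt t) (ph t) * WQ n Rs J I k (k - 1) u t) -
        om κ (κ / T) t * (Yo c ω (Zt t) * WQ n Rs J I k (k - 1) u t)) := by
    rw [integral_sub i2 i1]; ring
  have h2 : |∫ t in Set.Ioi (0:ℝ), (om κ (κ / T) t * (Qo A N ω (Zt t) (ph t) * WQ n Rs J I k (k - 1) u t) -
        om κ (κ / T) t * (Yo c ω (Zt t) * WQ n Rs J I k (k - 1) u t))| ≤
      ηp * ∫ t in Set.Ioi (0:ℝ), om κ (κ / T) t * (Xz t * WQ n Rs J I k (k - 1) u t) := by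
    rw [← integral_const_mul, ← Real.norm_eq_abs]
    refine norm_integral_le_of_norm_le (i3.const_mul ηp) ?_
    refine (ae_restrict_iff' measurableSet_Ioi).mpr (Eventually.of_forall fun t ht => ?_)
    have hom : 0 ≤ om κ (κ / T) t := om_nn κ hδ (le_of_lt ht)
    have hW := WQ_nonneg n Rs J I k (k - 1) u t
    have h3 : om κ (κ / T) t * (Qo A N ω (Zt t) (ph t) * WQ n Rs J I k (k - 1) u t) -
        om κ (κ / T) t * (Yo c ω (Zt t) * WQ n Rs J I k (k - 1) u t) =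
        om κ (κ / T) t * WQ n Rs J I k (k - 1) u t * (Qo A N ω (Zt t) (ph t) - Yo c ω (Zt t)) := by ring
    rw [h3, Real.norm_eq_abs, abs_mul, abs_of_nonneg (mul_nonneg hom hW)]
    calc om κ (κ / T) t * WQ n Rs J I k (k - 1) u t * |Qo A N ω (Zt t) (ph t) - Yo c ω (Zt t)| ≤
        om κ (κ / T) t * WQ n Rs J I k (k - 1) u t * (ηp * Xz t) :=
          mul_le_mul_of_nonneg_left (hnear t) (mul_nonneg hom hW)
      _ = _ := by ring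
  rw [e1]
  refine (abs_sub _ _).trans (add_le_add hsm (h2.trans (mul_le_mul_of_nonneg_left hX hη.le)))

/-- the even part is large -/
theorem even_part (hPT : P_PT) {n Rs J : ℕ} {I : ℕ → Finset ℕ} (hI : ∀ i, ∀ p ∈ I i, p.Prime) (hn : 1 ≤ n)
    (hRs : 1 ≤ Rs) {κ : ℕ} {T : ℝ} (hδ : 0 < (κ:ℝ) / T) {k u c ηp lam : ℝ} (hk : |k| + 1 ≤ n) (hlam : 0 < lam)
    (hc : 0 ≤ c) (hη : 0 < ηp) {N : ℕ} (A : ℕ → ℝ)
    (hA : ∀ x ∈ Set.Icc (-1 : ℝ) 1, |(∑ i ∈ range N, A i * x ^ (2 * i)) - ge c x| ≤ ηp) (hm : ηp ≤ mc c / 2)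
    {ω : ℂ} (hω : ‖ω‖ = 1) {E : ℝ} (hE : 0 ≤ E)
    (h1 : ∀ j < N, ‖∫ t in Set.Ioi (0:ℝ), ((om κ (κ / T) t : ℝ) : ℂ) * (Zj j t * WD n Rs J I k (k - 1) u t)‖ ≤ E)
    (h2 : ∀ j < N, 1 ≤ j →
      ‖∫ t in Set.Ioi (0:ℝ), ((om κ (κ / T) t : ℝ) : ℂ) * (Zj j t * WD n Rs J I (k - 1) k u t)‖ ≤ E) :
    mc c / 2 * ‖∫ t in Set.Ioi (0:ℝ), ((om κ (κ / T) t : ℝ) : ℂ) * (Zt t * WD n Rs J I (k - 1) k u t)‖ ≤
      64 * (∫ t in Set.Ioi (0:ℝ), om κ (κ / T) t * (Ye c ω (Zt t) * WQ n Rs J I k (k - 1) u t)) +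
      (lam / 2 + ηp / 2) * (∫ t in Set.Ioi (0:ℝ), wz κ T t * AD n Rs J I (k - 1) u t) +
      ηp / 2 * (∫ t in Set.Ioi (0:ℝ), om κ (κ / T) t * AD n Rs J I k u t) +
      1 / (2 * lam) * (∑ i ∈ range J, ∫ t in Set.Ioi (0:ℝ), om κ (κ / T) t *
        ((‖zz I t i‖ / RR Rs i) ^ (2 * RR Rs i) * AD n Rs J I k u t)) + (∑ i ∈ range N, |A i|) * E := by
  have hmain := even_main hPT hI hδ (a := k - 1) (b := k) (u := u) A hω hE h1 h2
  have hlow := low_G hPT hI hn hRs hδ (u := u) hk hlam hη.le (Q := fun t => Qe A N ω (Zt t) (ph t))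
    (G := fun t => Ye c ω (Zt t)) (J := J) (Yec c ω) (fun t => Ye_nonneg c ω _) (fun t => by
      rw [← Zt_norm]; exact Ye_le hc hω _) (fun t => by
      rw [← Zt_norm]
      exact Qe_near hA (Zt_ph t) (ph_norm t) hω)
  have hb := coeff_zero hA
  set b0 := ∑ i ∈ range N, A i * (((2 * i).choose i : ℝ) / 2 ^ (2 * i)) with hb0
  set M := ∫ t in Set.Ioi (0:ℝ), ((om κ (κ / T) t : ℝ) : ℂ) * (Zt t * WD n Rs J I (k - 1) k u t) with hM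
  set L := ∫ t in Set.Ioi (0:ℝ), ((om κ (κ / T) t : ℝ) : ℂ) * (Qe A N ω (Zt t) (ph t) * WD n Rs J I (k - 1) k u t)
    with hL
  have h3 : mc c / 2 * ‖M‖ ≤ ‖(b0 : ℂ) * M‖ := by
    rw [norm_mul, Complex.norm_real, Real.norm_eq_abs]
    refine mul_le_mul_of_nonneg_right ?_ (norm_nonneg _)
    exact le_trans (by linarith) (le_abs_self b0)
  have h4 : ‖(b0 : ℂ) * M‖ ≤ ‖L‖ + ‖L - (b0 : ℂ) * M‖ := by
    have e : (b0 : ℂ) * M = L - (L - (b0 : ℂ) * M) := by ring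
    calc ‖(b0 : ℂ) * M‖ = ‖L - (L - (b0 : ℂ) * M)‖ := by rw [← e]
      _ ≤ _ := norm_sub_le _ _
  linarith

/-- the sector -/
def Sec (ρ : ℝ) (ω : ℂ) : Set ℝ := {t | ‖Zt t - ω * (Xz t : ℂ)‖ < ρ * Xz t}

lemma Sec_meas (ρ : ℝ) (ω : ℂ) : MeasurableSet (Sec ρ ω) := by
  have h := Zt_cont
  have h' := Xz_cont
  have h1 : Continuous fun t => ‖Zt t - ω * (Xz t : ℂ)‖ := by fun_prop
  have h2 : Continuous fun t => ρ * Xz t := by fun_prop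
  exact measurableSet_lt h1.measurable h2.measurable

lemma Ys_Sec {ρ : ℝ} (hρ : 0 < ρ) {ω : ℂ} (hω : ‖ω‖ = 1) {t : ℝ} (h : t ∉ Sec ρ ω) :
    Ys (1 - ρ ^ 2 / 2) ω (Zt t) = 0 := Ys_zero hρ hω h

/-- the whole sector function -/
theorem sec_low (hPT : P_PT) {n Rs J : ℕ} {I : ℕ → Finset ℕ} (hI : ∀ i, ∀ p ∈ I i, p.Prime) {κ : ℕ} {T : ℝ}
    (hδ : 0 < (κ:ℝ) / T) {k u c : ℝ} (hc : 0 ≤ c) {ω : ℂ} (hω : ‖ω‖ = 1) :
    (∫ t in Set.Ioi (0:ℝ), om κ (κ / T) t * (Ye c ω (Zt t) * WQ n Rs J I k (k - 1) u t)) -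
      |∫ t in Set.Ioi (0:ℝ), om κ (κ / T) t * (Yo c ω (Zt t) * WQ n Rs J I k (k - 1) u t)| ≤
    ∫ t in Set.Ioi (0:ℝ), om κ (κ / T) t * (Ys c ω (Zt t) * WQ n Rs J I k (k - 1) u t) := by
  obtain ⟨cW, BW, hBW⟩ := WQ_cont hPT (n := n) (Rs := Rs) (J := J) hI k (k - 1) u
  have i1 : IntegrableOn (fun t => om κ (κ / T) t * (Yo c ω (Zt t) * WQ n Rs J I k (k - 1) u t)) (Set.Ioi 0) :=
    iX hδ (Yoc c ω) (fun t => by rw [← Zt_norm]; exact Yo_abs hc hω (Zt t)) cW hBW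
  have i2 : IntegrableOn (fun t => om κ (κ / T) t * (Ye c ω (Zt t) * WQ n Rs J I k (k - 1) u t)) (Set.Ioi 0) :=
    iX hδ (Yec c ω) (fun t => by
      rw [← Zt_norm, abs_of_nonneg (Ye_nonneg c ω _)]; exact Ye_le hc hω (Zt t)) cW hBW
  have e1 : (∫ t in Set.Ioi (0:ℝ), om κ (κ / T) t * (Ys c ω (Zt t) * WQ n Rs J I k (k - 1) u t)) =
      (∫ t in Set.Ioi (0:ℝ), om κ (κ / T) t * (Ye c ω (Zt t) * WQ n Rs J I k (k - 1) u t)) +
      ∫ t in Set.Ioi (0:ℝ), om κ (κ / T) t * (Yo c ω (Zt t) * WQ n Rs J I k (k - 1) u t) := by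
    rw [← integral_add i2 i1]
    congr 1
    funext t
    rw [Ys_split]
    ring
  rw [e1]
  have := neg_abs_le (∫ t in Set.Ioi (0:ℝ), om κ (κ / T) t * (Yo c ω (Zt t) * WQ n Rs J I k (k - 1) u t))
  linarith

end

end Pool.Agent.Run7.h74.SC
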