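import Pool.Agent.Run7.h74.SC.Chi
import Pool.Agent.TH959.LK_ZM

set_option autoImplicit false

/-!
SC project (helper74): zeta times a positive power of the factor of the functional equation has
no mean value against short Dirichlet polynomials (shift of the contour to the right).
-/

namespace Pool.Agent.Run7.h74.SC

open Complex Filter Topology MeasureTheory
open Pool.Agent.H306R2.SM (om cl ef)
open Pool.Agent.H262R4.TM (Rng)
open Pool.Agent.W184.NZ (mh)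
open Pool.Agent.H831R2.SMT5 (Wf Wf_cl Wf_differentiable Wf_norm_le om_nonneg mj mj_tendsto shift
  om_shift_integrable om_mul_integrable ef_continuous ef_norm cl_re cl_im cl_sub_one cl_ne_one cl_continuous)

noncomputable section

/-- zeta times a power of the factor on the critical line -/
def Zj (j : ℕ) (t : ℝ) : ℂ := riemannZeta (cl t) * ph t ^ j

lemma zcl_cont : Continuous fun t : ℝ => riemannZeta (cl t) := by
  rw [continuous_iff_continuousAt]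
  intro t
  exact ContinuousAt.comp (differentiableAt_riemannZeta (cl_ne_one t)).continuousAt
    cl_continuous.continuousAt

lemma Zj_cont (j : ℕ) : Continuous (Zj j) := zcl_cont.mul (ph_cont.pow j)

lemma Zj_norm (j : ℕ) (t : ℝ) : ‖Zj j t‖ = ‖riemannZeta (cl t)‖ := by
  unfold Zj
  rw [norm_mul, norm_pow, ph_norm, one_pow, mul_one]

/-- the analytic integrand -/
def gj (j k : ℕ) (δ θ : ℝ) (s : ℂ) : ℂ :=
  Wf k δ s * (riemannZeta s * ch s ^ j) * cexp ((s - 1 / 2) * (θ : ℂ))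

lemma gj_cl (j k : ℕ) (δ θ t : ℝ) :
    gj j k δ θ (cl t) = (om k δ t : ℂ) * (Zj j t * ef θ t) := by
  unfold gj ef Zj ph
  rw [Wf_cl, mul_assoc]
  congr 3
  unfold cl
  push_cast
  ring

lemma zeta_gr (s : ℂ) (h1 : 1 / 2 ≤ s.re) (h2 : s.re ≤ 3) (h3 : 0 ≤ s.im) (h4 : 1 / 2 ≤ ‖s - 1‖) :
    ‖riemannZeta s‖ ≤ 216 * 4 ^ 6 * (1 + s.im) ^ 6 := by
  have h := Pool.Agent.TH959.LK_ZM.gg_norm_le 0 s h1 h2 h3 h4
  have e : Pool.Agent.TH959.LK_ZM.gg 0 s = riemannZeta s := by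
    unfold Pool.Agent.TH959.LK_ZM.gg Pool.Agent.TH959.LK_ZM.Pp
    simp
  rw [e] at h
  simpa using h

lemma zeta_right (s : ℂ) (hs : s.re = 3) : ‖riemannZeta s‖ ≤ Pool.Agent.TH959.LK_ZM.C2 := by
  have h := Pool.Agent.TH959.LK_ZM.gg_right 1 one_pos s hs
  have e : Pool.Agent.TH959.LK_ZM.gg 1 s = riemannZeta s := by
    unfold Pool.Agent.TH959.LK_ZM.gg Pool.Agent.TH959.LK_ZM.Pp
    simp [Pool.Agent.TH959.LK_ZM.d1_zero]
  rw [e] at h
  simpa using h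

lemma gj_norm_le {C : ℝ} (hC : 1 ≤ C)
    (hb : ∀ s : ℂ, 1 / 2 ≤ s.re → s.re ≤ 3 → 1 ≤ s.im → ‖ch s‖ ≤ C ∧ (s.re = 3 → ‖ch s‖ ≤ C / s.im))
    (j k : ℕ) (δ θ : ℝ) (hδ : 0 < δ) (n : ℕ) (hn : 1 ≤ n) (hθ : θ ≤ Real.log n) (s : ℂ)
    (h1 : 1 / 2 ≤ s.re) (h2 : s.re ≤ 3) (h3 : 1 ≤ s.im) : ‖gj j k δ θ s‖ ≤ C ^ j * mj k δ n 0 s.im := by
  have h4 : 1 / 2 ≤ ‖s - 1‖ := by
    have h := Complex.abs_im_le_norm (s - 1)
    have e : (s - 1).im = s.im := by simp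
    rw [e, abs_of_nonneg (by linarith)] at h
    linarith
  unfold gj
  rw [norm_mul, norm_mul, norm_mul, norm_pow]
  have hW := Wf_norm_le k δ hδ.le s h1 h2 (by linarith)
  have hG := zeta_gr s h1 h2 (by linarith) h4
  have hE := Pool.Agent.TH959.LK_ZM.exp_norm n hn hθ s h1 h2
  have hc := (hb s h1 h2 h3).1
  have hom : 0 ≤ om k δ (s.im + 5 / 2) := om_nonneg k δ _ hδ.le (by linarith)
  calc ‖Wf k δ s‖ * (‖riemannZeta s‖ * ‖ch s‖ ^ j) * ‖cexp ((s - 1 / 2) * (θ : ℂ))‖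
      ≤ (Real.exp (5 / 2 * δ) * om k δ (s.im + 5 / 2)) *
          ((216 * 4 ^ 6 * (1 + s.im) ^ 6) * C ^ j) * (n : ℝ) ^ (5 / 2 : ℝ) := by
        gcongr
    _ ≤ (Real.exp (5 / 2 * δ) * om k δ (s.im + 5 / 2)) *
          ((216 * 4 ^ 6 * (s.im + 5 / 2) ^ 6) * C ^ j) * (n : ℝ) ^ (5 / 2 : ℝ) := by
        gcongr _ * ((_ * ?_ ^ 6) * _) * _
        linarith
    _ = C ^ j * mj k δ n 0 s.im := by
        unfold mj om
        rw [pow_add (s.im + 5 / 2) k 6]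
        push_cast
        ring

lemma gj_diff (j k : ℕ) (δ θ : ℝ) {s : ℂ} (hs1 : s ≠ 1) (hs : s.im ≠ 0) :
    DifferentiableAt ℂ (gj j k δ θ) s := by
  unfold gj
  refine ((Wf_differentiable k δ s).mul ((differentiableAt_riemannZeta hs1).mul ((ch_diff hs).pow j))).mul ?_
  fun_prop

lemma gj_differentiableOn (j k : ℕ) (δ θ : ℝ) :
    DifferentiableOn ℂ (gj j k δ θ) {s | 1 / 2 ≤ s.re ∧ s.re ≤ 3 ∧ 1 ≤ s.im} := by
  intro s hs
  have h3 : 1 ≤ s.im := hs.2.2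
  have hs1 : s ≠ 1 := by
    rintro rfl
    simp at h3
    norm_num at h3
  exact (gj_diff j k δ θ hs1 (by intro h; rw [h] at h3; norm_num at h3)).differentiableWithinAt

lemma gj_cl_integrable (j k : ℕ) (δ θ : ℝ) (hδ : 0 < δ) :
    IntegrableOn (fun t : ℝ => (om k δ t : ℂ) * (Zj j t * ef θ t)) (Set.Ioi 0) := by
  apply om_mul_integrable k δ hδ _ ((Zj_cont j).mul (ef_continuous _)) (216 * 4 ^ 6) 6
  intro t ht
  change ‖Zj j t * ef θ t‖ ≤ _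
  rw [norm_mul, ef_norm, mul_one, Zj_norm]
  have := zeta_gr (cl t) (by rw [cl_re]) (by rw [cl_re]; norm_num) (by rw [cl_im]; exact ht) (cl_sub_one t)
  rwa [cl_im] at this

lemma om_div (k : ℕ) (hk : 1 ≤ k) (δ x : ℝ) (hx : 0 < x) : om k δ x / x = δ / k * om (k - 1) δ x := by
  obtain ⟨m, rfl⟩ : ∃ m, k = m + 1 := ⟨k - 1, by omega⟩
  unfold om
  rw [Nat.add_sub_cancel, Nat.factorial_succ]
  push_cast
  have h1 : ((m : ℝ) + 1) ≠ 0 := by positivity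
  have h2 : (m.factorial : ℝ) ≠ 0 := by exact_mod_cast m.factorial_ne_zero
  field_simp
  ring

/-- the right line -/
lemma gj_right {C : ℝ} (hC : 1 ≤ C)
    (hb : ∀ s : ℂ, 1 / 2 ≤ s.re → s.re ≤ 3 → 1 ≤ s.im → ‖ch s‖ ≤ C ∧ (s.re = 3 → ‖ch s‖ ≤ C / s.im))
    (j : ℕ) (hj : 1 ≤ j) (k : ℕ) (hk : 1 ≤ k) (δ θ : ℝ) (hδ : 0 < δ) (n : ℕ) (hn : 1 ≤ n)
    (hθ : θ ≤ Real.log n) :
    IntegrableOn (fun y : ℝ => gj j k δ θ (((3 : ℝ) : ℂ) + y * I)) (Set.Ioi 1) ∧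
      ‖∫ y in Set.Ioi (1 : ℝ), gj j k δ θ (((3 : ℝ) : ℂ) + y * I)‖ ≤
        Real.exp (5 / 2 * δ) * Pool.Agent.TH959.LK_ZM.C2 * C ^ j * (n : ℝ) ^ (5 / 2 : ℝ) * (7 / 2 * (δ / k)) := by
  have hC2 := Pool.Agent.TH959.LK_ZM.C2_nonneg
  set A : ℝ := Real.exp (5 / 2 * δ) * Pool.Agent.TH959.LK_ZM.C2 * C ^ j * (n : ℝ) ^ (5 / 2 : ℝ) *
    (7 / 2 * (δ / k)) with hA
  have hk0 : (0 : ℝ) < k := by exact_mod_cast hk
  have hA0 : 0 ≤ A := by positivity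
  have hpt : ∀ᵐ y : ℝ ∂(volume.restrict (Set.Ioi 1)), ‖gj j k δ θ (((3 : ℝ) : ℂ) + y * I)‖ ≤
      A * om (k - 1) δ (y + 5 / 2) := by
    filter_upwards [ae_restrict_mem measurableSet_Ioi] with y hy
    have hy1 : (1 : ℝ) < y := hy
    have e1 : (((3 : ℝ) : ℂ) + y * I).re = 3 := by simp
    have e2 : (((3 : ℝ) : ℂ) + y * I).im = y := by simp
    have hW := Wf_norm_le k δ hδ.le (((3 : ℝ) : ℂ) + y * I) (by rw [e1]; norm_num)
      (by rw [e1]) (by rw [e2]; linarith)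
    rw [e2] at hW
    have hG := zeta_right (((3 : ℝ) : ℂ) + y * I) e1
    have hE := Pool.Agent.TH959.LK_ZM.exp_norm n hn hθ (((3 : ℝ) : ℂ) + y * I) (by rw [e1]; norm_num) (by rw [e1])
    obtain ⟨c1, c2⟩ := hb (((3 : ℝ) : ℂ) + y * I) (by rw [e1]; norm_num) (by rw [e1]) (by rw [e2]; exact hy1.le)
    have c3 := c2 e1
    rw [e2] at c3
    have hom : 0 ≤ om k δ (y + 5 / 2) := om_nonneg k δ _ hδ.le (by linarith)
    have hy0 : 0 < y := by linarith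
    have hcj : ‖ch (((3 : ℝ) : ℂ) + y * I)‖ ^ j ≤ C ^ j * (7 / 2 * (1 / (y + 5 / 2))) := by
      obtain ⟨m, rfl⟩ : ∃ m, j = m + 1 := ⟨j - 1, by omega⟩
      rw [pow_succ, pow_succ, mul_assoc]
      refine mul_le_mul (pow_le_pow_left₀ (norm_nonneg _) c1 m) ?_ (norm_nonneg _) (by positivity)
      refine c3.trans ?_
      rw [div_eq_mul_inv]
      refine mul_le_mul_of_nonneg_left ?_ (by linarith)
      rw [mul_one_div, inv_eq_one_div, div_le_div_iff₀ hy0 (by linarith)]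
      linarith
    unfold gj
    rw [norm_mul, norm_mul, norm_mul, norm_pow]
    calc ‖Wf k δ (((3 : ℝ) : ℂ) + y * I)‖ * (‖riemannZeta (((3 : ℝ) : ℂ) + y * I)‖ *
          ‖ch (((3 : ℝ) : ℂ) + y * I)‖ ^ j) * ‖cexp ((((3 : ℝ) : ℂ) + y * I - 1 / 2) * (θ : ℂ))‖
        ≤ (Real.exp (5 / 2 * δ) * om k δ (y + 5 / 2)) * (Pool.Agent.TH959.LK_ZM.C2 *
          (C ^ j * (7 / 2 * (1 / (y + 5 / 2))))) * (n : ℝ) ^ (5 / 2 : ℝ) := by
          gcongr
      _ = Real.exp (5 / 2 * δ) * Pool.Agent.TH959.LK_ZM.C2 * C ^ j * (n : ℝ) ^ (5 / 2 : ℝ) * (7 / 2) *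
          (om k δ (y + 5 / 2) / (y + 5 / 2)) := by ring
      _ = _ := by
          rw [om_div k hk δ _ (by linarith), hA]
          ring
  have hbi : Integrable (fun y : ℝ => A * om (k - 1) δ (y + 5 / 2)) (volume.restrict (Set.Ioi 1)) :=
    (om_shift_integrable (k - 1) δ hδ).1.const_mul _
  constructor
  · refine Integrable.mono' hbi ?_ hpt
    apply ContinuousOn.aestronglyMeasurable _ measurableSet_Ioi
    intro y hy
    have hy1 : (1 : ℝ) < y := hy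
    have hs1 : (((3 : ℝ) : ℂ) + y * I) ≠ 1 := by
      intro h
      have := congrArg Complex.re h
      simp at this
    have hs2 : (((3 : ℝ) : ℂ) + y * I).im ≠ 0 := by
      have e2 : (((3 : ℝ) : ℂ) + y * I).im = y := by simp
      rw [e2]; linarith
    apply ContinuousAt.continuousWithinAt
    exact ContinuousAt.comp (f := fun y : ℝ => ((3 : ℝ) : ℂ) + y * I) (gj_diff j k δ θ hs1 hs2).continuousAt
      (by fun_prop)
  · refine (norm_integral_le_of_norm_le hbi hpt).trans ?_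
    rw [integral_const_mul]
    calc A * ∫ y in Set.Ioi (1 : ℝ), om (k - 1) δ (y + 5 / 2) ≤ A * 1 := by
          gcongr
          exact (om_shift_integrable (k - 1) δ hδ).2
      _ = A := mul_one _

/-- the bound before the choice of the parameters -/
lemma gj_bound {C : ℝ} (hC : 1 ≤ C)
    (hb : ∀ s : ℂ, 1 / 2 ≤ s.re → s.re ≤ 3 → 1 ≤ s.im → ‖ch s‖ ≤ C ∧ (s.re = 3 → ‖ch s‖ ≤ C / s.im))
    (j : ℕ) (hj : 1 ≤ j) (k : ℕ) (hk : 1 ≤ k) (δ θ : ℝ) (hδ : 0 < δ) (n : ℕ) (hn : 1 ≤ n)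
    (hθ : θ ≤ Real.log n) :
    ‖∫ t in Set.Ioi (0 : ℝ), (om k δ t : ℂ) * (Zj j t * ef θ t)‖ ≤
      δ ^ (k + 1) * (216 * 4 ^ 6 * 64) +
        (Real.exp (5 / 2 * δ) * Pool.Agent.TH959.LK_ZM.C2 * C ^ j * (n : ℝ) ^ (5 / 2 : ℝ) * (7 / 2 * (δ / k)) +
          5 / 2 * (C ^ j * mj k δ n 0 1)) := by
  have hint := gj_cl_integrable j k δ θ hδ
  have hsplit : ∫ t in Set.Ioi (0 : ℝ), (om k δ t : ℂ) * (Zj j t * ef θ t) =
      (∫ t in Set.Ioc (0 : ℝ) 1, (om k δ t : ℂ) * (Zj j t * ef θ t)) +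
        ∫ t in Set.Ioi (1 : ℝ), (om k δ t : ℂ) * (Zj j t * ef θ t) := by
    rw [← Set.Ioc_union_Ioi_eq_Ioi (zero_le_one (α := ℝ))]
    apply setIntegral_union
    · exact Set.Ioc_disjoint_Ioi le_rfl
    · exact measurableSet_Ioi
    · exact hint.mono_set Set.Ioc_subset_Ioi_self
    · exact hint.mono_set (Set.Ioi_subset_Ioi zero_le_one)
  rw [hsplit]
  refine (norm_add_le _ _).trans (add_le_add ?_ ?_)
  · have h := norm_setIntegral_le_of_norm_le_const (μ := volume) (s := Set.Ioc (0 : ℝ) 1)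
      (f := fun t : ℝ => (om k δ t : ℂ) * (Zj j t * ef θ t))
      (C := δ ^ (k + 1) * (216 * 4 ^ 6 * 64)) (by simp) (by
        intro t ht
        have ht0 : 0 ≤ t := ht.1.le
        rw [norm_mul, norm_mul, ef_norm, mul_one, Zj_norm, Complex.norm_real, Real.norm_eq_abs,
          abs_of_nonneg (om_nonneg k δ t hδ.le ht0)]
        have h1 := zeta_gr (cl t) (by rw [cl_re]) (by rw [cl_re]; norm_num)
          (by rw [cl_im]; exact ht0) (cl_sub_one t)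
        rw [cl_im] at h1
        have h2 : (1 + t) ^ 6 ≤ 64 := by
          calc (1 + t) ^ 6 ≤ 2 ^ 6 := by
                apply pow_le_pow_left₀ (by linarith)
                linarith [ht.2]
            _ = 64 := by norm_num
        have h3 : om k δ t ≤ δ ^ (k + 1) := by
          unfold om
          have e1 : t ^ k ≤ 1 := pow_le_one₀ ht0 ht.2
          have e2 : Real.exp (-(δ * t)) ≤ 1 := by
            rw [Real.exp_le_one_iff]
            have := mul_nonneg hδ.le ht0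
            linarith
          have e3 : (1 : ℝ) ≤ (k.factorial : ℝ) := by exact_mod_cast Nat.factorial_pos k
          calc δ ^ (k + 1) * t ^ k * Real.exp (-(δ * t)) / (k.factorial : ℝ)
              ≤ δ ^ (k + 1) * 1 * 1 / 1 := by gcongr
            _ = δ ^ (k + 1) := by ring
        calc om k δ t * ‖riemannZeta (cl t)‖ ≤ δ ^ (k + 1) * (216 * 4 ^ 6 * (1 + t) ^ 6) := by gcongr
          _ ≤ δ ^ (k + 1) * (216 * 4 ^ 6 * 64) := by gcongr)
    refine h.trans (le_of_eq ?_)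
    simp
  · have hcl : ∀ y : ℝ, ((1 / 2 : ℝ) : ℂ) + y * I = cl y := fun y => by
      unfold cl
      push_cast
      ring
    have hlim : Tendsto (fun τ => C ^ j * mj k δ n 0 τ) atTop (𝓝 0) := by
      have := (mj_tendsto k δ hδ n 0).const_mul (C ^ j)
      rwa [mul_zero] at this
    have h := shift (gj j k δ θ) (fun τ => C ^ j * mj k δ n 0 τ) (gj_differentiableOn j k δ θ) hlim
      (fun s h1 h2 h3 => gj_norm_le hC hb j k δ θ hδ n hn hθ s h1 h2 h3) (by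
        simp_rw [hcl, gj_cl]
        exact hint.mono_set (Set.Ioi_subset_Ioi zero_le_one))
      (gj_right hC hb j hj k hk δ θ hδ n hn hθ).1
    simp_rw [hcl, gj_cl] at h
    refine h.trans ?_
    exact add_le_add (gj_right hC hb j hj k hk δ θ hδ n hn hθ).2 le_rfl

/-- zeta times a positive power of the factor against a monomial -/
theorem t_TW (j : ℕ) (hj : 1 ≤ j) : ∀ᶠ T : ℝ in atTop, ∀ κ : ℕ, Rng T κ → ∀ h l : ℕ, 1 ≤ h → 1 ≤ l →
    (h : ℝ) ≤ T ^ (1 / 100 : ℝ) → (l : ℝ) ≤ T ^ (1 / 100 : ℝ) →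
      ‖∫ t in Set.Ioi (0 : ℝ), ((om κ (κ / T) t : ℝ) : ℂ) * (Zj j t * mh t (h, l))‖ ≤ T ^ (-(1 / 8) : ℝ) := by
  obtain ⟨C, hC, hb⟩ := ch_bound
  have hC2 := Pool.Agent.TH959.LK_ZM.C2_nonneg
  have hE1 : ∀ᶠ T : ℝ in atTop, 16 * Real.log T ^ 2 ≤ T ^ (1 / 2 : ℝ) := by
    have h := (isLittleO_log_rpow_rpow_atTop (s := 1 / 2) 2 (by norm_num)).bound
      (show (0 : ℝ) < 1 / 16 by norm_num)
    filter_upwards [h, eventually_ge_atTop 1] with T hT hT1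
    rw [Real.norm_eq_abs, Real.norm_eq_abs, abs_of_nonneg (by
      have := Real.log_nonneg hT1
      positivity), abs_of_nonneg (by positivity)] at hT
    have e : Real.log T ^ (2 : ℝ) = Real.log T ^ 2 := by
      rw [← Real.rpow_natCast]
      norm_num
    rw [e] at hT
    linarith
  set K : ℝ := 216 * 4 ^ 6 * 64 + (3 * Pool.Agent.TH959.LK_ZM.C2 * C ^ j * (7 / 2) +
    5 / 2 * (C ^ j * (3 * (216 * 4 ^ 6) * (7 / 2) ^ 5))) with hK
  have hE3 : ∀ᶠ T : ℝ in atTop, K ≤ T ^ (1 / 2 : ℝ) :=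
    (tendsto_rpow_atTop (by norm_num)).eventually_ge_atTop _
  filter_upwards [hE1, hE3, eventually_ge_atTop 2, Real.tendsto_log_atTop.eventually_ge_atTop 1]
    with T h1 h2 h4 h5 k hk h l hh hl hhT hlT
  have hT0 : 0 < T := by linarith
  have hT1 : 1 ≤ T := by linarith
  obtain ⟨hk1, hk2⟩ := hk
  have hkpos : (1 : ℝ) ≤ k := by nlinarith
  have hk1' : 1 ≤ k := by exact_mod_cast hkpos
  have hk0 : (0 : ℝ) < k := by linarith
  set δ : ℝ := (k : ℝ) / T with hδdef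
  have hδ : 0 < δ := div_pos hk0 hT0
  have hh0 : (0 : ℝ) < h := by exact_mod_cast hh
  have hl0 : (0 : ℝ) < l := by exact_mod_cast hl
  set c : ℝ := (h : ℝ) ^ (-(1 / 2) : ℝ) * (l : ℝ) ^ (-(1 / 2) : ℝ) with hc
  have hc0 : 0 ≤ c := by positivity
  have hc1 : c ≤ 1 := by
    have a1 : (h : ℝ) ^ (-(1 / 2) : ℝ) ≤ 1 :=
      Real.rpow_le_one_of_one_le_of_nonpos (by exact_mod_cast hh) (by norm_num)
    have a2 : (l : ℝ) ^ (-(1 / 2) : ℝ) ≤ 1 :=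
      Real.rpow_le_one_of_one_le_of_nonpos (by exact_mod_cast hl) (by norm_num)
    exact mul_le_one₀ a1 (by positivity) a2
  have hmh : ∀ t : ℝ, mh t (h, l) = (c : ℂ) * ef (Real.log l - Real.log h) t := by
    intro t
    show (h : ℂ) ^ (-(1 / 2 + t * Complex.I)) * (l : ℂ) ^ (-(1 / 2 - t * Complex.I)) = _
    have hhc : (h : ℂ) ≠ 0 := by exact_mod_cast hh0.ne'
    have hlc : (l : ℂ) ≠ 0 := by exact_mod_cast hl0.ne'
    rw [Complex.cpow_def_of_ne_zero hhc, Complex.cpow_def_of_ne_zero hlc, hc,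
      Real.rpow_def_of_pos hh0, Real.rpow_def_of_pos hl0]
    unfold ef
    rw [← Complex.natCast_log, ← Complex.natCast_log, Complex.ofReal_mul, Complex.ofReal_exp,
      Complex.ofReal_exp, ← Complex.exp_add, ← Complex.exp_add, ← Complex.exp_add]
    congr 1
    push_cast
    ring
  have hconj : ∀ t : ℝ, ((om k δ t : ℝ) : ℂ) * (Zj j t * mh t (h, l)) =
      (c : ℂ) * ((om k δ t : ℂ) * (Zj j t * ef (Real.log l - Real.log h) t)) := by
    intro t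
    rw [hmh]
    ring
  simp_rw [hconj]
  rw [integral_const_mul, norm_mul, Complex.norm_real, Real.norm_eq_abs, abs_of_nonneg hc0]
  have hθ : Real.log l - Real.log h ≤ Real.log l := by
    have : 0 ≤ Real.log h := Real.log_nonneg (by exact_mod_cast hh)
    linarith
  have hmain := gj_bound hC hb j hj k hk1' δ (Real.log l - Real.log h) hδ l hl hθ
  -- numbers
  have hδ1 : 4 * δ ≤ T ^ (-(1 / 2) : ℝ) := by
    have e1 : T ^ (-(1 / 2) : ℝ) = T ^ (1 / 2 : ℝ) / T := by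
      rw [Real.rpow_neg hT0.le, eq_div_iff hT0.ne', inv_mul_eq_div]
      rw [div_eq_iff (by positivity), ← Real.rpow_add hT0]
      norm_num
    rw [e1, hδdef, ← mul_div_assoc]
    apply div_le_div_of_nonneg_right _ hT0.le
    linarith
  have hs1 : T ^ (-(1 / 2) : ℝ) ≤ 1 := Real.rpow_le_one_of_one_le_of_nonpos hT1 (by norm_num)
  have hs0 : 0 < T ^ (-(1 / 2) : ℝ) := by positivity
  have hpow : ∀ x : ℝ, 0 ≤ x → x ≤ T ^ (-(1 / 2) : ℝ) → x ^ (k + 1) ≤ T ^ (-1 : ℝ) := by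
    intro x hx0 hx
    have e2 : T ^ (-1 : ℝ) = (T ^ (-(1 / 2) : ℝ)) ^ 2 := by
      rw [← Real.rpow_natCast, ← Real.rpow_mul hT0.le]; norm_num
    rw [e2]
    calc x ^ (k + 1) ≤ (T ^ (-(1 / 2) : ℝ)) ^ (k + 1) := by gcongr
      _ ≤ (T ^ (-(1 / 2) : ℝ)) ^ 2 := pow_le_pow_of_le_one hs0.le hs1 (by omega)
  have hln : (l : ℝ) ^ (5 / 2 : ℝ) ≤ T ^ (1 / 40 : ℝ) := by
    calc (l : ℝ) ^ (5 / 2 : ℝ) ≤ (T ^ (1 / 100 : ℝ)) ^ (5 / 2 : ℝ) := by gcongr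
      _ = T ^ (1 / 40 : ℝ) := by rw [← Real.rpow_mul hT0.le]; norm_num
  have hone : 1 ≤ T ^ (1 / 40 : ℝ) := Real.one_le_rpow hT1 (by norm_num)
  have hTi : 0 < T ^ (-1 : ℝ) := by positivity
  have hexp : Real.exp (5 / 2 * δ) ≤ 3 := by
    have h5 : Real.exp (5 / 2 * δ) ≤ Real.exp 1 := Real.exp_le_exp.mpr (by linarith)
    have := Real.exp_one_lt_d9
    linarith
  have hdk : δ / k = T ^ (-1 : ℝ) := by
    rw [hδdef, Real.rpow_neg_one]
    field_simp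
  have t1 : δ ^ (k + 1) * (216 * 4 ^ 6 * 64) ≤ (216 * 4 ^ 6 * 64) * (T ^ (-1 : ℝ) * T ^ (1 / 40 : ℝ)) := by
    have := hpow δ hδ.le (by linarith)
    calc δ ^ (k + 1) * (216 * 4 ^ 6 * 64) ≤ T ^ (-1 : ℝ) * (216 * 4 ^ 6 * 64) := by gcongr
      _ = (216 * 4 ^ 6 * 64) * (T ^ (-1 : ℝ) * 1) := by ring
      _ ≤ _ := by gcongr
  have t2 : Real.exp (5 / 2 * δ) * Pool.Agent.TH959.LK_ZM.C2 * C ^ j * (l : ℝ) ^ (5 / 2 : ℝ) * (7 / 2 * (δ / k)) ≤
      (3 * Pool.Agent.TH959.LK_ZM.C2 * C ^ j * (7 / 2)) * (T ^ (-1 : ℝ) * T ^ (1 / 40 : ℝ)) := by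
    rw [hdk]
    calc _ ≤ 3 * Pool.Agent.TH959.LK_ZM.C2 * C ^ j * T ^ (1 / 40 : ℝ) * (7 / 2 * T ^ (-1 : ℝ)) := by gcongr
      _ = _ := by ring
  have t3 : 5 / 2 * (C ^ j * mj k δ l 0 1) ≤
      (5 / 2 * (C ^ j * (3 * (216 * 4 ^ 6) * (7 / 2) ^ 5))) * (T ^ (-1 : ℝ) * T ^ (1 / 40 : ℝ)) := by
    have h6 := hpow (δ * (7 / 2)) (by positivity) (by linarith)
    rw [mul_pow] at h6
    have hfac : (1 : ℝ) ≤ (k.factorial : ℝ) := by exact_mod_cast Nat.factorial_pos k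
    have hexp2 : Real.exp (-(δ * (1 + 5 / 2))) ≤ 1 := by
      rw [Real.exp_le_one_iff]
      linarith
    have h7 : mj k δ l 0 1 ≤ (3 * (216 * 4 ^ 6) * (7 / 2) ^ 5) * (T ^ (-1 : ℝ) * T ^ (1 / 40 : ℝ)) := by
      unfold mj
      calc (Real.exp (5 / 2 * δ) * (δ ^ (k + 1) / (k.factorial : ℝ)) * (216 * 4 ^ 6 + ((0 : ℕ) : ℝ) ^ 4) *
            (l : ℝ) ^ (5 / 2 : ℝ)) * ((1 + 5 / 2) ^ (k + 6) * Real.exp (-(δ * (1 + 5 / 2))))
          ≤ (3 * (δ ^ (k + 1) / 1) * (216 * 4 ^ 6 + ((0 : ℕ) : ℝ) ^ 4) *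
            T ^ (1 / 40 : ℝ)) * ((1 + 5 / 2) ^ (k + 6) * 1) := by
            gcongr
        _ = (3 * (216 * 4 ^ 6) * (7 / 2) ^ 5) * ((δ ^ (k + 1) * (7 / 2 : ℝ) ^ (k + 1)) * T ^ (1 / 40 : ℝ)) := by
            rw [show (1 + 5 / 2 : ℝ) = 7 / 2 by norm_num, show k + 6 = (k + 1) + 5 by ring,
              pow_add (7 / 2 : ℝ) (k + 1) 5]
            push_cast
            ring
        _ ≤ _ := by gcongr
    calc 5 / 2 * (C ^ j * mj k δ l 0 1) ≤ 5 / 2 * (C ^ j * ((3 * (216 * 4 ^ 6) * (7 / 2) ^ 5) *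
          (T ^ (-1 : ℝ) * T ^ (1 / 40 : ℝ)))) := by gcongr
      _ = _ := by ring
  have hfin : ‖∫ t in Set.Ioi (0 : ℝ), (om k δ t : ℂ) * (Zj j t * ef (Real.log l - Real.log h) t)‖ ≤
      T ^ (-(1 / 8) : ℝ) := by
    refine hmain.trans ((add_le_add t1 (add_le_add t2 t3)).trans ?_)
    have hp : 0 < T ^ (-1 : ℝ) * T ^ (1 / 40 : ℝ) := by positivity
    calc _ = K * (T ^ (-1 : ℝ) * T ^ (1 / 40 : ℝ)) := by rw [hK]; ring
      _ ≤ T ^ (1 / 2 : ℝ) * (T ^ (-1 : ℝ) * T ^ (1 / 40 : ℝ)) := by gcongr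
      _ = T ^ ((1 / 2 : ℝ) + (-1 + 1 / 40)) := by rw [Real.rpow_add hT0, Real.rpow_add hT0]
      _ ≤ T ^ (-(1 / 8) : ℝ) := Real.rpow_le_rpow_of_exponent_le hT1 (by norm_num)
  calc c * ‖∫ t in Set.Ioi (0 : ℝ), (om k δ t : ℂ) * (Zj j t * ef (Real.log l - Real.log h) t)‖ ≤
      1 * T ^ (-(1 / 8) : ℝ) := mul_le_mul hc1 hfin (norm_nonneg _) zero_le_one
    _ = _ := one_mul _

end

end Pool.Agent.Run7.h74.SC
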