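import Pool.Agent.Run7.h74.SC.Part
import Pool.Agent.Run7.h74.SC.Harm

set_option autoImplicit false

/-!
SC project (helper74): the local lower bound in the windows for every sector, with the configuration given.
-/

namespace Pool.Agent.Run7.h74.SC

open Finset Filter Topology MeasureTheory Complex MonoidAlgebra
open Pool.Agent.W184.NZ
open Pool.Agent.TH806 Pool.Agent.TH806.LK Pool.Agent.TH806.LM Pool.Agent.TH806.LS
open Pool.Agent.H306R2.SM (om cl Yf)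
open Pool.Agent.H262R4.TM (Rng Ck)

noncomputable section

theorem int_keyg (hPT : P_PT) {Y : ℝ → ℝ} (hY0 : ∀ t, 0 ≤ Y t) (hYX : ∀ t, Y t ≤ Xz t) {S : Set ℝ}
    (hSm : MeasurableSet S) (hYS : ∀ t, t ∉ S → Y t = 0) {n Rs J : ℕ} {I : ℕ → Finset ℕ}
    (hI : ∀ i, ∀ p ∈ I i, p.Prime) (hn : 1 ≤ n)
    (hRs : 1 ≤ Rs) {κ : ℕ} {T : ℝ} (hδ : 0 < (κ:ℝ) / T) {u k lam B' c' M' : ℝ} (hk : |k| + 1 ≤ n)
    (hlam : 0 < lam) (hB' : 0 < B') (hc' : 0 < c') (hM' : 0 < M') :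
    ∫ t in Set.Ioi (0:ℝ), om κ (κ / T) t * (Y t *
        (‖AQ n Rs J k (zz I t)‖ * ‖AQ n Rs J (k - 1) (zz I t)‖ * ‖DK n Rs J hh u (zz I t)‖ ^ 2)) ≤
      (256 * M' * Real.exp (2 * k * u + 2 * |k| * B')) *
        (∫ t in Set.Ioi (0:ℝ) ∩ (SS Rs J I u B' c' M' ∩ S), om κ (κ / T) t) +
      (lam + 16 / M') * (∫ t in Set.Ioi (0:ℝ), wz κ T t * AQD n Rs J I (k - 1) u t) +
      1 / (2 * lam) * (∑ i ∈ range J, ∫ t in Set.Ioi (0:ℝ), om κ (κ / T) t *
        ((‖zz I t i‖ / RR Rs i) ^ (2 * RR Rs i) * AQD n Rs J I k u t)) +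
      1 / (2 * lam * B' ^ 2) * (∫ t in Set.Ioi (0:ℝ), om κ (κ / T) t * ((xx I J t - u) ^ 2 * AQD n Rs J I k u t)) +
      16 * c' * (∫ t in Set.Ioi (0:ℝ), om κ (κ / T) t * AQD n Rs J I k u t) := by
  classical
  have hhc : Continuous hh := by unfold hh; fun_prop
  obtain ⟨_, cD, cz, Bz, hBz⟩ := hPT.1 n Rs J I k u hh hI hhc
  obtain ⟨cA, Bk, hBk⟩ := AQ_cont hPT (n := n) (Rs := Rs) (J := J) hI k
  obtain ⟨cA', Bm, hBm⟩ := AQ_cont hPT (n := n) (Rs := Rs) (J := J) hI (k - 1)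
  have cx := xx_cont (J := J) cz
  have cAD : Continuous (AQD n Rs J I k u) := by
    unfold AQD; exact (cA.pow 2).mul (cD.norm.pow 2)
  have cAD' : Continuous (AQD n Rs J I (k - 1) u) := by
    unfold AQD; exact (cA'.pow 2).mul (cD.norm.pow 2)
  have AD0 : ∀ a t, 0 ≤ AQD n Rs J I a u t := fun a t => by unfold AQD; positivity
  have bAD : ∀ t, AQD n Rs J I k u t ≤ Bk ^ 2 * Bz ^ 2 := fun t => by
    unfold AQD
    have h1 := hBk t
    have h2 := (hBz t).2.1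
    gcongr
  have bAD' : ∀ t, AQD n Rs J I (k - 1) u t ≤ Bm ^ 2 * Bz ^ 2 := fun t => by
    unfold AQD
    have h1 := hBm t
    have h2 := (hBz t).2.1
    gcongr
  have hz0 : ∀ t, ∀ i < J, ‖zz I t i‖ ≤ |Bz| := fun t i hi => ((hBz t).2.2 i hi).trans (le_abs_self _)
  have bx : ∀ t, |xx I J t| ≤ J * |Bz| := fun t => by
    unfold xx
    refine (abs_sum_le_sum_abs _ _).trans ?_
    refine (sum_le_sum (g := fun _ => |Bz|) fun i hi =>
      (Complex.abs_re_le_norm _).trans (hz0 t i (mem_range.mp hi))).trans ?_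
    simp
  -- integrability
  have iom : IntegrableOn (fun t => om κ (κ / T) t) (Set.Ioi 0) := om_int0 _ hδ
  have iF : ∀ {F : ℝ → ℝ} {C : ℝ}, Continuous F → (∀ t, |F t| ≤ C) →
      IntegrableOn (fun t => om κ (κ / T) t * F t) (Set.Ioi 0) := by
    intro F C hF hC
    refine iom.mul_bdd (c := C) hF.aestronglyMeasurable (Eventually.of_forall fun t => ?_)
    rw [Real.norm_eq_abs]; exact hC t
  have j1 : IntegrableOn (fun t => wz κ T t * AQD n Rs J I (k - 1) u t) (Set.Ioi 0) :=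
    wz_int κ hδ cAD' (C := Bm ^ 2 * Bz ^ 2) fun t => by rw [abs_of_nonneg (AD0 _ _)]; exact bAD' t
  have j4 : IntegrableOn (fun t => om κ (κ / T) t * AQD n Rs J I k u t) (Set.Ioi 0) :=
    iF cAD (C := Bk ^ 2 * Bz ^ 2) fun t => by rw [abs_of_nonneg (AD0 _ _)]; exact bAD t
  have j3 : IntegrableOn (fun t => om κ (κ / T) t * ((xx I J t - u) ^ 2 * AQD n Rs J I k u t)) (Set.Ioi 0) := by
    refine iF (((cx.sub continuous_const).pow 2).mul cAD) (C := (J * |Bz| + |u|) ^ 2 * (Bk ^ 2 * Bz ^ 2)) fun t => ?_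
    rw [abs_of_nonneg (mul_nonneg (sq_nonneg _) (AD0 _ _)), ← sq_abs (xx I J t - u)]
    have h1 : |xx I J t - u| ≤ J * |Bz| + |u| := (abs_sub _ _).trans (by linarith [bx t])
    exact mul_le_mul (pow_le_pow_left₀ (abs_nonneg _) h1 2) (bAD t) (AD0 _ _) (by positivity)
  have j2 : ∀ i ∈ range J, IntegrableOn (fun t => om κ (κ / T) t *
      ((‖zz I t i‖ / RR Rs i) ^ (2 * RR Rs i) * AQD n Rs J I k u t)) (Set.Ioi 0) := by
    intro i hi
    refine iF ((((cz i).norm.div_const _).pow _).mul cAD)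
      (C := (|Bz| / RR Rs i) ^ (2 * RR Rs i) * (Bk ^ 2 * Bz ^ 2)) fun t => ?_
    rw [abs_of_nonneg (mul_nonneg (by positivity) (AD0 _ _))]
    have h1 := hz0 t i (mem_range.mp hi)
    exact mul_le_mul (by gcongr) (bAD t) (AD0 _ _) (by positivity)
  have hSSm := (SS_meas (Rs := Rs) (J := J) cz u B' c' M').inter hSm
  set G : ℝ := 256 * M' * Real.exp (2 * k * u + 2 * |k| * B') with hG
  have hG0 : 0 ≤ G := by positivity
  have j0 : IntegrableOn (fun t => (SS Rs J I u B' c' M' ∩ S).indicator (fun t => om κ (κ / T) t) t)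
      (Set.Ioi 0) := iom.indicator hSSm
  -- the pointwise bound
  have hpt : ∀ t ∈ Set.Ioi (0:ℝ), om κ (κ / T) t * (Y t *
        (‖AQ n Rs J k (zz I t)‖ * ‖AQ n Rs J (k - 1) (zz I t)‖ * ‖DK n Rs J hh u (zz I t)‖ ^ 2)) ≤
      G * (SS Rs J I u B' c' M' ∩ S).indicator (fun t => om κ (κ / T) t) t +
      (lam + 16 / M') * (wz κ T t * AQD n Rs J I (k - 1) u t) +
      1 / (2 * lam) * (∑ i ∈ range J, om κ (κ / T) t *
        ((‖zz I t i‖ / RR Rs i) ^ (2 * RR Rs i) * AQD n Rs J I k u t)) +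
      1 / (2 * lam * B' ^ 2) * (om κ (κ / T) t * ((xx I J t - u) ^ 2 * AQD n Rs J I k u t)) +
      16 * c' * (om κ (κ / T) t * AQD n Rs J I k u t) := by
    intro t ht
    have hom : 0 ≤ om κ (κ / T) t := om_nn κ hδ (le_of_lt ht)
    have habs : |k| ≤ n := by linarith
    have habs' : |k - 1| ≤ n := (abs_sub _ _).trans (by simpa using hk)
    have h1 := pws (X := Xz t) (Y := Y t) (A := ‖AQ n Rs J k (zz I t)‖)
      (A' := ‖AQ n Rs J (k - 1) (zz I t)‖)
      (D := ‖DK n Rs J hh u (zz I t)‖ ^ 2) (Xz_nonneg t) (norm_nonneg _) (norm_nonneg _) (by positivity)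
      (x := xx I J t) (u := u) (k := k) hlam hB' hc' hM' hG0 (bd_nonneg Rs J I t) (good := gd Rs J I t)
      (sg := t ∈ S) (hYX t) (fun h => hYS t h)
      (fun h => bd_one hRs h) (fun hg => by
        have b1 := AQ_pt hPT hn hRs hg habs
        have b2 := AQ_pt hPT hn hRs hg habs'
        exact ⟨b1.1, b1.2, b2.1, b2.2⟩) (fun hg hx _ hhi => by
        have b1 := (AQ_pt hPT hn hRs hg habs).2
        have b2 := (AQ_pt hPT hn hRs hg habs').2
        have b3 := (hPT.2 n Rs J (zz I t) hn hRs hg).2 u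
        change ‖AQ n Rs J k (zz I t)‖ ≤ 4 * Real.exp (k * xx I J t) at b1
        change ‖AQ n Rs J (k - 1) (zz I t)‖ ≤ 4 * Real.exp ((k - 1) * xx I J t) at b2
        have b4 : ‖DK n Rs J hh u (zz I t)‖ ^ 2 ≤ 16 := by
          have := pow_le_pow_left₀ (norm_nonneg _) b3 2
          linarith
        calc Xz t * (‖AQ n Rs J k (zz I t)‖ * ‖AQ n Rs J (k - 1) (zz I t)‖) * ‖DK n Rs J hh u (zz I t)‖ ^ 2 ≤
            (M' * Real.exp (xx I J t)) * ((4 * Real.exp (k * xx I J t)) * (4 * Real.exp ((k - 1) * xx I J t))) * 16 := by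
              gcongr
          _ = 256 * M' * (Real.exp (xx I J t) * Real.exp (k * xx I J t) * Real.exp ((k - 1) * xx I J t)) := by ring
          _ = 256 * M' * Real.exp (2 * k * xx I J t) := by
              rw [← Real.exp_add, ← Real.exp_add]; congr 2; ring
          _ ≤ G := by
              rw [hG]
              refine mul_le_mul_of_nonneg_left (Real.exp_le_exp.mpr ?_) (by positivity)
              have h5 : k * (xx I J t - u) ≤ |k| * B' := by
                refine (le_abs_self _).trans ?_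
                rw [abs_mul]
                exact mul_le_mul_of_nonneg_left hx (abs_nonneg _)
              linarith)
    have h2 := mul_le_mul_of_nonneg_left h1 hom
    refine (le_of_eq ?_).trans (h2.trans (le_of_eq ?_))
    · ring
    have e2 : om κ (κ / T) t * (if (gd Rs J I t ∧ |xx I J t - u| ≤ B' ∧ c' * Real.exp (xx I J t) ≤ Xz t ∧
        Xz t ≤ M' * Real.exp (xx I J t)) ∧ t ∈ S then G else 0) =
        G * (SS Rs J I u B' c' M' ∩ S).indicator (fun t => om κ (κ / T) t) t := by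
      by_cases hS : (gd Rs J I t ∧ |xx I J t - u| ≤ B' ∧ c' * Real.exp (xx I J t) ≤ Xz t ∧
          Xz t ≤ M' * Real.exp (xx I J t)) ∧ t ∈ S
      · have hS' : t ∈ SS Rs J I u B' c' M' ∩ S := hS
        rw [Set.indicator_of_mem hS', if_pos hS]; ring
      · have hS' : t ∉ SS Rs J I u B' c' M' ∩ S := hS
        rw [Set.indicator_of_notMem hS', if_neg hS]; ring
    have e3 : wz κ T t = om κ (κ / T) t * Xz t ^ 2 := rfl
    have e4 : ∑ i ∈ range J, om κ (κ / T) t * ((‖zz I t i‖ / RR Rs i) ^ (2 * RR Rs i) * AQD n Rs J I k u t) =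
        om κ (κ / T) t * (bd Rs J I t * AQD n Rs J I k u t) := by
      unfold bd
      rw [sum_mul, mul_sum]
    rw [mul_add, mul_add, mul_add, mul_add, e2, e3, e4]
    unfold AQD
    ring
  have i1 := j0.const_mul G
  have i2 := j1.const_mul (lam + 16 / M')
  have i3 := (integrable_finsetSum _ j2).const_mul (1 / (2 * lam))
  have i4 := j3.const_mul (1 / (2 * lam * B' ^ 2))
  have i5 := j4.const_mul (16 * c')
  have hle := integral_mono_of_nonneg (μ := volume.restrict (Set.Ioi (0:ℝ)))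
    (f := fun t => om κ (κ / T) t * (Y t *
        (‖AQ n Rs J k (zz I t)‖ * ‖AQ n Rs J (k - 1) (zz I t)‖ * ‖DK n Rs J hh u (zz I t)‖ ^ 2)))
    ((ae_restrict_iff' measurableSet_Ioi).mpr (Eventually.of_forall fun t ht => by
      have hom : 0 ≤ om κ (κ / T) t := om_nn κ hδ (le_of_lt ht)
      have : 0 ≤ Y t := hY0 t
      simp only [Pi.zero_apply]
      positivity)) ((((i1.add i2).add i3).add i4).add i5)
    ((ae_restrict_iff' measurableSet_Ioi).mpr (Eventually.of_forall fun t ht => by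
      simpa only [Pi.add_apply] using hpt t ht))
  refine hle.trans (le_of_eq ?_)
  rw [integral_add' (((i1.add i2).add i3).add i4) i5, integral_add' ((i1.add i2).add i3) i4,
    integral_add' (i1.add i2) i3, integral_add' i1 i2, integral_const_mul, integral_const_mul, integral_const_mul,
    integral_const_mul, integral_const_mul, integral_finsetSum _ j2, setIntegral_indicator hSSm]

/-- the local lower bound for every sector -/
theorem t_WLd (hPT : P_PT) (h1 : P_U1) (h3 : P_U3) (h4 : P_U4) (hL : P_LB) (s1 : P_U1s) (s2 : P_U2s) (s3 : P_U3s)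
    (s4 : P_U4s) {ρ : ℝ} (hρ : 0 < ρ) (hρ1 : ρ ≤ 1) :
    ∀ B : ℝ, 0 ≤ B → ∀ c₀ : ℝ, 0 ≤ c₀ → ∃ (n P : ℕ) (e₀ η₀ : ℝ), 1 ≤ n ∧ B + 1 ≤ n ∧ 0 < e₀ ∧ e₀ ≤ 1 ∧ 0 < η₀ ∧
      η₀ ≤ 1 ∧ ∀ η : ℝ, 0 < η → η ≤ η₀ → ∀ CV : ℝ, 0 ≤ CV → ∃ R₁ : ℕ, ∀ Rs : ℕ, R₁ ≤ Rs →
        ∃ c_out B' K : ℝ, 0 < c_out ∧ 0 < B' ∧ 0 < K ∧ ∀ᶠ T : ℝ in atTop, ∀ κ : ℕ, Rng T κ →
          ∀ (y : ℝ) (J : ℕ) (I : ℕ → Finset ℕ), Cfg c₀ e₀ P y J I →
            η / 16 * Real.log T ≤ n * ((Rs:ℝ) + 1) * Real.log y → n * ((Rs:ℝ) + 1) * Real.log y ≤ η * Real.log T →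
            Real.log (Real.log y) - CV ≤ VV I J → ∀ ω : ℂ, ‖ω‖ = 1 → ∀ k : ℝ, |k| ≤ B →
            c_out * (Real.exp (-(k ^ 2 * Real.log (Real.log T))) / Real.sqrt (Real.log (Real.log T))) ≤
              ∫ t in Set.Ioi (0:ℝ) ∩ (EE Rs J I K ∩ {t | |xx I J t - k * Real.log (Real.log T)| ≤ B'} ∩ Sec ρ ω),
                om κ (κ / T) t := by
  intro B hB c₀ hc₀
  set n : ℕ := ⌈B⌉₊ + 1 with hn
  have hn1 : 1 ≤ n := by omega
  have hn1R : (1:ℝ) ≤ n := by exact_mod_cast hn1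
  have hn0R : (0:ℝ) < n := by linarith
  have hBn : B + 1 ≤ n := by rw [hn]; push_cast; linarith [Nat.le_ceil B]
  obtain ⟨P1, C1, η1, hC1, hη1p, H1⟩ := h1 n c₀ hn1 hc₀
  obtain ⟨P3, C3, η3, hC3, hη3, H3⟩ := h3 n c₀ hn1 hc₀
  obtain ⟨P4, C4, η4, hC4, hη4, H4⟩ := h4 n c₀ hn1 hc₀
  obtain ⟨P5, R5, c₁, e₀, η5, hc₁, he₀, he1, hη5, H5⟩ := hL n c₀ hn1 hc₀
  obtain ⟨Pa, Ca, ηa, hCa, hηa, Ha⟩ := s1 n c₀ hn1 hc₀
  obtain ⟨Pb, Cb, ηb, hCb, hηb, Hb⟩ := s2 n c₀ hn1 hc₀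
  obtain ⟨Pc, Cc, ηc, hCc, hηc, Hc⟩ := s3 n c₀ hn1 hc₀
  obtain ⟨Pd, Cd, ηd, hCd, hηd, Hd⟩ := s4 n c₀ hn1 hc₀
  obtain ⟨Pz, Hz⟩ := t_HARM n c₀ hn1
  have hηz : (0:ℝ) < 1 / 96000 := by norm_num
  obtain ⟨η₀, hη0, hη1', g1, g3, g4, g5, ga, gb, gc, gd', gz⟩ : ∃ η : ℝ, 0 < η ∧ η ≤ 1 ∧ η ≤ η1 ∧ η ≤ η3 ∧ η ≤ η4 ∧
      η ≤ η5 ∧ η ≤ ηa ∧ η ≤ ηb ∧ η ≤ ηc ∧ η ≤ ηd ∧ η ≤ 1 / 96000 := by
    set m := min η3 (min η4 η5) with hm
    set m' := min ηa (min ηb (min ηc (min ηd (1 / 96000)))) with hm'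
    have hm0 : 0 < m := by positivity
    have hm0' : 0 < m' := by positivity
    refine ⟨min (min 1 η1) (min m m'), by positivity, (min_le_left _ _).trans (min_le_left _ _),
      (min_le_left _ _).trans (min_le_right _ _), ?_, ?_, ?_, ?_, ?_, ?_, ?_, ?_⟩
    · exact (min_le_right _ _).trans ((min_le_left _ _).trans (min_le_left _ _))
    · exact (min_le_right _ _).trans ((min_le_left _ _).trans ((min_le_right _ _).trans (min_le_left _ _)))
    · exact (min_le_right _ _).trans ((min_le_left _ _).trans ((min_le_right _ _).trans (min_le_right _ _)))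
    · exact (min_le_right _ _).trans ((min_le_right _ _).trans (min_le_left _ _))
    · exact (min_le_right _ _).trans ((min_le_right _ _).trans ((min_le_right _ _).trans (min_le_left _ _)))
    · exact (min_le_right _ _).trans ((min_le_right _ _).trans ((min_le_right _ _).trans ((min_le_right _ _).trans
        (min_le_left _ _))))
    · exact (min_le_right _ _).trans ((min_le_right _ _).trans ((min_le_right _ _).trans ((min_le_right _ _).trans
        ((min_le_right _ _).trans (min_le_left _ _)))))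
    · exact (min_le_right _ _).trans ((min_le_right _ _).trans ((min_le_right _ _).trans ((min_le_right _ _).trans
        ((min_le_right _ _).trans (min_le_right _ _)))))
  refine ⟨n, P1 + P3 + P4 + P5 + Pa + Pb + Pc + Pd + Pz, e₀, η₀, hn1, hBn, he₀, he1, hη0, hη1', ?_⟩
  intro η hη hηη CV hCV
  set cs : ℝ := 1 - ρ ^ 2 / 2 with hcs
  have hcs0 : 0 ≤ cs := by rw [hcs]; nlinarith
  have hcs1 : cs < 1 := by rw [hcs]; have := pow_pos hρ 2; linarith
  have hm0 : 0 < mc cs := mc_pos hcs1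
  set c₁' : ℝ := mc cs * c₁ / 4 with hc₁'
  have hc₁0 : 0 < c₁' := by positivity
  set c₂ : ℝ := c₁' / 256 with hc₂
  have hc₂0 : 0 < c₂ := by positivity
  set Ka : ℝ := 4 ^ 2 * C3 * (C4 / 2) * (Real.exp CV * (16 * n) / η) / c₁' ^ 2 with hKa
  set Kb : ℝ := 8 ^ 2 * Cc * Cd * (Real.exp CV * (16 * n) / η) / c₂ ^ 2 with hKb
  have hKa0 : 0 < Ka := by positivity
  have hKb0 : 0 < Kb := by positivity
  obtain ⟨R₁, hR₁⟩ := Rs_all (Ka + Kb) R5
  refine ⟨R₁, fun Rs hRs1' => ?_⟩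
  obtain ⟨hR5, hR1, hRs⟩ := hR₁ Rs hRs1'
  have hRs1 : (1:ℝ) ≤ Rs := by exact_mod_cast hR1
  set cc : ℝ := η / 16 / (n * ((Rs:ℝ) + 1)) with hcc
  have hcc0 : 0 < cc := by positivity
  have hη1 : η ≤ 1 := hηη.trans hη1'
  have hcc1 : cc ≤ 1 := ncc1 hη1 hn1R hRs1
  set Λ : ℝ := Real.exp CV / cc with hΛ
  have hΛ0 : 0 < Λ := by positivity
  have hE0 := Real.exp_pos (-(Rs:ℝ))
  have hEa : Ka * ((Rs:ℝ) + 1) * Real.exp (-(Rs:ℝ)) ≤ 1 := by
    refine le_trans ?_ hRs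
    gcongr
    linarith
  have hEb : Kb * ((Rs:ℝ) + 1) * Real.exp (-(Rs:ℝ)) ≤ 1 := by
    refine le_trans ?_ hRs
    gcongr
    linarith
  set mu : ℝ := c₁' / (4 * (C4 / 2) * Λ) with hmu
  have hmu0 : 0 < mu := by positivity
  have hmu2 : mu = c₁' / (2 * C4 * Λ) := by rw [hmu]; congr 2; ring
  have hmE : 1 / mu * (C3 * Real.exp (-(Rs:ℝ))) ≤ c₁' / 4 :=
    num_E hc₁0 (by norm_num) (by positivity) hη hn0R (by positivity) hΛ hEa
  set lam : ℝ := c₂ / (8 * Cd * Λ) with hlam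
  have hlam0 : 0 < lam := by positivity
  have hlE : 1 / lam * (Cc * Real.exp (-(Rs:ℝ))) ≤ c₂ / 8 :=
    num_E hc₂0 (by norm_num) hCd hη hn0R (by positivity) hΛ hEb
  set M' : ℝ := 32 * Cd * Λ / c₂ with hM'
  have hM'0 : 0 < M' := by positivity
  set c' : ℝ := c₂ / (128 * Ca) with hc'
  have hc'0 : 0 < c' := by positivity
  set B' : ℝ := 1 + 4 * Cb / (lam * c₂) with hB'
  have hB'0 : 0 < B' := by positivity
  have hcB : 1 / (2 * lam * B' ^ 2) * Cb ≤ c₂ / 8 := ncB hCb hlam0 hc₂0 hB'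
  set DV : ℝ := c₀ + CV + |Real.log cc| with hDV
  have hDV0 : 0 ≤ DV := by positivity
  set c_out : ℝ := c₂ / 4 / (256 * (4 * M') * Real.exp (2 * B * B')) *
    (Real.exp (-(B ^ 2 * DV)) * (2 + DV) ^ (-(1 / 2) : ℝ)) with hcout
  have h2DV : 0 < (2 + DV) ^ (-(1 / 2) : ℝ) := Real.rpow_pos_of_pos (by linarith only [hDV0]) _
  set K : ℝ := 1 + |Real.log c'| + |Real.log (4 * M')| with hK
  set S : ℝ := C4 * Λ + C1 + Cd * Λ + Ca with hS
  have hS0 : 0 < S := by positivity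
  set ηp : ℝ := min (mc cs / 2) (c₁' / (1024 * S)) with hηp
  have hηp0 : 0 < ηp := by positivity
  have hηpm : ηp ≤ mc cs / 2 := min_le_left _ _
  have hηpS : ηp * S ≤ c₁' / 1024 := by
    have h0 : ηp ≤ c₁' / (1024 * S) := min_le_right _ _
    calc ηp * S ≤ c₁' / (1024 * S) * S := mul_le_mul_of_nonneg_right h0 hS0.le
      _ = c₁' / 1024 := by field_simp
  obtain ⟨Ne, ae, hae⟩ := even_approx cs hηp0
  obtain ⟨No, ao, hao⟩ := odd_approx cs hηp0
  set Ae : ℝ := ∑ i ∈ range Ne, |ae i| with hAe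
  set Ao : ℝ := ∑ i ∈ range No, |ao i| with hAo
  have hAe0 : 0 ≤ Ae := sum_nonneg fun i _ => abs_nonneg _
  have hAo0 : 0 ≤ Ao := sum_nonneg fun i _ => abs_nonneg _
  set εp : ℝ := c₁' / (1024 * (Ae + Ao + 1)) with hεp
  have hεp0 : 0 < εp := by positivity
  have hεA : (Ae + Ao + 1) * εp ≤ c₁' / 1024 := le_of_eq (by rw [hεp]; field_simp)
  obtain ⟨V₀, hVh⟩ := Hz Rs hR1 (Ne + No) εp hεp0
  refine ⟨c_out, B' + B * DV, K, by positivity, by positivity, by positivity, ?_⟩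
  filter_upwards [H1 Rs hR1, H3 Rs hR1, H4 Rs hR1, H5 Rs hR5 hR1, Ha Rs hR1, Hb Rs hR1, Hc Rs hR1, Hd Rs hR1, hVh,
    (Real.tendsto_log_atTop.comp Real.tendsto_log_atTop).eventually_ge_atTop (V₀ + DV), eventually_gt_atTop (0:ℝ),
    Real.tendsto_log_atTop.eventually_ge_atTop 1,
    (Real.tendsto_log_atTop.comp Real.tendsto_log_atTop).eventually_ge_atTop 1] with
    T h1T h3T h4T h5T haT hbT hcT hdT hzT hlV hT0 hL1 hl1 κ hκ y J I hcfg hylo hyhi hV ω hω k hk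
  simp only [Function.comp] at hl1 hlV
  set L := Real.log T with hLd
  set l := Real.log L with hld
  have hL0 : 0 < L := by linarith only [hL1]
  have hnR : (0:ℝ) < n * ((Rs:ℝ) + 1) := by positivity
  have hnR1 : (1:ℝ) ≤ n * ((Rs:ℝ) + 1) := one_le_mul_of_one_le_of_one_le hn1R (by linarith only [hRs1])
  have hylo' : cc * L ≤ Real.log y := by
    rw [hcc, div_mul_eq_mul_div, div_le_iff₀ hnR]; linarith only [hylo]
  have hly0 : 0 < Real.log y := lt_of_lt_of_le (by positivity) hylo'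
  have hyhi' : Real.log y ≤ L := nyl hnR1 hly0 hL0 hη1 hyhi
  set V := VV I J with hVd
  have hV0 : 0 ≤ V := sum_nonneg fun i _ => vI_nonneg _
  have hVup : V ≤ l + c₀ := by
    have h6 := hcfg.vv
    have h7 : Real.log (Real.log y) ≤ l := Real.log_le_log hly0 hyhi'
    linarith only [h6, h7]
  have hVV' : Real.log (cc * L) - CV ≤ V := by
    have h7 : Real.log (cc * L) ≤ Real.log (Real.log y) := Real.log_le_log (by positivity) hylo'
    linarith only [h7, hV]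
  have hVlow : l - DV ≤ V := by
    have h8 := hVV'
    rw [Real.log_mul hcc0.ne' hL0.ne'] at h8
    have := neg_abs_le (Real.log cc)
    linarith only [this, h8, hDV, hc₀]
  have hk1 : |k| + 1 ≤ n := by linarith only [hk, hBn]
  have hkn : |k| ≤ n := by linarith only [hk1]
  have hkn' : |k - 1| ≤ n := (abs_sub _ _).trans (by simpa using hk1)
  have hκ0 : (0:ℝ) < κ := kpos hκ hL0
  have hδ : 0 < (κ:ℝ) / T := by positivity
  have hI : ∀ i, ∀ p ∈ I i, p.Prime := fun i p hp => (hcfg.rg.pr i p hp).1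
  have hlen : ∀ {η' : ℝ}, η₀ ≤ η' → n * ((Rs:ℝ) + 1) * Real.log y ≤ η' * L := fun h =>
    hyhi.trans (mul_le_mul_of_nonneg_right (hηη.trans h) hL0.le)
  have key := int_keyg hPT (Y := fun t => Ys cs ω (Zt t)) (fun t => Ys_nonneg _ _ _) (fun t => by
    rw [← Zt_norm]; exact Ys_le hcs0 hω _) (S := Sec ρ ω) (Sec_meas ρ ω) (fun t ht => Ys_Sec hρ hω ht) hI hn1 hR1 (κ := κ) (T := T) hδ (u := k * V) (k := k) hk1 hlam0 hB'0 hc'0
    (show 0 < 4 * M' by positivity) (J := J)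
  have low := h5T κ hκ _ J I (hcfg.mono le_rfl (by omega)) (hlen g5) k hk1
  have u1 := h1T κ hκ _ J I (hcfg.mono he1 (by omega)) (hlen g1) k (k * V) hkn
  have u3 := h3T κ hκ _ J I (hcfg.mono he1 (by omega)) (hlen g3) k (k * V) hkn
  have u4 := h4T κ hκ _ J I (hcfg.mono he1 (by omega)) (hlen g4) (k - 1) (k * V) hkn'
  have ua := haT κ hκ _ J I (hcfg.mono he1 (by omega)) (hlen ga) k (k * V) hkn
  have ub := hbT κ hκ _ J I (hcfg.mono he1 (by omega)) (hlen gb) k (k * V) hkn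
  have uc := hcT κ hκ _ J I (hcfg.mono he1 (by omega)) (hlen gc) k (k * V) hkn
  have ud := hdT κ hκ _ J I (hcfg.mono he1 (by omega)) (hlen gd') (k - 1) (k * V) hkn'
  have uz := hzT κ hκ y J I (hcfg.mono he1 (by omega)) (hlen gz) (by linarith only [hlV, hVlow]) k (k * V) hk1
  set W := WW (k ^ 2) V with hW
  have hW0 : 0 < W := by unfold W WW; positivity
  have hWW : WW (2 * (k - 1) + (k - 1) ^ 2) V = W * Real.exp (-V) := by
    rw [hW]; unfold WW
    rw [mul_assoc, ← Real.exp_add]; congr 2; ring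
  have hLT : L * Real.exp (-V) ≤ Λ := by
    have h6 := lam_T (V := V) hL1 hcc0 hVV'
    rw [Real.exp_neg]
    rw [mul_inv_le_iff₀ (Real.exp_pos _)]
    exact h6
  have hC4' : ∀ {C : ℝ}, 0 < C → C * L * (W * Real.exp (-V)) ≤ C * (Λ * W) := by
    intro C hC
    calc C * L * (W * Real.exp (-V)) = C * ((L * Real.exp (-V)) * W) := by ring
      _ ≤ C * (Λ * W) := by gcongr
  have u4' : ∫ t in Set.Ioi (0:ℝ), wz κ T t * AD n Rs J I (k - 1) (k * V) t ≤ C4 * (Λ * W) := by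
    refine u4.trans ?_
    rw [hWW]
    exact hC4' hC4
  have ud' : ∫ t in Set.Ioi (0:ℝ), wz κ T t * AQD n Rs J I (k - 1) (k * V) t ≤ Cd * (Λ * W) := by
    refine ud.trans ?_
    rw [hWW]
    exact hC4' hCd
  have h6 := sum_exp_le J Rs (RR_ge Rs)
  have u3' : ∑ i ∈ range J, ∫ t in Set.Ioi (0:ℝ), om κ (κ / T) t *
        ((‖zz I t i‖ / RR Rs i) ^ (2 * RR Rs i) * AD n Rs J I k (k * V) t) ≤
      2 * (C3 * Real.exp (-(Rs:ℝ))) * W := by
    refine (sum_le_sum fun i hi => u3 i (mem_range.mp hi)).trans ?_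
    rw [← sum_mul, ← mul_sum]
    calc C3 * (∑ i ∈ range J, Real.exp (-(RR Rs i : ℝ))) * W ≤ C3 * (2 * Real.exp (-(Rs:ℝ))) * W := by gcongr
      _ = _ := by ring
  have uc' : ∑ i ∈ range J, ∫ t in Set.Ioi (0:ℝ), om κ (κ / T) t *
        ((‖zz I t i‖ / RR Rs i) ^ (2 * RR Rs i) * AQD n Rs J I k (k * V) t) ≤
      2 * (Cc * Real.exp (-(Rs:ℝ))) * W := by
    refine (sum_le_sum fun i hi => uc i (mem_range.mp hi)).trans ?_
    rw [← sum_mul, ← mul_sum]
    calc Cc * (∑ i ∈ range J, Real.exp (-(RR Rs i : ℝ))) * W ≤ Cc * (2 * Real.exp (-(Rs:ℝ))) * W := by gcongr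
      _ = _ := by ring
  -- the even part
  have hεW : 0 ≤ εp * W := by positivity
  have hEV := even_part hPT hI hn1 hR1 hδ (k := k) (u := k * V) (c := cs) (ηp := ηp) (lam := mu) (J := J) hk1 hmu0 hcs0
    hηp0 ae hae hηpm hω hεW (fun j hj => uz.2.1 j (by omega)) (fun j hj hj1 => uz.2.2 j (by omega) hj1)
  have hOD := odd_part hPT hI hδ (n := n) (Rs := Rs) (J := J) (k := k) (u := k * V) (c := cs) (ηp := ηp) hcs0 hηp0 ao hao
    hω (E := εp * W) (fun j hj => uz.1 j (by omega))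
  have hSL := sec_low hPT hI hδ (n := n) (Rs := Rs) (J := J) (k := k) (u := k * V) (c := cs) hcs0 hω
  have hlowM : c₁ * W ≤ ‖∫ t in Set.Ioi (0:ℝ), ((om κ (κ / T) t : ℝ) : ℂ) *
      (Zt t * WD n Rs J I (k - 1) k (k * V) t)‖ := by
    refine low.trans ((Complex.re_le_norm _).trans (le_of_eq ?_))
    congr 2
    funext t
    unfold WD Zt
    ring
  set IE := ∫ t in Set.Ioi (0:ℝ), om κ (κ / T) t * (Ye cs ω (Zt t) * WQ n Rs J I k (k - 1) (k * V) t) with hIE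
  set IO := ∫ t in Set.Ioi (0:ℝ), om κ (κ / T) t * (Yo cs ω (Zt t) * WQ n Rs J I k (k - 1) (k * V) t) with hIO
  set M0 := ‖∫ t in Set.Ioi (0:ℝ), ((om κ (κ / T) t : ℝ) : ℂ) * (Zt t * WD n Rs J I (k - 1) k (k * V) t)‖ with hM0
  have hεAe : Ae * (εp * W) ≤ c₁' / 1024 * W := by
    have h0 : Ae * εp ≤ (Ae + Ao + 1) * εp := mul_le_mul_of_nonneg_right (by linarith only [hAo0]) hεp0.le
    calc Ae * (εp * W) = Ae * εp * W := by ring
      _ ≤ _ := mul_le_mul_of_nonneg_right (h0.trans hεA) hW0.le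
  have hεAo : Ao * (εp * W) ≤ c₁' / 1024 * W := by
    have h0 : Ao * εp ≤ (Ae + Ao + 1) * εp := mul_le_mul_of_nonneg_right (by linarith only [hAe0]) hεp0.le
    calc Ao * (εp * W) = Ao * εp * W := by ring
      _ ≤ _ := mul_le_mul_of_nonneg_right (h0.trans hεA) hW0.le
  have hηpSW : ηp * (S * W) ≤ c₁' / 1024 * W := by
    rw [← mul_assoc]
    exact mul_le_mul_of_nonneg_right hηpS hW0.le
  have hIX := num_low (IX := IE)
    (C3 := C3) (E := Real.exp (-(Rs:ℝ))) hC4 hΛ0 hc₁0 hW0.le hmu2 hmE (by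
      have hl1' : mc cs / 2 * (c₁ * W) ≤ mc cs / 2 * M0 := mul_le_mul_of_nonneg_left hlowM (by positivity)
      have hm2 : (mu / 2 + ηp / 2) * (∫ t in Set.Ioi (0:ℝ), wz κ T t * AD n Rs J I (k - 1) (k * V) t) ≤
          (mu / 2 + ηp / 2) * (C4 * (Λ * W)) := mul_le_mul_of_nonneg_left u4' (by positivity)
      have hm3 : ηp / 2 * (∫ t in Set.Ioi (0:ℝ), om κ (κ / T) t * AD n Rs J I k (k * V) t) ≤
          ηp / 2 * (C1 * W) := mul_le_mul_of_nonneg_left u1 (by positivity)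
      have hm4 := mul_le_mul_of_nonneg_left u3' (show 0 ≤ 1 / (2 * mu) by positivity)
      have hm5 : ηp / 2 * (C4 * (Λ * W)) + ηp / 2 * (C1 * W) ≤ 1 / 2 * (ηp * (S * W)) := by
        have h7 : 0 ≤ ηp * ((Cd * Λ + Ca) * W) := by positivity
        have h8 : 1 / 2 * (ηp * (S * W)) = ηp / 2 * (C4 * (Λ * W)) + ηp / 2 * (C1 * W) +
            1 / 2 * (ηp * ((Cd * Λ + Ca) * W)) := by rw [hS]; ring
        linarith only [h7, h8]
      have hm6 : mc cs / 2 * (c₁ * W) = 2 * (c₁' * W) := by rw [hc₁']; ring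
      have hm7 : (mu / 2 + ηp / 2) * (C4 * (Λ * W)) = mu / 2 * (C4 * (Λ * W)) + ηp / 2 * (C4 * (Λ * W)) := by ring
      have hm8 : 0 ≤ c₁' * W := by positivity
      rw [hm6] at hl1'
      rw [hm7] at hm2
      linarith only [hl1', hEV, hm2, hm3, hm4, hm5, hηpSW, hεAe, hm8])
  have hlowY : c₂ * W ≤ ∫ t in Set.Ioi (0:ℝ), om κ (κ / T) t * (Ys cs ω (Zt t) *
        (‖AQ n Rs J k (zz I t)‖ * ‖AQ n Rs J (k - 1) (zz I t)‖ * ‖DK n Rs J hh (k * V) (zz I t)‖ ^ 2)) := by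
    refine le_trans ?_ hSL
    have hm2 : ηp * (1 / 2 * (∫ t in Set.Ioi (0:ℝ), wz κ T t * AQD n Rs J I (k - 1) (k * V) t) +
        1 / 2 * (∫ t in Set.Ioi (0:ℝ), om κ (κ / T) t * AQD n Rs J I k (k * V) t)) ≤
        ηp * (1 / 2 * (Cd * (Λ * W)) + 1 / 2 * (Ca * W)) := by
      refine mul_le_mul_of_nonneg_left ?_ hηp0.le
      linarith only [ua, ud']
    have hm5 : ηp * (1 / 2 * (Cd * (Λ * W)) + 1 / 2 * (Ca * W)) ≤ 1 / 2 * (ηp * (S * W)) := by
      have h7 : 0 ≤ ηp * ((C4 * Λ + C1) * W) := by positivity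
      have h8 : 1 / 2 * (ηp * (S * W)) = ηp * (1 / 2 * (Cd * (Λ * W)) + 1 / 2 * (Ca * W)) +
          1 / 2 * (ηp * ((C4 * Λ + C1) * W)) := by rw [hS]; ring
      linarith only [h7, h8]
    have hm8 : 0 ≤ c₁' * W := by positivity
    rw [hc₂]
    linarith only [hIX, hOD, hm2, hm5, hηpSW, hεAo, hm8]
  have e16 : lam + 16 / (4 * M') = lam + 4 / M' := by
    congr 1
    field_simp
    norm_num
  rw [e16] at key
  have hfin := final_num (c₁ := c₂) (C1 := Ca) (C2 := Cb) (C3 := Cc) (C4 := Cd) (Λ := Λ) (W := W)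
    (G := 256 * (4 * M') * Real.exp (2 * k * (k * V) + 2 * |k| * B'))
    (X := ∫ t in Set.Ioi (0:ℝ) ∩ (SS Rs J I (k * V) B' c' (4 * M') ∩ Sec ρ ω), om κ (κ / T) t)
    (lam := lam) (B' := B') (c' := c') (M' := M') (E := Real.exp (-(Rs:ℝ))) hc₂0 hCa hCd hΛ0 hW0.le hlam hM' hc'
    hcB hlE (by
      refine hlowY.trans (key.trans ?_)
      gcongr)
  -- the set
  have r1 := neg_abs_le (Real.log c')
  have r2 := le_abs_self (Real.log (4 * M'))
  have r3 := abs_nonneg (Real.log c')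
  have r4 := abs_nonneg (Real.log (4 * M'))
  have hcK : Real.exp (-K) ≤ c' := by
    rw [← Real.exp_log hc'0]
    exact Real.exp_le_exp.mpr (by rw [hK]; linarith only [r1, r4])
  have hMK : 4 * M' ≤ Real.exp K := by
    rw [← Real.exp_log (show 0 < 4 * M' by positivity)]
    exact Real.exp_le_exp.mpr (by rw [hK]; linarith only [r2, r3])
  have hSsub : SS Rs J I (k * V) B' c' (4 * M') ∩ Sec ρ ω ⊆
      EE Rs J I K ∩ {t | |xx I J t - k * l| ≤ B' + B * DV} ∩ Sec ρ ω := by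
    rintro t ⟨ht, hs⟩
    obtain ⟨hg, hx, hlo, hhi⟩ := ht
    have hVl : |V - l| ≤ DV := by
      rw [abs_le]; constructor
      · linarith only [hVlow]
      · have := abs_nonneg (Real.log cc)
        linarith only [this, hVup, hDV, hCV]
    have hxk : |xx I J t - k * l| ≤ B' + B * DV := by
      have e1 : xx I J t - k * l = (xx I J t - k * V) + k * (V - l) := by ring
      rw [e1]
      refine (abs_add_le _ _).trans (add_le_add hx ?_)
      rw [abs_mul]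
      exact mul_le_mul hk hVl (abs_nonneg _) hB
    refine ⟨⟨⟨hg, le_trans ?_ hlo, hhi.trans ?_⟩, hxk⟩, hs⟩
    · exact mul_le_mul_of_nonneg_right hcK (Real.exp_pos _).le
    · exact mul_le_mul_of_nonneg_right hMK (Real.exp_pos _).le
  have hmono : ∫ t in Set.Ioi (0:ℝ) ∩ (SS Rs J I (k * V) B' c' (4 * M') ∩ Sec ρ ω), om κ (κ / T) t ≤
      ∫ t in Set.Ioi (0:ℝ) ∩ (EE Rs J I K ∩ {t | |xx I J t - k * l| ≤ B' + B * DV} ∩ Sec ρ ω), om κ (κ / T) t := by
    refine setIntegral_mono_set ((om_int0 κ hδ).mono_set Set.inter_subset_left) ?_ ?_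
    · refine ae_restrict_of_ae_restrict_of_subset Set.inter_subset_left ?_
      exact (ae_restrict_iff' measurableSet_Ioi).mpr (Eventually.of_forall fun t ht => om_nn κ hδ (le_of_lt ht))
    · exact (Set.inter_subset_inter_right _ hSsub).eventuallyLE
  refine le_trans ?_ hmono
  -- numbers
  have hww := fin_WW (B := B) hl1 hV0 hDV0 (show V ≤ l + DV by
    have := abs_nonneg (Real.log cc)
    linarith only [this, hVup, hDV, hCV]) hk
  have hGpos : 0 < 256 * (4 * M') * Real.exp (2 * k * (k * V) + 2 * |k| * B') := by positivity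
  have hXlow : c₂ / 4 * W / (256 * (4 * M') * Real.exp (2 * k * (k * V) + 2 * |k| * B')) ≤
      ∫ t in Set.Ioi (0:ℝ) ∩ (SS Rs J I (k * V) B' c' (4 * M') ∩ Sec ρ ω), om κ (κ / T) t := by
    rw [div_le_iff₀ hGpos]; linarith only [hfin]
  refine le_trans ?_ hXlow
  have e5 : c₂ / 4 * W / (256 * (4 * M') * Real.exp (2 * k * (k * V) + 2 * |k| * B')) =
      c₂ / 4 / (256 * (4 * M') * Real.exp (2 * |k| * B')) *
        ((1 + V) ^ (-(1 / 2) : ℝ) * Real.exp (-(k ^ 2 * V))) := by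
    rw [hW]; unfold WW
    have e6 : Real.exp (2 * k * (k * V) + 2 * |k| * B') =
        Real.exp (k ^ 2 * V) * Real.exp (k ^ 2 * V) * Real.exp (2 * |k| * B') := by
      rw [← Real.exp_add, ← Real.exp_add]; congr 1; ring
    rw [e6, Real.exp_neg]
    field_simp
  rw [e5]
  have e7 : c₂ / 4 / (256 * (4 * M') * Real.exp (2 * B * B')) ≤
      c₂ / 4 / (256 * (4 * M') * Real.exp (2 * |k| * B')) := by
    gcongr
  calc c_out * (Real.exp (-(k ^ 2 * l)) / Real.sqrt l) =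
      c₂ / 4 / (256 * (4 * M') * Real.exp (2 * B * B')) *
        (Real.exp (-(B ^ 2 * DV)) * (2 + DV) ^ (-(1 / 2) : ℝ) * (Real.exp (-(k ^ 2 * l)) / Real.sqrt l)) := by
        rw [hcout]; ring
    _ ≤ c₂ / 4 / (256 * (4 * M') * Real.exp (2 * |k| * B')) *
          ((1 + V) ^ (-(1 / 2) : ℝ) * Real.exp (-(k ^ 2 * V))) := by
        refine mul_le_mul e7 hww (by positivity) (by positivity)

end

end Pool.Agent.Run7.h74.SC
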